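import Pool.Agent.Y626.WR.OneR

/-! The hierarchies are strict relative to random oracles. -/

set_option autoImplicit false

namespace Pool.Agent.Y626.WR

open MeasureTheory Pool.Agent.NPC Pool.Agent.H622R2 Pool.Agent.H620R2.Gauge
  Pool.Agent.TH678.GC Pool.Agent.Y626.WG
open Pool.Agent.H628R3.RO (randomOracle prob)

theorem ae_bad (E : Oracle) {t : ℕ} (ht : 1 ≤ t) (M : Alg) (σ : List Bool) (G : ℕ) :
    ∀ᵐ A ∂randomOracle, ∃ (c ν : ℕ) (Cs : List ℕ) (j : ℕ),
      Bad E t M σ G (hardR (kR M) t c ν Cs j) A := by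
  set N : Set Oracle := {A | ¬ ∃ (c ν : ℕ) (Cs : List ℕ) (j : ℕ),
      Bad E t M σ G (hardR (kR M) t c ν Cs j) A} with hN
  have h1 : ∀ ε : ℝ, 0 < ε → prob N ≤ ε := by
    intro ε hε
    obtain ⟨c, ν, Cs, h⟩ := oneR E ht M σ G hε
    refine le_trans (measureReal_mono ?_ (measure_ne_top _ _)) h
    intro A hA j _ hbad
    exact hA ⟨c, ν, Cs, j, hbad⟩
  have h2 : prob N ≤ 0 := le_of_forall_pos_le_add fun ε hε => by
    rw [zero_add]
    exact h1 ε hε
  have h3 : prob N = 0 := le_antisymm h2 measureReal_nonneg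
  have h4 : randomOracle N = 0 := by
    have h5 := (measureReal_eq_zero_iff (measure_ne_top randomOracle N)).1 h3
    exact h5
  exact h4

theorem random (E : Oracle) : ∀ᵐ A ∂randomOracle, ∀ (t : ℕ) (j : Alg × List Bool × ℕ), 1 ≤ t →
    ∃ (c ν : ℕ) (Cs : List ℕ) (i : ℕ),
      Bad E t j.1 j.2.1 j.2.2 (hardR (kR j.1) t c ν Cs i) A := by
  have hc2 : Countable Alg := Alg.countable
  rw [ae_all_iff]
  intro t
  rw [ae_all_iff]
  intro j
  by_cases ht : 1 ≤ t
  · filter_upwards [ae_bad E ht j.1 j.2.1 j.2.2] with A hA _ using hA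
  · exact Filter.Eventually.of_forall fun A h => absurd h ht

theorem main (E : Oracle) : ∀ᵐ A ∂randomOracle, ∀ t : ℕ, 1 ≤ t →
    (∀ (α : Type) [TEnc α] (κ : α → ℕ) (P : α → Prop), InW t (join A E) κ P →
      InW (t + 1) (join A E) κ P ∧ InA t (join A E) κ P) ∧
    InW (t + 1) (join A E) (fun I : WInst (t + 1) => I.1.param)
      (fun I => I.1.Sat (join A E)) ∧
    ¬ InA t (join A E) (fun I : WInst (t + 1) => I.1.param)
      (fun I => I.1.Sat (join A E)) := by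
  filter_upwards [random E] with A hA t ht
  refine ⟨fun α _ κ P h => ⟨inW_mono h, inW_inA h⟩, mc_inW _ _, ?_⟩
  rintro ⟨π, g, R, M, h⟩
  obtain ⟨c, ν, Cs, i, hbad⟩ := hA t (M, π (5 * (kR M + t) + 1), g (5 * (kR M + t) + 1)) ht
  have h1 := h ⟨hardR (kR M) t c ν Cs i, hardR_isW _ _ _ _ _ _⟩
  have e : (hardR (kR M) t c ν Cs i).param = 5 * (kR M + t) + 1 := hardR_param _ _ _ _ _ _
  refine hbad ⟨R ⟨hardR (kR M) t c ν Cs i, hardR_isW _ _ _ _ _ _⟩, ?_, h1.2.1, ?_, h1.2.2.2⟩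
  · have h2 := h1.1
    dsimp only at h2
    rw [e] at h2
    exact h2
  · have h2 := h1.2.2.1
    dsimp only at h2
    rw [e] at h2
    exact h2

end Pool.Agent.Y626.WR
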