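import Pool.Agent.Y626.WR.Meas
import Pool.Agent.H620R2.Gauge.A1

/-!
# The questions of a run, and exposing blocks of a random oracle
-/

set_option autoImplicit false

namespace Pool.Agent.Y626.WR

open MeasureTheory Pool.Agent.NPC Pool.Agent.H620R2.Gauge
open Pool.Agent.H628R3.RO (randomOracle prob Loc measurableSet_of_loc prob_inter_of_disjoint)

/-- the questions asked in a run -/
def qsr (M : Alg) (A : Oracle) (x : List Bool) : ℕ → List Bool → Finset (List Bool)
  | 0, _ => ∅
  | n + 1, a =>
    match M.D (pairBits x a) with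
    | [] => ∅
    | true :: _ => ∅
    | false :: q => insert q (qsr M A x n (a ++ [A q]))

/-- the questions asked by the algorithm with oracle `A` on input `x` -/
def qs (M : Alg) (A : Oracle) (x : List Bool) : Finset (List Bool) :=
  qsr M A x (M.p.eval x.length) []

theorem qsr_card (M : Alg) (A : Oracle) (x : List Bool) : ∀ (n : ℕ) (a : List Bool),
    (qsr M A x n a).card ≤ n
  | 0, a => by simp [qsr]
  | n + 1, a => by
    rcases hq : M.D (pairBits x a) with _ | ⟨c, q⟩
    · simp [qsr, hq]
    · cases c with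
      | true => simp [qsr, hq]
      | false =>
        simp only [qsr, hq]
        exact (Finset.card_insert_le _ _).trans (Nat.succ_le_succ (qsr_card M A x n _))

theorem qs_card (M : Alg) (A : Oracle) (x : List Bool) : (qs M A x).card ≤ M.p.eval x.length :=
  qsr_card M A x _ _

theorem qsr_congr (M : Alg) (A A' : Oracle) (x : List Bool) : ∀ (n : ℕ) (a : List Bool),
    (∀ q ∈ qsr M A x n a, A' q = A q) →
      qsr M A' x n a = qsr M A x n a ∧ M.run A' x n a = M.run A x n a
  | 0, a, _ => ⟨rfl, rfl⟩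
  | n + 1, a, h => by
    rcases hq : M.D (pairBits x a) with _ | ⟨c, q⟩
    · simp [qsr, Alg.run, hq]
    · cases c with
      | true => simp [qsr, Alg.run, hq]
      | false =>
        simp only [qsr, hq] at h
        have h1 := h q (Finset.mem_insert_self _ _)
        have h2 := qsr_congr M A A' x n (a ++ [A q]) fun r hr =>
          h r (Finset.mem_insert_of_mem hr)
        simp only [qsr, Alg.run, hq, h1, h2.1, h2.2, and_self]

theorem qs_congr {M : Alg} {A A' : Oracle} {x : List Bool} (h : ∀ q ∈ qs M A x, A' q = A q) :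
    qs M A' x = qs M A x ∧ M.out A' x = M.out A x :=
  qsr_congr M A A' x _ _ h

theorem qs_length (M : Alg) : ∃ b : Polynomial ℕ, ∀ (A : Oracle) (x : List Bool),
    ∀ q ∈ qs M A x, q.length ≤ b.eval x.length := by
  obtain ⟨b, hb⟩ := M.next_length
  refine ⟨b, fun A x => ?_⟩
  have key : ∀ (n : ℕ) (a : List Bool), a.length + n ≤ M.p.eval x.length →
      ∀ q ∈ qsr M A x n a, q.length ≤ b.eval x.length := by
    intro n
    induction n with
    | zero =>
      intro a _ q hq
      simp [qsr] at hq
    | succ n ih =>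
      intro a ha r hr
      have hD := hb x a (by omega)
      rcases hq : M.D (pairBits x a) with _ | ⟨c, q⟩
      · simp [qsr, hq] at hr
      · cases c with
        | true => simp [qsr, hq] at hr
        | false =>
          simp only [qsr, hq] at hr
          rcases Finset.mem_insert.1 hr with rfl | hr
          · rw [hq, List.length_cons] at hD
            omega
          · exact ih (a ++ [A q]) (by
              rw [List.length_append, List.length_singleton]; omega) r hr
  exact key _ [] (by simp)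

section expo

variable {β : Type} [DecidableEq β] {Bs : Finset β} {Blk : β → Finset (List Bool)}
  {vlb : β → Oracle → Bool} {T : Oracle → Finset β} {pad : Finset β → Finset β}
  {K0 : Finset (List Bool)}

theorem expo_aux (hT1 : ∀ A A' : Oracle, (∀ v, (∀ b ∈ Bs, b ∉ T A → v ∉ Blk b) → A v = A' v) →
      T A' = T A) (hpad : ∀ A, T A ⊆ pad (T A)) {b : β} (hb : b ∈ Bs)
    (A A' : Oracle) (h : ∀ v, v ∉ Blk b → A v = A' v) : b ∈ pad (T A) ↔ b ∈ pad (T A') := by
  by_cases h1 : b ∈ T A
  · have h2 : b ∈ T A' := by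
      by_contra hcon
      have h3 := hT1 A' A fun v hv => (h v (hv b hb hcon)).symm
      rw [h3] at h1
      exact hcon h1
    exact ⟨fun _ => hpad A' h2, fun _ => hpad A h1⟩
  · have h3 := hT1 A A' fun v hv => h v (hv b hb h1)
    rw [h3]

/-- the probability that a touched block has the value `true` -/
theorem prob_expo {N : ℕ} {p : ℝ} (hp0 : 0 ≤ p) (hK : ∀ T0, Loc (K0 : Set (List Bool)) {A | T A = T0})
    (hT1 : ∀ A A' : Oracle, (∀ v, (∀ b ∈ Bs, b ∉ T A → v ∉ Blk b) → A v = A' v) → T A' = T A)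
    (hpad : ∀ A, T A ⊆ pad (T A)) (hpad2 : ∀ A, pad (T A) ⊆ Bs)
    (hN : ∀ A, (pad (T A)).card ≤ N)
    (hval : ∀ b ∈ Bs, Loc (Blk b : Set (List Bool)) {A | vlb b A = true})
    (hp : ∀ b ∈ Bs, prob {A | vlb b A = true} = p) :
    prob {A | ∃ b ∈ pad (T A), vlb b A = true} ≤ N * p := by
  classical
  have hD : ∀ b ∈ Bs, Loc ((K0 \ Blk b : Finset (List Bool)) : Set (List Bool))
      {A | b ∈ pad (T A)} := by
    intro b hb A A' h
    set A'' : Oracle := fun v => if v ∈ Blk b then A v else A' v with hA''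
    have h1 : T A'' = T A := by
      refine (hK (T A) A'' A fun v hv => ?_).2 rfl
      by_cases h2 : v ∈ Blk b
      · rw [hA'']; simp [h2]
      · rw [hA'']
        simp only [h2, if_false]
        exact (h v (Finset.mem_coe.2 (Finset.mem_sdiff.2 ⟨Finset.mem_coe.1 hv, h2⟩))).symm
    have h2 := expo_aux hT1 hpad hb A'' A' fun v hv => by rw [hA'']; simp [hv]
    show b ∈ pad (T A) ↔ b ∈ pad (T A')
    rw [← h1]
    exact h2
  have hDm : ∀ b ∈ Bs, MeasurableSet {A | b ∈ pad (T A)} := fun b hb =>
    measurableSet_of_loc (Finset.finite_toSet _) (hD b hb)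
  have h1 : prob {A | ∃ b ∈ pad (T A), vlb b A = true} ≤
      ∑ b ∈ Bs, prob ({A | b ∈ pad (T A)} ∩ {A | vlb b A = true}) := by
    have hsub : {A | ∃ b ∈ pad (T A), vlb b A = true} ⊆
        ⋃ b ∈ Bs, ({A | b ∈ pad (T A)} ∩ {A | vlb b A = true}) := by
      rintro A ⟨b, hb, hv⟩
      exact Set.mem_biUnion (hpad2 A hb) ⟨hb, hv⟩
    exact (measureReal_mono hsub (measure_ne_top _ _)).trans (measureReal_biUnion_finset_le _ _)
  have h2 : ∀ b ∈ Bs, prob ({A | b ∈ pad (T A)} ∩ {A | vlb b A = true}) =
      prob {A | b ∈ pad (T A)} * p := by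
    intro b hb
    rw [prob_inter_of_disjoint (Finset.finite_toSet _) (Finset.finite_toSet _) ?_ (hD b hb)
      (hval b hb), hp b hb]
    rw [Finset.disjoint_coe]
    exact Finset.sdiff_disjoint
  have h3 : ∑ b ∈ Bs, prob {A | b ∈ pad (T A)} ≤ N := by
    have e1 : ∀ b ∈ Bs, prob {A | b ∈ pad (T A)} =
        ∫ A, Set.indicator {A | b ∈ pad (T A)} (fun _ : Oracle => (1 : ℝ)) A ∂randomOracle := by
      intro b hb
      exact (integral_indicator_one (μ := randomOracle) (hDm b hb)).symm
    rw [Finset.sum_congr rfl e1, ← integral_finsetSum _ fun b hb =>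
      (integrable_const (1 : ℝ)).indicator (hDm b hb)]
    have e2 : ∫ _ : Oracle, (N : ℝ) ∂randomOracle = N := by
      rw [integral_const, probReal_univ, one_smul]
    rw [← e2]
    refine integral_mono (integrable_finsetSum _ fun b hb =>
      (integrable_const (1 : ℝ)).indicator (hDm b hb)) (integrable_const _) fun A => ?_
    show ∑ b ∈ Bs, Set.indicator {A | b ∈ pad (T A)} (fun _ : Oracle => (1 : ℝ)) A ≤ (N : ℝ)
    have e3 : ∑ b ∈ Bs, Set.indicator {A | b ∈ pad (T A)} (fun _ : Oracle => (1 : ℝ)) A =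
        ((Bs.filter fun b => b ∈ pad (T A)).card : ℝ) := by
      rw [Finset.card_filter]
      push_cast
      refine Finset.sum_congr rfl fun b _ => ?_
      rw [Set.indicator_apply]
      rfl
    rw [e3]
    exact_mod_cast (Finset.card_le_card (fun b hb => (Finset.mem_filter.1 hb).2)).trans (hN A)
  calc prob {A | ∃ b ∈ pad (T A), vlb b A = true}
      ≤ ∑ b ∈ Bs, prob {A | b ∈ pad (T A)} * p := h1.trans (Finset.sum_le_sum fun b hb =>
        (h2 b hb).le)
    _ = (∑ b ∈ Bs, prob {A | b ∈ pad (T A)}) * p := by rw [Finset.sum_mul]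
    _ ≤ N * p := mul_le_mul_of_nonneg_right h3 hp0

omit [DecidableEq β] in
/-- conditioning on the touched blocks -/
theorem prob_cond {𝒯 : Finset (Finset β)} (hK : ∀ T0, Loc (K0 : Set (List Bool)) {A | T A = T0})
    (hT : ∀ A, T A ∈ 𝒯) {S : Set Oracle} {c : ℝ}
    (h : ∀ T0 ∈ 𝒯, prob (S ∩ {A | T A = T0}) ≤ c * prob {A | T A = T0}) : prob S ≤ c := by
  classical
  have hm : ∀ T0, MeasurableSet {A | T A = T0} := fun T0 =>
    measurableSet_of_loc (Finset.finite_toSet _) (hK T0)
  have h1 : prob S ≤ ∑ T0 ∈ 𝒯, prob (S ∩ {A | T A = T0}) := by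
    have hsub : S ⊆ ⋃ T0 ∈ 𝒯, (S ∩ {A | T A = T0}) := by
      intro A hA
      exact Set.mem_biUnion (hT A) ⟨hA, rfl⟩
    exact (measureReal_mono hsub (measure_ne_top _ _)).trans (measureReal_biUnion_finset_le _ _)
  have h2 : ∑ T0 ∈ 𝒯, prob {A | T A = T0} = 1 := by
    unfold prob
    rw [← measureReal_biUnion_finset]
    · have : (⋃ T0 ∈ 𝒯, {A | T A = T0}) = Set.univ := by
        ext A
        simp only [Set.mem_iUnion, Set.mem_univ, iff_true]
        exact ⟨T A, hT A, rfl⟩
      rw [this]
      exact probReal_univ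
    · intro T0 _ T1 _ hne
      rw [Function.onFun, Set.disjoint_left]
      intro A hA hA'
      exact hne (hA.symm.trans hA')
    · intro T0 _
      exact hm T0
  calc prob S ≤ ∑ T0 ∈ 𝒯, c * prob {A | T A = T0} := h1.trans (Finset.sum_le_sum h)
    _ = c := by rw [← Finset.mul_sum, h2, mul_one]

end expo

end Pool.Agent.Y626.WR
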