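import Pool.Agent.Y626.WR.HardR
import Pool.Agent.Y626.WR.Expo
import Pool.Agent.Y626.WG.Final

/-!
# The blocks of the oracle, the touched blocks
-/

set_option autoImplicit false

namespace Pool.Agent.Y626.WR

open MeasureTheory Pool.Agent.NPC Pool.Agent.H620R2.Gauge Pool.Agent.TH678.GC
  Pool.Agent.H591R3.PHG Pool.Agent.Y626.WG
open Pool.Agent.H628R3.RO (randomOracle prob Loc measurableSet_of_loc prob_inter_of_disjoint)

/-- the blocks -/
def BsR (K : ℕ) (tops : List ℕ) : Finset (ℕ × List ℕ) := Finset.range K ×ˢ tupSet tops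

/-- the positions of the bits of a block -/
def BlkR (c ν : ℕ) (inner : List ℕ) (b : ℕ × List ℕ) : Finset (List Bool) :=
  (tupSet inner).image fun y => ps c ν b.1 (b.2 ++ y)

/-- the questions in the runs on the inputs `inp 0`, ..., `inp (K - 1)` -/
def QR (M : Alg) (E : Oracle) (inp : ℕ → List Bool) (K : ℕ) (A : Oracle) : Finset (List Bool) :=
  (Finset.range K).biUnion fun j => qs M (join A E) (inp j)

/-- the touched blocks -/
def TR (M : Alg) (E : Oracle) (inp : ℕ → List Bool) (c ν K : ℕ) (tops inner : List ℕ)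
    (A : Oracle) : Finset (ℕ × List ℕ) :=
  (BsR K tops).filter fun b => ∃ v ∈ BlkR c ν inner b, false :: v ∈ QR M E inp K A

theorem mem_BsR {K : ℕ} {tops : List ℕ} {b : ℕ × List ℕ} :
    b ∈ BsR K tops ↔ b.1 < K ∧ List.Forall₂ (· < ·) b.2 tops := by
  unfold BsR
  rw [Finset.mem_product, Finset.mem_range, mem_tupSet]

theorem mem_BlkR {c ν : ℕ} {inner : List ℕ} {b : ℕ × List ℕ} {v : List Bool} :
    v ∈ BlkR c ν inner b ↔ ∃ y, List.Forall₂ (· < ·) y inner ∧ ps c ν b.1 (b.2 ++ y) = v := by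
  unfold BlkR
  rw [Finset.mem_image]
  constructor
  · rintro ⟨y, h1, h2⟩
    exact ⟨y, (mem_tupSet _ _).1 h1, h2⟩
  · rintro ⟨y, h1, h2⟩
    exact ⟨y, (mem_tupSet _ _).2 h1, h2⟩

/-- different tuples have different positions -/
theorem ps_inj' {c ν : ℕ} {tops inner : List ℕ} (h1 : 1 ≤ tops.length)
    (hN : ∀ C ∈ tops ++ inner, C ≤ 2 ^ ν) {j j' : ℕ} {x x' y y' : List ℕ} (hj : j < 2 ^ c)
    (hj' : j' < 2 ^ c) (hx : List.Forall₂ (· < ·) x tops) (hx' : List.Forall₂ (· < ·) x' tops)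
    (hy : List.Forall₂ (· < ·) y inner) (hy' : List.Forall₂ (· < ·) y' inner)
    (h : ps c ν j (x ++ y) = ps c ν j' (x' ++ y')) : j = j' ∧ x = x' ∧ y = y' := by
  have hT : Tup (2 ^ ν) tops.length x :=
    Tup_of_forall₂ hx fun C hC => hN C (List.mem_append_left _ hC)
  have hT' : Tup (2 ^ ν) tops.length x' :=
    Tup_of_forall₂ hx' fun C hC => hN C (List.mem_append_left _ hC)
  have hU : Tup (2 ^ ν) inner.length y :=
    Tup_of_forall₂ hy fun C hC => hN C (List.mem_append_right _ hC)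
  have hU' : Tup (2 ^ ν) inner.length y' :=
    Tup_of_forall₂ hy' fun C hC => hN C (List.mem_append_right _ hC)
  obtain ⟨h2, h3⟩ := ps_inj (r := tops.length + inner.length) (by omega) (hT.append hU)
    (hT'.append hU') hj hj' h
  obtain ⟨h4, h5⟩ := List.append_inj h3 (hT.1.trans hT'.1.symm)
  exact ⟨h2, h4, h5⟩

theorem blk_disj {c ν K : ℕ} {tops inner : List ℕ} (h1 : 1 ≤ tops.length)
    (hN : ∀ C ∈ tops ++ inner, C ≤ 2 ^ ν) (hK : K ≤ 2 ^ c) {b b' : ℕ × List ℕ}
    (hb : b ∈ BsR K tops) (hb' : b' ∈ BsR K tops) {v : List Bool} (hv : v ∈ BlkR c ν inner b)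
    (hv' : v ∈ BlkR c ν inner b') : b = b' := by
  rw [mem_BsR] at hb hb'
  obtain ⟨y, hy, rfl⟩ := mem_BlkR.1 hv
  obtain ⟨y', hy', h⟩ := mem_BlkR.1 hv'
  obtain ⟨h2, h3, _⟩ := ps_inj' h1 hN (lt_of_lt_of_le hb'.1 hK) (lt_of_lt_of_le hb.1 hK) hb'.2 hb.2
    hy' hy h
  exact Prod.ext h2.symm h3.symm

section touched

variable {M : Alg} {E : Oracle} {inp : ℕ → List Bool} {c ν K : ℕ} {tops inner : List ℕ}

theorem TR_sub (A : Oracle) : TR M E inp c ν K tops inner A ⊆ BsR K tops :=
  Finset.filter_subset _ _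

theorem QR_card {P : ℕ} (hP : ∀ j < K, M.p.eval (inp j).length ≤ P) (A : Oracle) :
    (QR M E inp K A).card ≤ K * P := by
  unfold QR
  refine Finset.card_biUnion_le.trans ?_
  refine (Finset.sum_le_sum fun j hj => (qs_card _ _ _).trans
    (hP j (Finset.mem_range.1 hj))).trans ?_
  rw [Finset.sum_const, Finset.card_range, smul_eq_mul]

theorem TR_card (h1 : 1 ≤ tops.length) (hN : ∀ C ∈ tops ++ inner, C ≤ 2 ^ ν) (hK : K ≤ 2 ^ c)
    (A : Oracle) : (TR M E inp c ν K tops inner A).card ≤ (QR M E inp K A).card := by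
  classical
  have h0 : ∀ b ∈ TR M E inp c ν K tops inner A, ∃ q ∈ QR M E inp K A, ∃ v ∈ BlkR c ν inner b,
      q = false :: v := by
    intro b hb
    obtain ⟨_, v, hv, h2⟩ := Finset.mem_filter.1 hb
    exact ⟨_, h2, v, hv, rfl⟩
  choose! g hg using h0
  refine Finset.card_le_card_of_injOn g (fun b hb => (hg b hb).1) ?_
  intro b hb b' hb' he
  obtain ⟨_, v, hv, e⟩ := hg b hb
  obtain ⟨_, v', hv', e'⟩ := hg b' hb'
  have h2 : v = v' := by
    have := e.symm.trans (he.trans e')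
    exact (List.cons.inj this).2
  subst h2
  exact blk_disj h1 hN hK (TR_sub A hb) (TR_sub A hb') hv hv'

theorem QR_congr {A A' : Oracle} (h : ∀ v, (∀ b ∈ BsR K tops,
      b ∉ TR M E inp c ν K tops inner A → v ∉ BlkR c ν inner b) → A v = A' v) :
    (∀ j < K, qs M (join A' E) (inp j) = qs M (join A E) (inp j) ∧
      M.out (join A' E) (inp j) = M.out (join A E) (inp j)) ∧
    QR M E inp K A' = QR M E inp K A ∧
    TR M E inp c ν K tops inner A' = TR M E inp c ν K tops inner A := by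
  have key : ∀ q ∈ QR M E inp K A, join A' E q = join A E q := by
    intro q hq
    rcases q with _ | ⟨b, v⟩
    · rfl
    cases b with
    | true => rfl
    | false =>
      show A' v = A v
      refine (h v fun b hb hbT hv => hbT ?_).symm
      exact Finset.mem_filter.2 ⟨hb, v, hv, hq⟩
  have h1 : ∀ j < K, qs M (join A' E) (inp j) = qs M (join A E) (inp j) ∧
      M.out (join A' E) (inp j) = M.out (join A E) (inp j) := fun j hj =>
    qs_congr fun q hq => key q (Finset.mem_biUnion.2 ⟨j, Finset.mem_range.2 hj, hq⟩)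
  have h2 : QR M E inp K A' = QR M E inp K A := by
    unfold QR
    exact Finset.biUnion_congr rfl fun j hj => (h1 j (Finset.mem_range.1 hj)).1
  refine ⟨h1, h2, ?_⟩
  unfold TR
  rw [h2]

theorem TR_loc {W : Finset (List Bool)} (hW : ∀ (A : Oracle), ∀ j < K,
      ∀ q ∈ qs M (join A E) (inp j), ∀ v, q = false :: v → v ∈ W) (T0 : Finset (ℕ × List ℕ)) :
    Loc (W : Set (List Bool)) {A | TR M E inp c ν K tops inner A = T0} := by
  intro A A' h
  have key : TR M E inp c ν K tops inner A' = TR M E inp c ν K tops inner A := by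
    have h1 : ∀ j < K, qs M (join A' E) (inp j) = qs M (join A E) (inp j) := by
      intro j hj
      refine (qs_congr fun q hq => ?_).1
      rcases q with _ | ⟨b, v⟩
      · rfl
      cases b with
      | true => rfl
      | false => exact (h v (Finset.mem_coe.2 (hW A j hj _ hq v rfl))).symm
    have h2 : QR M E inp K A' = QR M E inp K A := by
      unfold QR
      exact Finset.biUnion_congr rfl fun j hj => h1 j (Finset.mem_range.1 hj)
    unfold TR
    rw [h2]
  show _ = T0 ↔ _ = T0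
  rw [key]

end touched

/-- every root gets the same number of touched blocks -/
theorem exists_pad {K q : ℕ} {tops : List ℕ} (hq : q ≤ (tupSet tops).card)
    (T0 : Finset (ℕ × List ℕ)) (hT : T0 ⊆ BsR K tops) (hc : T0.card ≤ q) :
    ∃ U : Finset (ℕ × List ℕ), T0 ⊆ U ∧ U ⊆ BsR K tops ∧
      (∀ j < K, ((tupSet tops).filter fun x => (j, x) ∉ U).card = (tupSet tops).card - q) ∧
      U.card ≤ K * q := by
  classical
  have h0 : ∀ j, ∃ S : Finset (List ℕ), ((tupSet tops).filter fun x => (j, x) ∈ T0) ⊆ S ∧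
      S ⊆ tupSet tops ∧ S.card = q := by
    intro j
    have h1 : ((tupSet tops).filter fun x => (j, x) ∈ T0).card ≤ q := by
      refine le_trans ?_ hc
      refine Finset.card_le_card_of_injOn (fun x => (j, x)) ?_ ?_
      · intro x hx
        exact (Finset.mem_filter.1 hx).2
      · intro x _ x' _ h
        exact (Prod.mk.inj h).2
    exact Finset.exists_subsuperset_card_eq (Finset.filter_subset _ _) h1 hq
  choose S hS1 hS2 hS3 using h0
  refine ⟨(Finset.range K).biUnion fun j => (S j).image fun x => (j, x), ?_, ?_, ?_, ?_⟩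
  · rintro ⟨j, x⟩ hb
    have h1 := mem_BsR.1 (hT hb)
    refine Finset.mem_biUnion.2 ⟨j, Finset.mem_range.2 h1.1, Finset.mem_image.2 ⟨x, ?_, rfl⟩⟩
    exact hS1 j (Finset.mem_filter.2 ⟨(mem_tupSet _ _).2 h1.2, hb⟩)
  · intro b hb
    obtain ⟨j, hj, hb⟩ := Finset.mem_biUnion.1 hb
    obtain ⟨x, hx, rfl⟩ := Finset.mem_image.1 hb
    exact mem_BsR.2 ⟨Finset.mem_range.1 hj, (mem_tupSet _ _).1 (hS2 j hx)⟩
  · intro j hj
    have e : ((tupSet tops).filter fun x => (j, x) ∉
        (Finset.range K).biUnion fun j => (S j).image fun x => (j, x)) = tupSet tops \ S j := by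
      ext x
      rw [Finset.mem_filter, Finset.mem_sdiff]
      refine and_congr_right fun _ => not_congr ?_
      rw [Finset.mem_biUnion]
      constructor
      · rintro ⟨j', _, h⟩
        obtain ⟨x', hx', he⟩ := Finset.mem_image.1 h
        obtain ⟨e1, e2⟩ := Prod.mk.inj he
        subst e1 e2
        exact hx'
      · intro h
        exact ⟨j, Finset.mem_range.2 hj, Finset.mem_image.2 ⟨x, h, rfl⟩⟩
    rw [e, Finset.card_sdiff_of_subset (hS2 j), hS3]
  · refine Finset.card_biUnion_le.trans ?_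
    refine (Finset.sum_le_sum fun j _ => Finset.card_image_le).trans ?_
    simp only [hS3]
    rw [Finset.sum_const, Finset.card_range, smul_eq_mul]

theorem exists_enum {R : Finset (List ℕ)} {n : ℕ} (h : R.card = n) :
    ∃ e : ℕ → List ℕ, (∀ i < n, e i ∈ R) ∧ (∀ i < n, ∀ i' < n, e i = e i' → i = i') ∧
      ∀ x ∈ R, ∃ i < n, e i = x := by
  set f := Finset.equivFinOfCardEq h with hf
  refine ⟨fun i => if hi : i < n then (f.symm ⟨i, hi⟩).1 else [], ?_, ?_, ?_⟩
  · intro i hi
    simp only [dif_pos hi]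
    exact (f.symm ⟨i, hi⟩).2
  · intro i hi i' hi' h1
    simp only [dif_pos hi, dif_pos hi'] at h1
    have h2 := f.symm.injective (Subtype.ext h1)
    simpa using h2
  · intro x hx
    refine ⟨(f ⟨x, hx⟩).val, (f ⟨x, hx⟩).2, ?_⟩
    simp

/-- the position of the leaf with given coordinates -/
def posF {K : ℕ} (c ν : ℕ) (e : ℕ → ℕ → List ℕ) (j : Fin K) (l : List ℕ) : List Bool :=
  ps c ν j.val (e j.val (l.headD 0) ++ l.tail)

/-- the position of the leaf -/
def posI {K : ℕ} (c ν : ℕ) (e : ℕ → ℕ → List ℕ) (cs : List ℕ) (g : Idx (Fin K) cs) :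
    List Bool := posF c ν e (coords cs g).1 (coords cs g).2

theorem rev_cs (w a : ℕ) (as : List ℕ) :
    (w :: pw (as ++ [a])).reverse = 2 ^ a :: (w :: pw as).reverse := by
  have : pw (as ++ [a]) = pw as ++ [2 ^ a] := by
    unfold pw
    rw [List.map_append]
    rfl
  rw [this]
  simp

theorem posI_inj {K c ν w a : ℕ} {as tops inner : List ℕ} {e : ℕ → ℕ → List ℕ}
    (hK : K ≤ 2 ^ c) (h1 : 1 ≤ tops.length) (hi : inner = (w :: pw as).reverse)
    (hN : ∀ C ∈ tops ++ inner, C ≤ 2 ^ ν)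
    (he : ∀ j < K, ∀ i < 2 ^ a, List.Forall₂ (· < ·) (e j i) tops)
    (he2 : ∀ j < K, ∀ i < 2 ^ a, ∀ i' < 2 ^ a, e j i = e j i' → i = i') :
    Function.Injective (posI (K := K) c ν e (w :: pw (as ++ [a]))) := by
  intro g g' h
  have h2 := coords_lt (w :: pw (as ++ [a])) g
  have h3 := coords_lt (w :: pw (as ++ [a])) g'
  rw [rev_cs, ← hi] at h2 h3
  unfold posI posF at h
  refine coords_inj _ g g' ?_
  rcases hc : coords (w :: pw (as ++ [a])) g with ⟨j, l⟩
  rcases hc' : coords (w :: pw (as ++ [a])) g' with ⟨j', l'⟩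
  rw [hc, hc'] at h
  rw [hc] at h2
  rw [hc'] at h3
  dsimp only at h h2 h3
  rcases l with _ | ⟨i, y⟩
  · cases h2
  rcases l' with _ | ⟨i', y'⟩
  · cases h3
  rw [List.forall₂_cons] at h2 h3
  simp only [List.headD_cons, List.tail_cons] at h
  obtain ⟨h4, h5, h6⟩ := ps_inj' h1 hN (lt_of_lt_of_le j.2 hK) (lt_of_lt_of_le j'.2 hK)
    (he j.val j.2 i h2.1) (he j'.val j'.2 i' h3.1) h2.2 h3.2 h
  have h7 : j = j' := Fin.ext h4
  subst h7
  have h8 := he2 j.val j.2 i h2.1 i' h3.1 h5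
  rw [h8, h6]

/-- the positions of the leaves are in untouched blocks -/
theorem posI_mem {K c ν w a : ℕ} {as inner : List ℕ} {e : ℕ → ℕ → List ℕ}
    (hi : inner = (w :: pw as).reverse) (g : Idx (Fin K) (w :: pw (as ++ [a]))) :
    ∃ j < K, ∃ i < 2 ^ a, posI c ν e (w :: pw (as ++ [a])) g ∈ BlkR c ν inner (j, e j i) := by
  have h2 := coords_lt (w :: pw (as ++ [a])) g
  rw [rev_cs, ← hi] at h2
  unfold posI posF
  rcases hc : coords (w :: pw (as ++ [a])) g with ⟨j, l⟩
  rw [hc] at h2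
  dsimp only at h2 ⊢
  rcases l with _ | ⟨i, y⟩
  · cases h2
  rw [List.forall₂_cons] at h2
  exact ⟨j.val, j.2, i, h2.1, mem_BlkR.2 ⟨y, h2.2, rfl⟩⟩

/-- the value of the root in terms of the values of the blocks -/
theorem Tr_posI {K c ν w a : ℕ} {as inner : List ℕ} {e : ℕ → ℕ → List ℕ}
    (hi : inner = (w :: pw as).reverse) (A : Oracle) (j : Fin K) :
    (Tr (w :: pw (as ++ [a])) (fun g => A (posI c ν e (w :: pw (as ++ [a])) g)) j = false ↔
      ∃ i < 2 ^ a, vl c ν inner (j.val, e j.val i) A = true) := by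
  have h1 := Tr_coords (w :: pw (as ++ [a])) (fun (j : Fin K) l => A (posF c ν e j l)) j
  have h2 : Tr (w :: pw (as ++ [a])) (fun g => A (posI c ν e (w :: pw (as ++ [a])) g)) j =
      treeL (w :: pw (as ++ [a])).reverse (fun l => A (posF c ν e j l)) := h1
  rw [h2, rev_cs, ← hi]
  show decide (∀ i < 2 ^ a, treeL inner (fun y => A (posF c ν e j (i :: y))) = false) = false ↔ _
  rw [decide_eq_false_iff_not]
  push Not
  refine exists_congr fun i => and_congr_right fun _ => ?_
  have h3 : treeL inner (fun y => A (posF c ν e j (i :: y))) = vl c ν inner (j.val, e j.val i) A :=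
    rfl
  rw [h3]
  simp

/-- the value of a block depends on its bits -/
theorem vl_loc (c ν : ℕ) (inner : List ℕ) (b : ℕ × List ℕ) (v : Bool) :
    Loc (BlkR c ν inner b : Set (List Bool)) {A | vl c ν inner b A = v} :=
  loc_treeL inner (fun y => ps c ν b.1 (b.2 ++ y)) v

/-- the probability that the value of a block is `true` -/
theorem vl_prob {c ν K : ℕ} {tops inner cs : List ℕ} (h1 : 1 ≤ tops.length)
    (hN : ∀ C ∈ tops ++ inner, C ≤ 2 ^ ν) (hK : K ≤ 2 ^ c) (hi : inner = cs.reverse)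
    {b : ℕ × List ℕ} (hb : b ∈ BsR K tops) :
    prob {A | vl c ν inner b A = true} = prT (1 / 2) cs := by
  rw [mem_BsR] at hb
  have h2 := prob_treeL inner (fun y => ps c ν b.1 (b.2 ++ y)) fun y y' hy hy' h =>
    (ps_inj' h1 hN (lt_of_lt_of_le hb.1 hK) (lt_of_lt_of_le hb.1 hK) hb.2 hb.2 hy hy' h).2.2
  rw [← prL_reverse, ← hi]
  exact h2

end Pool.Agent.Y626.WR
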