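import Pool.Agent.Y626.WR.CoreR

/-!
# The hard formulas
-/

set_option autoImplicit false

namespace Pool.Agent.Y626.WR

open Finset H568R2 Pool.Agent.H676 Pool.Agent.H620R2.Gauge Pool.Agent.NPC Pool.Agent.H591R3.PHG

theorem coreR_aux {n u r₀ w k : ℕ} (hn : 5 ≤ n) (hu : 8 * u ≤ n) (hw : 8 * n ≤ w) (hr : 1 ≤ r₀)
    (hr0 : 16 * r₀ * 2 ^ r₀ ≤ 2 ^ n) (cs : List ℕ) (hcs : cs.length = k + 1)
    (hX : ∀ (X : Type) [Fintype X] [DecidableEq X] (D g : ℕ), 16 * D ≤ 2 ^ (4 * n) →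
        4 * g ≤ Fintype.card X →
        Ex (nxt (1 / 2) (1 / 2 ^ (4 * n)) (1 / 2 ^ (2 * n)) w w law0)
          (Wt (X := X) (1 / 2 ^ (4 * n)) (1 / 2 ^ (2 * n)) (8 * n * 2 ^ (4 * n)) (1 / 256) D g
          cs) ≤ (9 / 10) ^ Fintype.card X) (X : Type) [Fintype X] [DecidableEq X]
    (hXc : Fintype.card X = 2 ^ (u + 11))
    (m ℓ : ℕ) (F : List Bool → (Idx X (w :: cs) → Bool) → Bool)
    (hF : ∀ y : List Bool, y.length ≤ ℓ + (k + 1) * (2 * m + 1) → DTr r₀ (F y))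
    (y : X → List Bool) (hy : ∀ j, (y j).length ≤ ℓ) :
    Ms (1 / 2) (w :: cs) (fun _ => none) (fun j => QF m F (k + 1) true (y j)) ≤
      ((k + 1 : ℕ) : ℝ) * (2 ^ (ℓ + (k + 1) * (2 * m + 1) + 2) * (1 / 2) ^ (2 ^ (2 * u) + 1)) +
        3 * (1 / 2) ^ (2 ^ u) := by
  have h1 := first_level (X := X) (n := n) (u := u) (D := 2 ^ (3 * u + 11))
    (g := 2 ^ (u + 9)) hn hu hw hr hr0 (by
      rw [hXc, ← pow_add]
      exact Nat.pow_le_pow_right (by norm_num) (by omega)) k cs hcs m ℓ F hF y hy true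
  have h4 := hX X (2 ^ (3 * u + 11)) (2 ^ (u + 9)) (by
      have e : (16 : ℕ) = 2 ^ 4 := by norm_num
      rw [e, ← pow_add]
      exact Nat.pow_le_pow_right (by norm_num) (by omega)) (by
      rw [hXc]
      have e : (4 : ℕ) = 2 ^ 2 := by norm_num
      rw [e, ← pow_add]
      exact Nat.pow_le_pow_right (by norm_num) (by omega))
  rw [hXc] at h4
  have h6 := final_numbers hn hu
  have h7 : (2 : ℝ) ^ (ℓ + k * (2 * m + 1) + 2) * (1 / 2) ^ (2 ^ (2 * u) + 1) ≤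
      2 ^ (ℓ + (k + 1) * (2 * m + 1) + 2) * (1 / 2) ^ (2 ^ (2 * u) + 1) := by
    apply mul_le_mul_of_nonneg_right _ (by positivity)
    apply pow_le_pow_right₀ (by norm_num)
    have : (k + 1) * (2 * m + 1) = k * (2 * m + 1) + (2 * m + 1) := by ring
    omega
  have h8 : (k : ℝ) * (2 ^ (ℓ + k * (2 * m + 1) + 2) * (1 / 2) ^ (2 ^ (2 * u) + 1)) ≤
      k * (2 ^ (ℓ + (k + 1) * (2 * m + 1) + 2) * (1 / 2) ^ (2 ^ (2 * u) + 1)) :=
    mul_le_mul_of_nonneg_left h7 (by positivity)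
  push_cast
  rw [add_mul, one_mul]
  linarith

/-- The hard formulas have `t + 1` levels of NOR gates in front of random bits: `w` bits for every
node of the first level, and the root has `2 ^ a` children. Formulas with `t` quantifiers and a
bounded number of bits fail on one of the many roots. -/
theorem coreR (t κ : ℕ) {n u r₀ : ℕ} (ht : 1 ≤ t) (hn : 5 ≤ n) (hu : 8 * u ≤ n) (hκ : 1 ≤ κ)
    (hκn : κ ≤ n) (hr : 1 ≤ r₀) (hr0 : 16 * r₀ * 2 ^ r₀ ≤ 2 ^ n) :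
    ∃ (w : ℕ) (as : List ℕ) (a : ℕ), as.length + 1 = t ∧ 1 ≤ w ∧ w ≤ 8 * (κ * n) ∧
      (∀ b ∈ as, b ≤ 64 * n) ∧ a ≤ 64 * (κ * n) ∧ 8 * (κ * n) ≤ a + 1 ∧
      (2 : ℝ) ^ a * prT (1 / 2) (w :: pw as) < 1 ∧
      ∀ (X : Type) [Fintype X] [DecidableEq X], Fintype.card X = 2 ^ (u + 11) →
        ∀ (m ℓ : ℕ) (F : List Bool → (Idx X (w :: pw (as ++ [a])) → Bool) → Bool),
        (∀ y : List Bool, y.length ≤ ℓ + t * (2 * m + 1) → DTr r₀ (F y)) →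
        ∀ y : X → List Bool, (∀ j, (y j).length ≤ ℓ) →
          Ms (1 / 2) (w :: pw (as ++ [a])) (fun _ => none) (fun j => QF m F t true (y j)) ≤
            (t : ℝ) * (2 ^ (ℓ + t * (2 * m + 1) + 2) * (1 / 2) ^ (2 ^ (2 * u) + 1)) +
              3 * (1 / 2) ^ (2 ^ u) := by
  have hκn1 : n ≤ κ * n := Nat.le_mul_of_pos_left _ hκ
  have hhalf : (1 - 1 / 2 : ℝ) = 1 / 2 := by norm_num
  obtain ⟨k, rfl⟩ : ∃ k, t = k + 1 := ⟨t - 1, by omega⟩
  rcases k with _ | k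
  · obtain ⟨hinv, hp⟩ := inv_startK hn hκ
    obtain ⟨a, ha1, ha2, ha3, hX⟩ := top_size hn hκ hinv
    refine ⟨8 * (κ * n), [], a, rfl, by omega, le_rfl, by simp, ha1, ha2, ?_, ?_⟩
    · rw [hp] at ha3
      show (2 : ℝ) ^ a * (1 - 1 / 2) ^ (8 * (κ * n)) < 1
      rw [hhalf]
      exact ha3
    · intro X _ _ hXc m ℓ F hF y hy
      exact coreR_aux (k := 0) hn hu (by omega) hr hr0 (pw ([] ++ [a])) rfl hX X hXc m ℓ F hF y hy
  · obtain ⟨hinv, hp⟩ := inv_start1 hn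
    obtain ⟨as, a, hlen, has, ha1, ha2, ha3, hX⟩ := sizesK hn hκ hκn k _ _ hinv hp
    refine ⟨8 * n, as, a, by omega, by omega, by omega, has, ha1, ha2, ?_, ?_⟩
    · show (2 : ℝ) ^ a * prT ((1 - 1 / 2) ^ (8 * n)) (pw as) < 1
      rw [hhalf]
      exact ha3
    · intro X _ _ hXc m ℓ F hF y hy
      exact coreR_aux (k := k + 1) hn hu le_rfl hr hr0 (pw (as ++ [a])) (by
        rw [pw, List.length_map, List.length_append, hlen]; rfl) hX X hXc m ℓ F hF y hy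

end Pool.Agent.Y626.WR
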