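import Pool.Agent.Y626.WR.HardR
import Pool.Agent.TH678.RS.Diag
import Pool.Agent.TH678.RS.Inst

/-! Sizes and numbers for random oracles. -/

set_option autoImplicit false

namespace Pool.Agent.Y626.WR

open Pool.Agent.NPC Pool.Agent.H622R2 Pool.Agent.H620R2.Gauge Pool.Agent.TH678.GC
  Pool.Agent.H591R3.PHG Pool.Agent.TH678.RS Pool.Agent.Y626.WG

/-- the list of exponents -/
theorem exists_exps (ν : ℕ) : ∀ (κ b : ℕ), b ≤ κ * ν →
    ∃ es : List ℕ, es.length = κ ∧ (∀ e ∈ es, e ≤ ν) ∧ es.sum = b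
  | 0, b, h => ⟨[], rfl, by simp, by
      rw [Nat.zero_mul] at h
      rw [Nat.le_zero.1 h]
      rfl⟩
  | κ + 1, b, h => by
    rw [Nat.succ_mul] at h
    rcases le_total b ν with h1 | h1
    · obtain ⟨es, h2, h3, h4⟩ := exists_exps ν κ 0 (Nat.zero_le _)
      refine ⟨b :: es, by rw [List.length_cons, h2], ?_, by rw [List.sum_cons, h4]; rfl⟩
      intro e he
      rcases List.mem_cons.1 he with rfl | he
      · exact h1
      · exact h3 e he
    · obtain ⟨es, h2, h3, h4⟩ := exists_exps ν κ (b - ν) (by omega)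
      refine ⟨ν :: es, by rw [List.length_cons, h2], ?_, by rw [List.sum_cons, h4]; omega⟩
      intro e he
      rcases List.mem_cons.1 he with rfl | he
      · exact le_rfl
      · exact h3 e he

theorem prod_pow (es : List ℕ) : (es.map fun e => 2 ^ e).prod = 2 ^ es.sum := by
  induction es with
  | nil => rfl
  | cons e es ih => rw [List.map_cons, List.prod_cons, ih, List.sum_cons, pow_add]

/-- the constant part of the size -/
def cstR (k t : ℕ) : ℕ :=
  sz (k :: List.replicate t 1) +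
    sz ((0, List.range (k + t)) :: (List.range (k + t)).map fun i => (i + 1, [i, i]) :
      List (ℕ × List ℕ)) + sz ((vecs (k + t + 1)).filter (accd (!(fl t false)) k)) + 16

theorem sz_hardR {k t c ν j : ℕ} {Cs : List ℕ} (hl : Cs.length = k + t)
    (hN : ∀ C ∈ Cs, C ≤ 2 ^ ν) :
    sz (hardR k t c ν Cs j) ≤ 2 ^ ν * (4 * (1 + c + ν) + 2) +
      (k + t) * (2 ^ ν * (8 * 2 ^ ν + 4) + 2) + cstR k t := by
  have e : sz (hardR k t c ν Cs j) = sz ((List.range (2 ^ ν)).map (lab c ν j)) +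
      (sz (Cs.map fun C => (List.range C).map fun a => (a, a)) +
      (sz (k :: List.replicate t 1) +
      (sz ((0, List.range (k + t)) :: (List.range (k + t)).map fun i => (i + 1, [i, i]) :
      List (ℕ × List ℕ)) + sz ((vecs (k + t + 1)).filter (accd (!(fl t false)) k)) + 1) + 1) +
        1) + 1 := by
    have : sz (hardR k t c ν Cs j) = sz ((List.range (2 ^ ν)).map (lab c ν j),
      (Cs.map fun C => (List.range C).map fun a => (a, a)), k :: List.replicate t 1,
      ((0, List.range (k + t)) :: (List.range (k + t)).map fun i => (i + 1, [i, i]) :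
      List (ℕ × List ℕ)), (vecs (k + t + 1)).filter (accd (!(fl t false)) k)) := rfl
    rw [this, sz_pair, sz_pair, sz_pair, sz_pair]
  have h1 := sz_le_length_mul ((List.range (2 ^ ν)).map (lab c ν j)) (4 * (1 + c + ν) + 1) (by
    intro a ha
    obtain ⟨i, _, rfl⟩ := List.mem_map.1 ha
    have := sz_listBool_le (lab c ν j i)
    rw [length_lab] at this
    exact this)
  rw [List.length_map, List.length_range] at h1
  have h2 := sz_le_length_mul (Cs.map fun C => (List.range C).map fun a => (a, a))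
    (2 ^ ν * (8 * 2 ^ ν + 4) + 1) (by
    intro l hl
    obtain ⟨C, hC, rfl⟩ := List.mem_map.1 hl
    have h3 := sz_le_length_mul ((List.range C).map fun a => (a, a)) (8 * 2 ^ ν + 3) (by
      intro p hp
      obtain ⟨a, ha, rfl⟩ := List.mem_map.1 hp
      rw [List.mem_range] at ha
      have h4 := sz_nat_le' a
      have h5 := hN C hC
      rw [sz_pair]
      omega)
    rw [List.length_map, List.length_range] at h3
    have h6 : C * (8 * 2 ^ ν + 3 + 1) ≤ 2 ^ ν * (8 * 2 ^ ν + 4) :=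
      Nat.mul_le_mul_right _ (hN C hC)
    omega)
  rw [List.length_map, hl] at h2
  rw [e]
  unfold cstR
  have e2 : 4 * (1 + c + ν) + 1 + 1 = 4 * (1 + c + ν) + 2 := rfl
  have e3 : 2 ^ ν * (8 * 2 ^ ν + 4) + 1 + 1 = 2 ^ ν * (8 * 2 ^ ν + 4) + 2 := rfl
  rw [e2] at h1
  rw [e3] at h2
  omega

/-- the numbers -/
theorem numbersR (t k κ s G d₂ : ℕ) {ε : ℝ} (hε : 0 < ε) : ∃ u : ℕ, 12 ≤ u ∧ κ ≤ 8 * u ∧
    64 * κ * u ≤ 2 ^ (512 * u) ∧ 16 * (G + 1) * 2 ^ (G + 1) ≤ 2 ^ (8 * u) ∧
    2 * s + 1 + (2 ^ (512 * u) * (4 * (1 + (u + 11) + 512 * u) + 2) +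
      (k + t) * (2 ^ (512 * u) * (8 * 2 ^ (512 * u) + 4) + 2) + cstR k t) + 2 ≤
      2 ^ (1536 * u) ∧
    (t : ℝ) * (2 ^ (2 ^ (u + 11) + t * (2 * (1536 * u * d₂ * G) + 1) + 2) *
      (1 / 2) ^ (2 ^ (2 * u) + 1)) + 3 * (1 / 2) ^ (2 ^ u) + (1 / 2) ^ u ≤ ε := by
  set E : ℕ := 2052 + 53 + 2 * s + cstR k t + t * (3072 * d₂ * G + 1) + 4 + t + G +
    16 * (G + 1) * 2 ^ (G + 1) + 64 * κ + 14 * (k + t) with hE
  have hlim : ∀ᶠ u : ℕ in Filter.atTop, 5 * (1 / 2 : ℝ) ^ u ≤ ε := by
    have h1 : Filter.Tendsto (fun u : ℕ => 5 * (1 / 2 : ℝ) ^ u) Filter.atTop (nhds (5 * 0)) :=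
      (tendsto_pow_atTop_nhds_zero_of_lt_one (by norm_num) (by norm_num)).const_mul _
    rw [mul_zero] at h1
    exact (h1.eventually (ge_mem_nhds hε))
  obtain ⟨u, ⟨h1, h2⟩, hlim⟩ := (((ev_poly E 1).and
    (Filter.eventually_ge_atTop (κ + 12))).and hlim).exists
  rw [pow_one] at h1
  have hEu : E ≤ E * (u + 1) := Nat.le_mul_of_pos_right _ (by omega)
  refine ⟨u, by omega, by omega, ?_, ?_, ?_, ?_⟩
  · have h3 : 64 * κ * u ≤ E * (u + 1) := by
      have h4 : 64 * κ ≤ E := by omega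
      exact Nat.mul_le_mul h4 (by omega)
    have h4 : 2 ^ u ≤ 2 ^ (512 * u) := Nat.pow_le_pow_right (by norm_num) (by omega)
    omega
  · have h4 : 2 ^ u ≤ 2 ^ (8 * u) := Nat.pow_le_pow_right (by norm_num) (by omega)
    omega
  · set W := 2 ^ (512 * u) with hW
    have hW1 : 1 ≤ W := Nat.one_le_two_pow
    have h3 : 2 ^ u ≤ W := Nat.pow_le_pow_right (by norm_num) (by omega)
    have e : 2 ^ (1536 * u) = W * W * W := by
      rw [hW, ← pow_add, ← pow_add]; congr 1; ring
    have h5 : 2 * s + 1 + (4 * (1 + (u + 11) + 512 * u) + 2) + 14 * (k + t) + cstR k t + 2 ≤ W := by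
      have h6 : (2052 + 53 + 2 * s + cstR k t + 14 * (k + t)) * (u + 1) ≤ E * (u + 1) :=
        Nat.mul_le_mul_right _ (by omega)
      have h7 : 2 * s + 1 + (4 * (1 + (u + 11) + 512 * u) + 2) + 14 * (k + t) + cstR k t + 2 ≤
          (2052 + 53 + 2 * s + cstR k t + 14 * (k + t)) * (u + 1) := by
        have e1 : (2052 + 53 + 2 * s + cstR k t + 14 * (k + t)) * (u + 1) =
          (2052 + 53) * u + (2052 + 53) + (2 * s + cstR k t + 14 * (k + t)) * u +
            (2 * s + cstR k t + 14 * (k + t)) := by ring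
        rw [e1]
        have : 0 ≤ (2 * s + cstR k t + 14 * (k + t)) * u := Nat.zero_le _
        omega
      omega
    have hWW : 1 ≤ W * W := Nat.one_le_iff_ne_zero.2 (by positivity)
    have hWW2 : W ≤ W * W := Nat.le_mul_of_pos_left _ (by omega)
    rw [e]
    calc 2 * s + 1 + (W * (4 * (1 + (u + 11) + 512 * u) + 2) +
          (k + t) * (W * (8 * W + 4) + 2) + cstR k t) + 2
        ≤ W * W * (2 * s + 1 + (4 * (1 + (u + 11) + 512 * u) + 2) + 14 * (k + t) +
            cstR k t + 2) := by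
          have h7 : 2 * s + 1 + cstR k t + 2 ≤ W * W * (2 * s + 1 + cstR k t + 2) :=
            Nat.le_mul_of_pos_left _ (by omega)
          have h8 : W * (4 * (1 + (u + 11) + 512 * u) + 2) ≤
            W * W * (4 * (1 + (u + 11) + 512 * u) + 2) := Nat.mul_le_mul_right _ hWW2
          have h9 : W * (8 * W + 4) + 2 ≤ W * W * 14 := by nlinarith
          have h10 : (k + t) * (W * (8 * W + 4) + 2) ≤ (k + t) * (W * W * 14) :=
            Nat.mul_le_mul_left _ h9
          have e2 : W * W * (2 * s + 1 + (4 * (1 + (u + 11) + 512 * u) + 2) + 14 * (k + t) +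
            cstR k t + 2) = W * W * (2 * s + 1 + cstR k t + 2) +
              W * W * (4 * (1 + (u + 11) + 512 * u) + 2) + (k + t) * (W * W * 14) := by ring
          omega
      _ ≤ W * W * W := Nat.mul_le_mul_left _ h5
  · set a : ℕ := 2 ^ (u + 11) + t * (2 * (1536 * u * d₂ * G) + 1) + 2 with ha
    set b : ℕ := 2 ^ (2 * u) with hb
    have h3 : a + t + u ≤ b := by
      have h4 : 2 ^ (u + 11) + 2 ^ (2 * u - 1) ≤ b := by
        have h5 : 2 ^ (u + 11) ≤ 2 ^ (2 * u - 1) :=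
          Nat.pow_le_pow_right (by norm_num) (by omega)
        have h6 : b = 2 ^ (2 * u - 1) + 2 ^ (2 * u - 1) := by
          rw [hb]
          have : 2 * u = 2 * u - 1 + 1 := by omega
          conv_lhs => rw [this]
          rw [pow_succ]
          ring
        omega
      have h7 : 2 ^ u ≤ 2 ^ (2 * u - 1) := Nat.pow_le_pow_right (by norm_num) (by omega)
      have h8 : (t * (3072 * d₂ * G + 1) + 4 + t) * (u + 1) ≤ E * (u + 1) :=
        Nat.mul_le_mul_right _ (by omega)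
      have h9 : t * (2 * (1536 * u * d₂ * G) + 1) + 2 + t + u ≤
          (t * (3072 * d₂ * G + 1) + 4 + t) * (u + 1) := by
        have e1 : t * (2 * (1536 * u * d₂ * G) + 1) = t * (3072 * d₂ * G) * u + t := by ring
        have e2 : (t * (3072 * d₂ * G + 1) + 4 + t) * (u + 1) =
          t * (3072 * d₂ * G) * u + t * (3072 * d₂ * G) + t * u + t + 4 * u + 4 + t * u + t := by
          ring
        rw [e1, e2]
        have : 0 ≤ t * u := Nat.zero_le _
        omega
      omega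
    have h4 : (t : ℝ) ≤ 2 ^ t := by exact_mod_cast (Nat.lt_two_pow_self (n := t)).le
    have hu0 : (0 : ℝ) < 2 ^ u := by positivity
    have eu : (1 / 2 : ℝ) ^ u = 1 / 2 ^ u := by rw [one_div, inv_pow, one_div]
    have h5 : (t : ℝ) * (2 ^ a * (1 / 2) ^ (b + 1)) ≤ (1 / 2) ^ u := by
      have h6 : (2 : ℝ) ^ (a + t + u) ≤ 2 ^ b := pow_le_pow_right₀ (by norm_num) h3
      have h7 : (0 : ℝ) < 2 ^ b := by positivity
      have h8 : (1 / 2 : ℝ) ^ (b + 1) = 1 / (2 ^ b * 2) := by
        rw [one_div, inv_pow, pow_succ, one_div]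
      rw [h8, eu]
      have h9 : (t : ℝ) * 2 ^ a * 2 ^ u ≤ 2 ^ b := by
        have h10 : (t : ℝ) * 2 ^ a ≤ 2 ^ t * 2 ^ a := by gcongr
        have h11 : (2 : ℝ) ^ (a + t + u) = 2 ^ t * 2 ^ a * 2 ^ u := by
          rw [pow_add, pow_add]; ring
        rw [h11] at h6
        exact (mul_le_mul_of_nonneg_right h10 hu0.le).trans h6
      have h10 : (t : ℝ) * (2 ^ a * (1 / (2 ^ b * 2))) = t * 2 ^ a / (2 ^ b * 2) := by ring
      rw [h10, div_le_div_iff₀ (by positivity) hu0]
      linarith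
    have h6 : (1 / 2 : ℝ) ^ (2 ^ u) ≤ (1 / 2) ^ u :=
      pow_le_pow_of_le_one (by norm_num) (by norm_num) (Nat.lt_two_pow_self (n := u)).le
    linarith

end Pool.Agent.Y626.WR
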