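import Pool.Agent.Y626.WR.BlkR
import Pool.Agent.Y626.WR.NumsR
import Pool.Agent.Y626.WR.CoreT

/-!
# The probability that fixed sentences have the values of the random trees
-/

set_option autoImplicit false

namespace Pool.Agent.Y626.WR

open Pool.Agent.NPC Pool.Agent.H622R2 Pool.Agent.H620R2.Gauge Pool.Agent.TH678.GC
  Pool.Agent.H591R3.PHG Pool.Agent.TH678.RS Pool.Agent.Y626.WG H568R2
open Pool.Agent.H628R3.RO (randomOracle prob Loc measurableSet_of_loc prob_inter_of_disjoint)

theorem sing_ovw {I : Type} {pos : I → List Bool} (hpos : Function.Injective pos)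
    (A E : Oracle) (q : List Bool) : Sing (fun z : I → Bool => join (ovw pos z A) E q) := by
  rcases q with _ | ⟨b, v⟩
  · exact Or.inl ⟨false, fun _ => rfl⟩
  cases b with
  | true => exact Or.inl ⟨E v, fun _ => rfl⟩
  | false =>
    show Sing (fun z : I → Bool => ovw pos z A v)
    by_cases h : ∃ i, pos i = v
    · obtain ⟨i, rfl⟩ := h
      exact Or.inr ⟨i, id, fun z => ovw_pos hpos z A i⟩
    · exact Or.inl ⟨A v, fun z => ovw_off z A fun i hi => h ⟨i, hi⟩⟩

open Classical in
theorem DTr_ovw {I : Type} [Fintype I] [DecidableEq I] {pos : I → List Bool}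
    (hpos : Function.Injective pos) (A E : Oracle) (J : Inst) (v : List ℕ) :
    Pool.Agent.H676.DTr J.atoms.length (fun z : I → Bool =>
      decide (J.atoms.map (J.atom (join (ovw pos z A) E) v) ∈ J.acc)) := by
  have h1 := DTr_list (J.atoms.map fun a (z : I → Bool) => J.atom (join (ovw pos z A) E) v a) (by
    intro f hf
    obtain ⟨⟨r, l⟩, _, rfl⟩ := List.mem_map.1 hf
    rcases r with _ | r
    · exact sing_ovw hpos A E _
    · exact Or.inl ⟨_, fun _ => rfl⟩) (fun x => decide (x ∈ J.acc))
  rw [List.length_map] at h1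
  refine (congrArg (Pool.Agent.H676.DTr J.atoms.length) (funext fun z => ?_)).mp h1
  rw [List.map_map]
  rfl

open Classical in
theorem inner_bound {t G K m : ℕ} {cs : List ℕ} {pos : Idx (Fin K) cs → List Bool}
    (hpos : Function.Injective pos) (A E : Oracle) (I' : ℕ → Inst) (hA : ∀ j, (I' j).IsA t)
    (hG : ∀ j, (I' j).param ≤ G)
    (hm : ∀ j s, s ≤ G → (I' j).labels.length ^ s ≤ 2 ^ m) {β : ℝ}
    (hcore : ∀ F : List Bool → (Idx (Fin K) cs → Bool) → Bool,
      (∀ y : List Bool, y.length ≤ K + t * (2 * m + 1) → Pool.Agent.H676.DTr (G + 1) (F y)) →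
      ∀ y : Fin K → List Bool, (∀ j, (y j).length ≤ K) →
        Ms (1 / 2) cs (fun _ => none) (fun j => QF m F t true (y j)) ≤ β) :
    Ex (ber (1 / 2)) (fun ω : Idx (Fin K) cs → Bool =>
      if ∀ j : Fin K, ((I' j.val).Sat (join (ovw pos ω A) E) ↔ Tr cs ω j = false) then (1 : ℝ)
      else 0) ≤ β := by
  have hdec : ∀ (j s' : ℕ), ∃ d : List Bool → List ℕ, s' ≤ G →
      (∀ w, Tup (I' j).labels.length s' (d w)) ∧
      ∀ a, Tup (I' j).labels.length s' a → ∃ w : List Bool, w.length ≤ m ∧ d w = a := by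
    intro j s'
    by_cases hs' : s' ≤ G
    · have hN : 1 ≤ (I' j).labels.length := List.length_pos_iff.2 (hA j).1
      obtain ⟨d, hd1, hd2⟩ := exists_dec hN (hm j s' hs')
      exact ⟨d, fun _ => ⟨hd1, hd2⟩⟩
    · exact ⟨fun _ => [], fun h => absurd h hs'⟩
  choose d hd using hdec
  set Leaf : List (List Bool) → List Bool → (Idx (Fin K) cs → Bool) → Bool :=
    fun ws y z => decide ((I' y.length).atoms.map ((I' y.length).atom (join (ovw pos z A) E)
      (dcd (d y.length) (I' y.length).blocks ws)) ∈ (I' y.length).acc) with hLeaf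
  have h1 := hcore (fun y => Leaf (ass t y).1 (ass t y).2) (fun y _ => by
    have h1 := DTr_ovw hpos A E (I' (ass t y).2.length)
      (dcd (d (ass t y).2.length) (I' (ass t y).2.length).blocks (ass t y).1)
    exact h1.mono (((length_le_param _).trans (hG _)).trans (Nat.le_succ G)))
    (fun j => List.replicate j.val true) (fun j => by
      rw [List.length_replicate]; exact j.2.le)
  refine le_trans (le_of_eq ?_) h1
  unfold Ms
  congr 1
  funext z
  have h2 : ∀ j : Fin K, (QF m (fun y => Leaf (ass t y).1 (ass t y).2) t true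
      (List.replicate j.val true) z = true ↔ (I' j.val).Sat (join (ovw pos z A) E)) := by
    intro j
    refine sat_qf (hA j.val) (d j.val) (fun s' hs' =>
      hd j.val s' ((block_le_param _ hs').trans (hG _))) Leaf _ z fun ws => ?_
    rw [hLeaf]
    simp only [List.length_replicate, decide_eq_true_eq]
  have h3 : val (fun _ => none : Idx (Fin K) cs → Option Bool) z = z := rfl
  rw [h3]
  have h4 : (∀ j : Fin K, ((I' j.val).Sat (join (ovw pos z A) E) ↔ Tr cs z j = false)) ↔
      ∀ j : Fin K, QF m (fun y => Leaf (ass t y).1 (ass t y).2) t true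
        (List.replicate j.val true) z ≠ Tr cs z j := by
    refine forall_congr' fun j => ?_
    rw [← h2 j]
    cases QF m (fun y => Leaf (ass t y).1 (ass t y).2) t true (List.replicate j.val true) z <;>
      cases Tr cs z j <;> simp
  by_cases h5 : ∀ j : Fin K, ((I' j.val).Sat (join (ovw pos z A) E) ↔ Tr cs z j = false)
  · rw [if_pos h5, if_pos (h4.1 h5)]
  · rw [if_neg h5, if_neg fun h6 => h5 (h4.2 h6)]

end Pool.Agent.Y626.WR
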