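import Pool.Agent.H591R3.PHG.Main

/-!
# The sizes of the levels

The level below the root is `κ` times as unlikely as the other ones, so that the root has a large
number of children.
-/

set_option autoImplicit false

namespace Pool.Agent.Y626.WR

open Finset H568R2 Pool.Agent.H676 Pool.Agent.H620R2.Gauge Pool.Agent.NPC Pool.Agent.H591R3.PHG
  Pool.Agent.H591R3.PHG.LawAux

/-- the invariants of the weights of the status, for unlikely nodes -/
structure InvK (n κ : ℕ) (law : Option Bool → ℝ) : Prop where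
  nonneg : ∀ v, 0 ≤ law v
  sum : ∑ v, law v = 1
  rare : law (some true) ≤ 2 * (1 / 2 ^ (2 * n)) * (law none / 2 ^ (4 * n) + law (some true))
  lo : Real.exp (-(36 * ((κ * n : ℕ) : ℝ))) ≤ law none / 2 ^ (4 * n) + law (some true)
  hi : law none / 2 ^ (4 * n) + law (some true) ≤ 1 / 2 ^ (8 * (κ * n))

/-- the probability that a node of a forest of NOR gates is true -/
noncomputable def prT : ℝ → List ℕ → ℝ
  | t, [] => t
  | t, c :: cs => prT ((1 - t) ^ c) cs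

/-- the first level -/
theorem nxt_law0' {w smin : ℕ} {t' ξ : ℝ} (hs : 1 ≤ smin) (hw : smin ≤ w) :
    nxt (1 / 2) t' ξ smin w law0 none = (1 - ξ) * (1 / 2) ^ w / t' ∧
      nxt (1 / 2) t' ξ smin w law0 (some true) = ξ * (1 / 2) ^ w := by
  have h1 : ∀ v, nxt (1 / 2) t' ξ smin w law0 v = K (1 / 2) t' ξ smin (fun _ : Fin w => none) v := by
    intro v
    rw [nxt_eq, Finset.sum_eq_single (fun _ : Fin w => (none : Option Bool))]
    · have h0 : ∏ i : Fin w, law0 ((fun _ : Fin w => (none : Option Bool)) i) = 1 :=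
        Finset.prod_eq_one fun i _ => if_pos rfl
      rw [h0, one_mul]
    · intro σ _ hσ
      have h2 : ∃ i, σ i ≠ none := by
        by_contra h3
        push Not at h3
        exact hσ (funext h3)
      obtain ⟨i, hi⟩ := h2
      rw [Finset.prod_eq_zero (Finset.mem_univ i) (if_neg hi), zero_mul]
    · intro h
      exact absurd (Finset.mem_univ _) h
  have h2 : live (fun _ : Fin w => (none : Option Bool)) = univ :=
    Finset.filter_true_of_mem fun _ _ => rfl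
  have h3 : Act smin (fun _ : Fin w => (none : Option Bool)) := by
    refine ⟨fun i h => by simp at h, ?_⟩
    rw [h2, Finset.card_univ, Fintype.card_fin]
    exact hw
  rw [h1, h1, K_act_none (by norm_num) (by norm_num) hs h3, K_act_true h3]
  unfold pz
  rw [h2, Finset.card_univ, Fintype.card_fin]
  constructor
  · norm_num
  · norm_num

/-- the first level with `8 * κ * n` bits for a node -/
theorem inv_startK {n κ : ℕ} (hn : 5 ≤ n) (hκ : 1 ≤ κ) :
    InvK n κ (nxt (1 / 2) (1 / 2 ^ (4 * n)) (1 / 2 ^ (2 * n)) (8 * (κ * n)) (8 * (κ * n)) law0) ∧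
    nxt (1 / 2) (1 / 2 ^ (4 * n)) (1 / 2 ^ (2 * n)) (8 * (κ * n)) (8 * (κ * n)) law0 none /
      2 ^ (4 * n) + nxt (1 / 2) (1 / 2 ^ (4 * n)) (1 / 2 ^ (2 * n)) (8 * (κ * n)) (8 * (κ * n))
        law0 (some true) = (1 / 2) ^ (8 * (κ * n)) := by
  have h0 : ∀ v, (0 : ℝ) ≤ law0 v := by
    intro v; unfold law0; split_ifs <;> norm_num
  have h1 : ∑ v, law0 v = 1 := by
    unfold law0
    rw [Finset.sum_ite_eq']
    simp
  have hκn : n ≤ κ * n := Nat.le_mul_of_pos_left _ hκ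
  have hs : 1 ≤ 8 * (κ * n) := by omega
  have hT : (0 : ℝ) < 1 / 2 ^ (4 * n) := by positivity
  have hξ0 : (0 : ℝ) < 1 / 2 ^ (2 * n) := by positivity
  have hξ1 : (1 : ℝ) / 2 ^ (2 * n) ≤ 1 := by
    rw [div_le_one (by positivity)]
    exact one_le_pow₀ (by norm_num)
  obtain ⟨h2, h3⟩ := nxt_law0' (w := 8 * (κ * n)) (smin := 8 * (κ * n)) (t' := 1 / 2 ^ (4 * n))
    (ξ := 1 / 2 ^ (2 * n)) hs le_rfl
  have hp : nxt (1 / 2) (1 / 2 ^ (4 * n)) (1 / 2 ^ (2 * n)) (8 * (κ * n)) (8 * (κ * n)) law0 none /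
      2 ^ (4 * n) + nxt (1 / 2) (1 / 2 ^ (4 * n)) (1 / 2 ^ (2 * n)) (8 * (κ * n)) (8 * (κ * n))
        law0 (some true) = (1 / 2) ^ (8 * (κ * n)) := by
    rw [h2, h3]
    field_simp
    ring
  refine ⟨⟨fun v => ?_, ?_, ?_, ?_, ?_⟩, hp⟩
  · refine nxt_nonneg (by norm_num) (by norm_num) hT hξ0.le hξ1 hs ?_ h0 v
    have e1 : (1 - 1 / 2 : ℝ) = 1 / 2 := by norm_num
    rw [e1]
    have h5 : (1 / 2 : ℝ) ^ (8 * (κ * n)) ≤ (1 / 2) ^ (4 * n) :=
      pow_le_pow_of_le_one (by norm_num) (by norm_num) (by omega)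
    have h6 : (1 / 2 : ℝ) ^ (8 * (κ * n)) / (1 / 2 ^ (4 * n)) ≤ 1 := by
      rw [div_le_one hT]
      refine h5.trans (le_of_eq ?_)
      rw [one_div_pow]
    have h7 : (1 / 2 : ℝ) ^ (8 * (κ * n)) ≤ 1 := pow_le_one₀ (by norm_num) (by norm_num)
    have h8 : (1 - 1 / (2 : ℝ) ^ (2 * n)) * (1 / 2) ^ (8 * (κ * n)) / (1 / 2 ^ (4 * n)) =
        (1 - 1 / (2 : ℝ) ^ (2 * n)) * ((1 / 2) ^ (8 * (κ * n)) / (1 / 2 ^ (4 * n))) := by
      rw [mul_div_assoc]
    rw [h8]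
    have h9 : (0 : ℝ) ≤ 1 - 1 / 2 ^ (2 * n) := by linarith
    nlinarith [mul_le_mul_of_nonneg_left h6 h9, mul_le_mul_of_nonneg_left h7 hξ0.le]
  · exact nxt_sum (by norm_num) (by norm_num) hT hs h1
  · rw [hp, h3]
    have : (0 : ℝ) ≤ (1 / 2) ^ (8 * (κ * n)) := by positivity
    nlinarith
  · rw [hp]
    have h5 : Real.exp (-(36 * ((κ * n : ℕ) : ℝ))) = 1 / (Real.exp 36) ^ (κ * n) := by
      rw [← Real.exp_nat_mul, Real.exp_neg, mul_comm ((κ * n : ℕ) : ℝ) 36]; simp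
    rw [h5, one_div_pow, pow_mul (2 : ℝ) 8 (κ * n)]
    apply one_div_le_one_div_of_le (by positivity)
    apply pow_le_pow_left₀ (by positivity)
    have h6 : (2 : ℝ) ^ 11 ≤ Real.exp 36 :=
      exp8_ge.trans (Real.exp_le_exp.mpr (by norm_num))
    calc (2 : ℝ) ^ 8 ≤ 2 ^ 11 := by norm_num
      _ ≤ _ := h6
  · rw [hp, one_div_pow]

theorem inv_start1 {n : ℕ} (hn : 5 ≤ n) :
    Inv n (nxt (1 / 2) (1 / 2 ^ (4 * n)) (1 / 2 ^ (2 * n)) (8 * n) (8 * n) law0) ∧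
    nxt (1 / 2) (1 / 2 ^ (4 * n)) (1 / 2 ^ (2 * n)) (8 * n) (8 * n) law0 none /
      2 ^ (4 * n) + nxt (1 / 2) (1 / 2 ^ (4 * n)) (1 / 2 ^ (2 * n)) (8 * n) (8 * n)
        law0 (some true) = (1 / 2) ^ (8 * n) := by
  obtain ⟨⟨h1, h2, h3, h4, h5⟩, h6⟩ := inv_startK (κ := 1) hn (le_refl 1)
  rw [one_mul] at h1 h2 h3 h4 h5 h6
  exact ⟨⟨h1, h2, h3, h4, h5⟩, h6⟩

theorem combineK {n κ T A B X Y W : ℝ} (hn : 5 ≤ n) (hκ : 1 ≤ κ) (hT : 2 ^ 20 ≤ T)
    (h : T * (15.8 * (κ * n)) ≤ W)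
    (h1 : A ≤ Real.exp (7 / 10 * (8 * n * T))) (h2 : B ≤ Real.exp (-(W / 2)))
    (h3 : Real.exp (-(2 * n)) ≤ X) (h4 : Real.exp (-(36 * (κ * n))) ≤ Y) (hB : 0 ≤ B)
    (hX : 0 ≤ X) : A * B ≤ X * Y := by
  calc A * B ≤ Real.exp (7 / 10 * (8 * n * T)) * Real.exp (-(W / 2)) :=
        mul_le_mul h1 h2 hB (Real.exp_pos _).le
    _ = Real.exp (7 / 10 * (8 * n * T) + -(W / 2)) := (Real.exp_add _ _).symm
    _ ≤ Real.exp (-(2 * n) + -(36 * (κ * n))) := by
        refine Real.exp_le_exp.mpr ?_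
        have f1 : n ≤ κ * n := by nlinarith
        have f2 : (0 : ℝ) ≤ κ * n := by linarith
        have f3 := mul_le_mul_of_nonneg_left hT f2
        have f4 : n * T ≤ κ * n * T := mul_le_mul_of_nonneg_right f1 (by linarith)
        nlinarith
    _ = Real.exp (-(2 * n)) * Real.exp (-(36 * (κ * n))) := Real.exp_add _ _
    _ ≤ X * Y := mul_le_mul h3 h4 (Real.exp_pos _).le hX

/-- the unlikely level -/
theorem inv_stepK {n κ c : ℕ} (hn : 5 ≤ n) (hκ : 1 ≤ κ) {law : Option Bool → ℝ} (h : Inv n law)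
    (h1 : 16 * ((κ * n : ℕ) : ℝ) ≤ c * (law none / 2 ^ (4 * n) + law (some true)))
    (h2 : c * (law none / 2 ^ (4 * n) + law (some true)) < 32 * ((κ * n : ℕ) : ℝ)) :
    InvK n κ (nxt (1 / 2 ^ (4 * n)) (1 / 2 ^ (4 * n)) (1 / 2 ^ (2 * n)) (8 * n * 2 ^ (4 * n)) c
      law) ∧
    nxt (1 / 2 ^ (4 * n)) (1 / 2 ^ (4 * n)) (1 / 2 ^ (2 * n)) (8 * n * 2 ^ (4 * n)) c
      law none / 2 ^ (4 * n) +
      nxt (1 / 2 ^ (4 * n)) (1 / 2 ^ (4 * n)) (1 / 2 ^ (2 * n)) (8 * n * 2 ^ (4 * n)) c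
      law (some true) = (1 - (law none / 2 ^ (4 * n) + law (some true))) ^ c := by
  have hnr : (5 : ℝ) ≤ n := by exact_mod_cast hn
  have hκr : (1 : ℝ) ≤ κ := by exact_mod_cast hκ
  have hκn : ((κ * n : ℕ) : ℝ) = κ * n := by push_cast; rfl
  have hκn1 : (n : ℝ) ≤ κ * n := by nlinarith
  rw [hκn] at h1 h2
  have hc0 : (0 : ℝ) ≤ c := Nat.cast_nonneg c
  have hT20 : (2 : ℝ) ^ 20 ≤ 2 ^ (4 * n) := pow_le_pow_right₀ (by norm_num) (by omega)
  have hX10 : (2 : ℝ) ^ 10 ≤ 2 ^ (2 * n) := pow_le_pow_right₀ (by norm_num) (by omega)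
  have hP40 : (2 : ℝ) ^ 40 ≤ 2 ^ (8 * n) := pow_le_pow_right₀ (by norm_num) (by omega)
  have hs : 1 ≤ 8 * n * 2 ^ (4 * n) := Nat.mul_pos (by omega) (by positivity)
  have hsc : ((8 * n * 2 ^ (4 * n) : ℕ) : ℝ) = 8 * n * 2 ^ (4 * n) := by push_cast; rfl
  have hexp1 : (2 : ℝ) ≤ Real.exp 1 := by
    have := Real.add_one_le_exp (1 : ℝ)
    linarith
  have hTe : (2 : ℝ) ^ (4 * n) ≤ Real.exp (8 * n) := by
    calc (2 : ℝ) ^ (4 * n) ≤ (Real.exp 1) ^ (4 * n) := pow_le_pow_left₀ (by norm_num) hexp1 _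
      _ = Real.exp (4 * n) := by
          rw [← Real.exp_nat_mul]
          push_cast
          rw [mul_one]
      _ ≤ Real.exp (8 * n) := Real.exp_le_exp.mpr (by linarith)
  have hXe : Real.exp (-(2 * n)) ≤ 1 / (2 : ℝ) ^ (2 * n) := by
    rw [Real.exp_neg, one_div]
    refine inv_anti₀ (by positivity) ?_
    calc (2 : ℝ) ^ (2 * n) ≤ (Real.exp 1) ^ (2 * n) := pow_le_pow_left₀ (by norm_num) hexp1 _
      _ = Real.exp (2 * n) := by
          rw [← Real.exp_nat_mul]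
          push_cast
          rw [mul_one]
  have hT0 : (0 : ℝ) < 2 ^ (4 * n) := by positivity
  have hX0 : (0 : ℝ) < 2 ^ (2 * n) := by positivity
  have ht0 : (0 : ℝ) < 1 / 2 ^ (4 * n) := by positivity
  have ht1 : (1 : ℝ) / 2 ^ (4 * n) < 1 := by
    rw [div_lt_one hT0]
    linarith
  have hξ0 : (0 : ℝ) < 1 / 2 ^ (2 * n) := by positivity
  have hξ2 : (1 : ℝ) / 2 ^ (2 * n) ≤ 1 / 2 ^ 10 := one_div_le_one_div_of_le (by positivity) hX10
  have hξ1 : (1 : ℝ) / 2 ^ (2 * n) ≤ 1 := hξ2.trans (by norm_num)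
  obtain ⟨h0, hl, hR, hlo, hhi⟩ := h
  have hsmall : (1 - 1 / (2 : ℝ) ^ (4 * n)) ^ (8 * n * 2 ^ (4 * n)) ≤ Real.exp (-(8 * n)) := by
    calc (1 - 1 / (2 : ℝ) ^ (4 * n)) ^ (8 * n * 2 ^ (4 * n))
        ≤ (Real.exp (-(1 / (2 : ℝ) ^ (4 * n)))) ^ (8 * n * 2 ^ (4 * n)) := by
          refine pow_le_pow_left₀ (by linarith) ?_ _
          have := Real.add_one_le_exp (-(1 / (2 : ℝ) ^ (4 * n)))
          linarith
      _ = Real.exp (-(8 * n)) := by
          rw [← Real.exp_nat_mul, hsc]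
          congr 1
          field_simp
  have hcond : (1 - 1 / (2 : ℝ) ^ (2 * n)) * (1 - 1 / 2 ^ (4 * n)) ^ (8 * n * 2 ^ (4 * n)) /
      (1 / 2 ^ (4 * n)) + 1 / 2 ^ (2 * n) * (1 - 1 / 2 ^ (4 * n)) ^ (8 * n * 2 ^ (4 * n)) ≤ 1 := by
    have hq0 : (0 : ℝ) ≤ (1 - 1 / 2 ^ (4 * n)) ^ (8 * n * 2 ^ (4 * n)) :=
      pow_nonneg (by linarith) _
    set q := (1 - 1 / (2 : ℝ) ^ (4 * n)) ^ (8 * n * 2 ^ (4 * n)) with hq
    have e1 : q * 2 ^ (4 * n) ≤ 1 := by
      calc q * 2 ^ (4 * n) ≤ Real.exp (-(8 * n)) * Real.exp (8 * n) :=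
            mul_le_mul hsmall hTe hT0.le (Real.exp_pos _).le
        _ = 1 := by rw [← Real.exp_add, neg_add_cancel, Real.exp_zero]
    have e2 : (1 - 1 / (2 : ℝ) ^ (2 * n)) * q / (1 / 2 ^ (4 * n)) =
        (1 - 1 / (2 : ℝ) ^ (2 * n)) * (q * 2 ^ (4 * n)) := by
      rw [div_div_eq_mul_div, div_one]
      ring
    rw [e2]
    have e3 : 1 / (2 : ℝ) ^ (2 * n) * q ≤ 1 / 2 ^ (2 * n) * (q * 2 ^ (4 * n)) := by
      refine mul_le_mul_of_nonneg_left ?_ hξ0.le
      exact le_mul_of_one_le_right hq0 (by linarith)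
    have e4 : (0 : ℝ) ≤ 1 - 1 / 2 ^ (2 * n) := by linarith
    nlinarith [mul_le_mul_of_nonneg_left e1 e4, mul_le_mul_of_nonneg_left e1 hξ0.le]
  -- the new value of p
  have hp' : nxt (1 / 2 ^ (4 * n)) (1 / 2 ^ (4 * n)) (1 / 2 ^ (2 * n)) (8 * n * 2 ^ (4 * n)) c
      law none / 2 ^ (4 * n) +
      nxt (1 / 2 ^ (4 * n)) (1 / 2 ^ (4 * n)) (1 / 2 ^ (2 * n)) (8 * n * 2 ^ (4 * n)) c
      law (some true) = (1 - (law none / 2 ^ (4 * n) + law (some true))) ^ c := by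
    have e := nxt_p (c := c) (ξ := 1 / 2 ^ (2 * n)) ht0 ht1 ht0 hs hl
    rw [one_div_mul_eq_div, one_div_mul_eq_div] at e
    exact e
  refine ⟨?_, hp'⟩
  set p := law none / 2 ^ (4 * n) + law (some true) with hp
  have hL0 := h0 none
  have hR0 := h0 (some true)
  have hp0 : 0 ≤ p := add_nonneg (div_nonneg hL0 hT0.le) hR0
  have hp1 : p ≤ 1 / 2 ^ 40 := hhi.trans (one_div_le_one_div_of_le (by positivity) hP40)
  have hp2 : p ≤ 1 / 9 := hp1.trans (by norm_num)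
  have hlo' : Real.exp (-(36 * (κ * n))) ≤ (1 - p) ^ c := by
    have e1 : Real.exp (-(9 / 8 * p)) ≤ 1 - p := by
      rw [Real.exp_neg]
      have e2 := Real.add_one_le_exp (9 / 8 * p)
      calc (Real.exp (9 / 8 * p))⁻¹ ≤ (9 / 8 * p + 1)⁻¹ := inv_anti₀ (by linarith) e2
        _ ≤ 1 - p := by
            rw [inv_le_iff_one_le_mul₀ (by linarith)]
            nlinarith
    calc Real.exp (-(36 * (κ * n))) ≤ Real.exp (c * (-(9 / 8 * p))) := by
          refine Real.exp_le_exp.mpr ?_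
          nlinarith
      _ = (Real.exp (-(9 / 8 * p))) ^ c := Real.exp_nat_mul _ c
      _ ≤ (1 - p) ^ c := pow_le_pow_left₀ (Real.exp_pos _).le e1 c
  have hhi' : (1 - p) ^ c ≤ 1 / 2 ^ (8 * (κ * n)) := by
    calc (1 - p) ^ c ≤ (Real.exp (-p)) ^ c := by
          refine pow_le_pow_left₀ (by linarith) ?_ c
          have := Real.add_one_le_exp (-p)
          linarith
      _ = Real.exp (c * (-p)) := (Real.exp_nat_mul _ c).symm
      _ ≤ Real.exp (-(8 * (κ * n))) := by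
          refine Real.exp_le_exp.mpr ?_
          linarith
      _ ≤ 1 / 2 ^ (8 * (κ * n)) := by
          rw [Real.exp_neg, one_div]
          refine inv_anti₀ (by positivity) ?_
          calc (2 : ℝ) ^ (8 * (κ * n)) ≤ (Real.exp 1) ^ (8 * (κ * n)) :=
                pow_le_pow_left₀ (by norm_num) hexp1 _
            _ = Real.exp (8 * (κ * n)) := by
                rw [← Real.exp_nat_mul]
                push_cast
                rw [mul_one]
  have hrare := nxt_true (c := c) (ξ := 1 / 2 ^ (2 * n)) ht0 ht1 ht0 hξ0.le hs h0 hl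
  rw [one_div_mul_eq_div (2 ^ (4 * n)) (law none)] at hrare
  change _ ≤ 1 / 2 ^ (2 * n) * (1 - p) ^ c + _ at hrare
  have hE : 2 ^ (8 * n * 2 ^ (4 * n)) * (1 - law none / 2) ^ c ≤
      1 / 2 ^ (2 * n) * (1 - p) ^ c := by
    have hL1 : law none ≤ 1 := by
      rw [Fintype.sum_option, Fintype.sum_bool] at hl
      have := h0 (some false)
      linarith
    have e1 := InvStepAux.two_pow_le n
    have e2 := InvStepAux.half_le c hL0 hL1
    have e3 : c * law none = 2 ^ (4 * n) * (c * p - c * law (some true)) := by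
      rw [hp]
      field_simp
      ring
    have e4 : c * law (some true) ≤ 1 / 100 * (c * p) := by
      have f1 : law (some true) ≤ 1 / 100 * p := by
        refine hR.trans (mul_le_mul_of_nonneg_right ?_ hp0)
        linarith
      calc c * law (some true) ≤ c * (1 / 100 * p) := mul_le_mul_of_nonneg_left f1 hc0
        _ = _ := by ring
    have e5 : 2 ^ (4 * n) * (15.8 * (κ * n)) ≤ c * law none := by
      rw [e3]
      refine mul_le_mul_of_nonneg_left ?_ hT0.le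
      linarith
    exact combineK hnr hκr hT20 e5 e1 e2 hXe hlo' (pow_nonneg (by linarith) _) hξ0.le
  refine ⟨fun v => nxt_nonneg ht0 ht1 ht0 hξ0.le hξ1 hs hcond h0 v, nxt_sum ht0 ht1 ht0 hs hl,
    ?_, ?_, ?_⟩
  · rw [hp']
    linarith
  · rw [hp', hκn]
    exact hlo'
  · rw [hp']
    exact hhi'

/-- the number of the children of the root -/
theorem top_size {n κ : ℕ} (hn : 5 ≤ n) (hκ : 1 ≤ κ) {law : Option Bool → ℝ}
    (h : InvK n κ law) :
    ∃ a : ℕ, a ≤ 64 * (κ * n) ∧ 8 * (κ * n) ≤ a + 1 ∧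
      (2 : ℝ) ^ a * (law none / 2 ^ (4 * n) + law (some true)) < 1 ∧
      ∀ (X : Type) [Fintype X] [DecidableEq X] (D g : ℕ), 16 * D ≤ 2 ^ (4 * n) →
        4 * g ≤ Fintype.card X →
        Ex law (Wt (X := X) (1 / 2 ^ (4 * n)) (1 / 2 ^ (2 * n)) (8 * n * 2 ^ (4 * n)) (1 / 256) D g
          (pw [a])) ≤ (9 / 10) ^ Fintype.card X := by
  classical
  have h2n : (1 : ℝ) / 2 ^ (2 * n) ≤ 1 / 32 := by
    apply one_div_le_one_div_of_le (by norm_num)
    calc (32 : ℝ) = 2 ^ 5 := by norm_num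
      _ ≤ 2 ^ (2 * n) := pow_le_pow_right₀ (by norm_num) (by omega)
  have hκn : n ≤ κ * n := Nat.le_mul_of_pos_left _ hκ
  obtain ⟨a, ha, h1, h2⟩ := exists_pow (n := κ * n) (by omega) (B := 1 / 2) h.lo h.hi le_rfl (by
      have : (5 : ℝ) ≤ ((κ * n : ℕ) : ℝ) := by exact_mod_cast (by omega : 5 ≤ κ * n)
      linarith)
  refine ⟨a, ha, ?_, by linarith, ?_⟩
  · by_contra hcon
    have h3 : a + 1 ≤ 8 * (κ * n) - 1 := by omega
    have h4 : (2 : ℝ) ^ a * (law none / 2 ^ (4 * n) + law (some true)) ≤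
        2 ^ a * (1 / 2 ^ (8 * (κ * n))) := mul_le_mul_of_nonneg_left h.hi (by positivity)
    have h5 : (2 : ℝ) ^ a * (1 / 2 ^ (8 * (κ * n))) < 1 / 2 := by
      rw [mul_one_div, div_lt_div_iff₀ (by positivity) (by norm_num)]
      calc (2 : ℝ) ^ a * 2 = 2 ^ (a + 1) := by rw [pow_succ]
        _ < 2 ^ (8 * (κ * n)) := pow_lt_pow_right₀ (by norm_num) (by omega)
        _ = 1 * 2 ^ (8 * (κ * n)) := by ring
    linarith
  intro X _ _ D g hD hg
  have hT : (64 : ℕ) ≤ 2 ^ (4 * n) := by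
    calc 64 = 2 ^ 6 := by norm_num
      _ ≤ 2 ^ (4 * n) := Nat.pow_le_pow_right (by norm_num) (by omega)
  have h16 : 16 ∣ 2 ^ (4 * n) := by
    have : (16 : ℕ) = 2 ^ 4 := by norm_num
    rw [this]
    exact pow_dvd_pow 2 (by omega)
  have hc : (((2 ^ (4 * n) : ℕ)) : ℝ) = 2 ^ (4 * n) := by push_cast; rfl
  have hc2 : (((2 ^ a : ℕ)) : ℝ) = 2 ^ a := by push_cast; rfl
  have hgp := good_prob (c := 2 ^ a) (D := D) (T := 2 ^ (4 * n)) (ξ := 1 / 2 ^ (2 * n)) hT h16 hD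
    (by positivity) h2n (law := law) h.nonneg h.sum (by rw [hc]; exact h.rare)
    (by rw [hc, hc2]; exact h1) (by rw [hc, hc2]; linarith)
  rw [hc] at hgp
  exact few_good (X := X) (c := 2 ^ a) h.nonneg h.sum hgp hg

/-- the sizes of the levels -/
theorem sizesK {n κ : ℕ} (hn : 5 ≤ n) (hκ : 1 ≤ κ) (hκn : κ ≤ n) : ∀ (k : ℕ)
    (law : Option Bool → ℝ) (P : ℝ), Inv n law → law none / 2 ^ (4 * n) + law (some true) = P →
    ∃ (as : List ℕ) (a : ℕ), as.length = k + 1 ∧ (∀ b ∈ as, b ≤ 64 * n) ∧ a ≤ 64 * (κ * n) ∧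
      8 * (κ * n) ≤ a + 1 ∧ (2 : ℝ) ^ a * prT P (pw as) < 1 ∧
      ∀ (X : Type) [Fintype X] [DecidableEq X] (D g : ℕ), 16 * D ≤ 2 ^ (4 * n) →
        4 * g ≤ Fintype.card X →
        Ex law (Wt (X := X) (1 / 2 ^ (4 * n)) (1 / 2 ^ (2 * n)) (8 * n * 2 ^ (4 * n)) (1 / 256) D g
          (pw (as ++ [a]))) ≤ (9 / 10) ^ Fintype.card X := by
  classical
  have hn5 : (5 : ℝ) ≤ n := by exact_mod_cast hn
  intro k
  induction k with
  | zero =>
    intro law P hinv hP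
    have hp0 : 0 < law none / 2 ^ (4 * n) + law (some true) :=
      lt_of_lt_of_le (Real.exp_pos _) hinv.lo
    -- the size of the unlikely level
    obtain ⟨b, hb, h1, h2⟩ : ∃ b : ℕ, b ≤ 64 * n ∧
        16 * ((κ * n : ℕ) : ℝ) ≤ (2 : ℝ) ^ b * (law none / 2 ^ (4 * n) + law (some true)) ∧
        (2 : ℝ) ^ b * (law none / 2 ^ (4 * n) + law (some true)) < 32 * ((κ * n : ℕ) : ℝ) := by
      obtain ⟨a, ha, h1, h2⟩ := exists_pow hn (B := 16 * n) hinv.lo hinv.hi (by linarith) le_rfl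
      set p := law none / 2 ^ (4 * n) + law (some true) with hp
      have hex : ∃ b : ℕ, 16 * ((κ * n : ℕ) : ℝ) ≤ (2 : ℝ) ^ b * p := by
        obtain ⟨b, hb⟩ := pow_unbounded_of_one_lt (16 * ((κ * n : ℕ) : ℝ) / p)
          (by norm_num : (1 : ℝ) < 2)
        exact ⟨b, by rw [div_lt_iff₀ hp0] at hb; exact hb.le⟩
      have hs := Nat.find_spec hex
      have hm := fun m hm => Nat.find_min hex (m := m) hm
      set b := Nat.find hex with hb
      have hκn2 : (5 : ℝ) ≤ ((κ * n : ℕ) : ℝ) := by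
        have : n ≤ κ * n := Nat.le_mul_of_pos_left _ hκ
        exact_mod_cast (by omega : 5 ≤ κ * n)
      have hhi : p < 1 := by
        refine lt_of_le_of_lt hinv.hi ?_
        rw [div_lt_one (by positivity)]
        exact one_lt_pow₀ (by norm_num) (by omega)
      have hb1 : 1 ≤ b := by
        rcases Nat.eq_zero_or_pos b with h0 | h0
        · rw [h0] at hs
          simp only [pow_zero, one_mul] at hs
          linarith
        · exact h0
      obtain ⟨b', hb'⟩ : ∃ b', b = b' + 1 := ⟨b - 1, by omega⟩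
      have hb2 : (2 : ℝ) ^ b' * p < 16 * ((κ * n : ℕ) : ℝ) := not_le.mp (hm b' (by omega))
      have h2b : (2 : ℝ) ^ b * p < 32 * ((κ * n : ℕ) : ℝ) := by
        rw [hb', pow_succ]; nlinarith
      refine ⟨b, ?_, hs, h2b⟩
      by_contra hcon
      have hcon2 : 64 * n ≤ b := by omega
      have h64 : (2 : ℝ) ^ (64 * n) ≤ 2 ^ b := pow_le_pow_right₀ (by norm_num) hcon2
      have hexp : Real.exp (-(36 * n)) = 1 / Real.exp (36 * n) := by
        rw [Real.exp_neg]; simp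
      have hp2 : 1 / (2 : ℝ) ^ (52 * n) ≤ p := by
        calc 1 / (2 : ℝ) ^ (52 * n) ≤ 1 / Real.exp (36 * n) :=
              one_div_le_one_div_of_le (Real.exp_pos _) (exp36_le n)
          _ = Real.exp (-(36 * n)) := hexp.symm
          _ ≤ p := hinv.lo
      have h12 : (2 : ℝ) ^ (12 * n) ≤ 2 ^ b * p := by
        calc (2 : ℝ) ^ (12 * n) = 2 ^ (64 * n) * (1 / 2 ^ (52 * n)) := by
              rw [mul_one_div, eq_div_iff (by positivity), ← pow_add]
              congr 1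
              ring
          _ ≤ 2 ^ b * p := by
              apply mul_le_mul h64 hp2 (by positivity) (by positivity)
      have hn2 : (32 : ℝ) * ((κ * n : ℕ) : ℝ) ≤ 2 ^ (12 * n) := by
        have h3 : (n : ℝ) ≤ 2 ^ n := by
          exact_mod_cast (Nat.lt_two_pow_self (n := n)).le
        have h4 : ((κ * n : ℕ) : ℝ) ≤ n * n := by
          push_cast
          have : (κ : ℝ) ≤ n := by exact_mod_cast hκn
          nlinarith
        calc (32 : ℝ) * ((κ * n : ℕ) : ℝ) ≤ 2 ^ 5 * (2 ^ n * 2 ^ n) := by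
              have : (32 : ℝ) = 2 ^ 5 := by norm_num
              rw [this]
              refine mul_le_mul_of_nonneg_left (h4.trans ?_) (by positivity)
              exact mul_le_mul h3 h3 (by positivity) (by positivity)
          _ = 2 ^ (5 + (n + n)) := by rw [pow_add, pow_add]
          _ ≤ 2 ^ (12 * n) := pow_le_pow_right₀ (by norm_num) (by omega)
      linarith
    have hc2 : (((2 ^ b : ℕ)) : ℝ) = 2 ^ b := by push_cast; rfl
    obtain ⟨hinv', hp'⟩ := inv_stepK (c := 2 ^ b) hn hκ hinv (by rw [hc2]; exact h1)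
      (by rw [hc2]; exact h2)
    obtain ⟨a, ha1, ha2, ha3, hX⟩ := top_size hn hκ hinv'
    refine ⟨[b], a, rfl, by simpa using hb, ha1, ha2, ?_, ?_⟩
    · rw [hp', hP] at ha3
      exact ha3
    · intro X _ _ D g hD hg
      refine le_trans (le_of_eq ?_) (hX X D g hD hg)
      have hne : pw [a] ≠ [] := by simp [pw]
      rw [← law_stage (G := Idx X (pw [a])) (c := 2 ^ b) (smin := 8 * n * 2 ^ (4 * n))
        (t := 1 / 2 ^ (4 * n)) (t' := 1 / 2 ^ (4 * n)) (ξ := 1 / 2 ^ (2 * n)) law]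
      show Ex law (Wt (X := X) _ _ _ _ D g (2 ^ b :: pw [a])) = _
      unfold Ex
      refine Finset.sum_congr rfl fun s _ => ?_
      rw [Wt_two _ _ _ _ _ _ _ _ hne]
      rfl
  | succ k ih =>
    intro law P hinv hP
    obtain ⟨b, hb, h1, h2⟩ := exists_pow hn (B := 16 * n) hinv.lo hinv.hi (by linarith) le_rfl
    have hc2 : (((2 ^ b : ℕ)) : ℝ) = 2 ^ b := by push_cast; rfl
    have hinv' := inv_step (c := 2 ^ b) hn hinv (by rw [hc2]; exact h1)
      (by rw [hc2]; linarith)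
    have ht0 : (0 : ℝ) < 1 / 2 ^ (4 * n) := by positivity
    have ht1 : (1 : ℝ) / 2 ^ (4 * n) < 1 := by
      rw [div_lt_one (by positivity)]
      exact one_lt_pow₀ (by norm_num) (by omega)
    have hs : 1 ≤ 8 * n * 2 ^ (4 * n) := Nat.mul_pos (by omega) (by positivity)
    have hp' : nxt (1 / 2 ^ (4 * n)) (1 / 2 ^ (4 * n)) (1 / 2 ^ (2 * n)) (8 * n * 2 ^ (4 * n))
        (2 ^ b) law none / 2 ^ (4 * n) +
        nxt (1 / 2 ^ (4 * n)) (1 / 2 ^ (4 * n)) (1 / 2 ^ (2 * n)) (8 * n * 2 ^ (4 * n)) (2 ^ b)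
        law (some true) = (1 - P) ^ (2 ^ b) := by
      have e := nxt_p (c := 2 ^ b) (ξ := 1 / 2 ^ (2 * n)) ht0 ht1 ht0 hs hinv.sum
      rw [one_div_mul_eq_div, one_div_mul_eq_div, hP] at e
      exact e
    obtain ⟨as, a, hlen, has, ha1, ha2, ha3, hX⟩ := ih _ _ hinv' hp'
    refine ⟨b :: as, a, by simp [hlen], ?_, ha1, ha2, ha3, ?_⟩
    · intro a' ha'
      rcases List.mem_cons.1 ha' with rfl | h
      · exact hb
      · exact has a' h
    · intro X _ _ D g hD hg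
      refine le_trans (le_of_eq ?_) (hX X D g hD hg)
      have hne : pw (as ++ [a]) ≠ [] := by simp [pw]
      rw [← law_stage (G := Idx X (pw (as ++ [a]))) (c := 2 ^ b) (smin := 8 * n * 2 ^ (4 * n))
        (t := 1 / 2 ^ (4 * n)) (t' := 1 / 2 ^ (4 * n)) (ξ := 1 / 2 ^ (2 * n)) law]
      show Ex law (Wt (X := X) _ _ _ _ D g (2 ^ b :: pw (as ++ [a]))) = _
      unfold Ex
      refine Finset.sum_congr rfl fun s _ => ?_
      rw [Wt_two _ _ _ _ _ _ _ _ hne]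
      rfl

end Pool.Agent.Y626.WR
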