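import Pool.Agent.Y626.WR.Sw1
import Pool.Agent.Y626.WR.SizesK

/-!
# The average-case hierarchy for fair bits and formulas with bounded bottom fan-in
-/

set_option autoImplicit false

namespace Pool.Agent.Y626.WR

open Finset H568R2 Pool.Agent.H676 Pool.Agent.H620R2.Gauge Pool.Agent.NPC Pool.Agent.H591R3.PHG

theorem first_level {X : Type} [Fintype X] [DecidableEq X] {n u D g w r₀ : ℕ} (hn : 5 ≤ n)
    (hu : 8 * u ≤ n) (hw : 8 * n ≤ w) (hr : 1 ≤ r₀) (hr0 : 16 * r₀ * 2 ^ r₀ ≤ 2 ^ n)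
    (hD : 2 ^ (2 * u) * Fintype.card X ≤ D) (k : ℕ) (cs : List ℕ)
    (hcs : cs.length = k + 1) (m ℓ : ℕ) (F : List Bool → (Idx X (w :: cs) → Bool) → Bool)
    (hF : ∀ y : List Bool, y.length ≤ ℓ + (k + 1) * (2 * m + 1) → DTr r₀ (F y))
    (y : X → List Bool) (hy : ∀ j, (y j).length ≤ ℓ) (b : Bool) :
    Ms (1 / 2) (w :: cs) (fun _ => none) (fun j => QF m F (k + 1) b (y j)) ≤
      2 ^ (ℓ + k * (2 * m + 1) + 2) * (1 / 2) ^ (2 ^ (2 * u) + 1) +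
      (k * (2 ^ (ℓ + k * (2 * m + 1) + 2) * (1 / 2) ^ (2 ^ (2 * u) + 1)) +
      (1 - 1 / 256) ^ g * (1 + 2 * (1 / 2 ^ (4 * n))) ^ D) +
      Ex (nxt (1 / 2) (1 / 2 ^ (4 * n)) (1 / 2 ^ (2 * n)) w w law0)
        (Wt (X := X) (1 / 2 ^ (4 * n)) (1 / 2 ^ (2 * n)) (8 * n * 2 ^ (4 * n)) (1 / 256) D g
          cs) := by
  classical
  set t : ℝ := 1 / 2 ^ (4 * n) with ht
  set ξ : ℝ := 1 / 2 ^ (2 * n) with hξ
  set smin : ℕ := 8 * n * 2 ^ (4 * n) with hsmin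
  set r : ℕ := 2 ^ (2 * u) with hr'
  have ht0 : 0 < t := by positivity
  have ht1' : t ≤ 1 := by
    rw [ht, div_le_one (by positivity)]
    exact one_le_pow₀ (by norm_num)
  have ht1 : t < 1 := by
    rw [ht, div_lt_one (by positivity)]
    exact one_lt_pow₀ (by norm_num) (by omega)
  have hξ0 : 0 < ξ := by positivity
  have hξ1 : ξ ≤ 1 := by
    rw [hξ, div_le_one (by positivity)]
    exact one_le_pow₀ (by norm_num)
  have hs1 : 1 ≤ smin := by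
    rw [hsmin]
    have : 0 < 8 * n * 2 ^ (4 * n) := by positivity
    omega
  have hw1 : 1 ≤ w := by omega
  have hhalf : (1 - 1 / 2 : ℝ) = 1 / 2 := by norm_num
  have hlam : (1 - 1 / 2 : ℝ) ^ w / t ≤ 1 / 2 ^ (4 * n) := by
    rw [hhalf, div_le_iff₀ ht0, ht, one_div_pow, div_mul_div_comm, one_mul, ← pow_add]
    apply one_div_le_one_div_of_le (by positivity)
    exact pow_le_pow_right₀ (by norm_num) (by omega)
  have hlam4 : (1 : ℝ) / 2 ^ (4 * n) ≤ 1 / 4 := by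
    apply one_div_le_one_div_of_le (by norm_num)
    calc (4 : ℝ) = 2 ^ 2 := by norm_num
      _ ≤ 2 ^ (4 * n) := pow_le_pow_right₀ (by norm_num) (by omega)
  have hcond : (1 - ξ) * (1 - 1 / 2 : ℝ) ^ w / t + ξ * (1 - 1 / 2 : ℝ) ^ w ≤ 1 := by
    have h1 : (1 - 1 / 2 : ℝ) ^ w / t ≤ 1 / 4 := hlam.trans hlam4
    have h2 : (1 - 1 / 2 : ℝ) ^ w ≤ 1 / 4 := by
      have h3 : (1 - 1 / 2 : ℝ) ^ w ≤ 1 / 4 * t := (div_le_iff₀ ht0).1 h1
      nlinarith
    have h0 : 0 ≤ (1 - 1 / 2 : ℝ) ^ w := pow_nonneg (by norm_num) _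
    have h5 : 0 ≤ (1 - 1 / 2 : ℝ) ^ w / t := by positivity
    have h3 : (1 - ξ) * (1 - 1 / 2 : ℝ) ^ w / t ≤ (1 - 1 / 2 : ℝ) ^ w / t := by
      rw [mul_div_assoc]
      nlinarith
    have h4 : ξ * (1 - 1 / 2 : ℝ) ^ w ≤ (1 - 1 / 2 : ℝ) ^ w := by nlinarith
    linarith
  have hx : 16 * (r₀ : ℝ) * 2 ^ r₀ * (1 / 2 ^ (4 * n) / ξ) ≤ 1 / 2 := by
    have e1 : (1 : ℝ) / 2 ^ (4 * n) / ξ = 1 / 2 ^ (2 * n) := by
      have e0 : (2 : ℝ) ^ (4 * n) = 2 ^ (2 * n) * 2 ^ (2 * n) := by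
        rw [← pow_add]; congr 1; ring
      rw [hξ, e0]
      field_simp
    rw [e1, mul_one_div, div_le_div_iff₀ (by positivity) (by norm_num)]
    have e2 : (16 * (r₀ : ℝ) * 2 ^ r₀) ≤ 2 ^ n := by exact_mod_cast hr0
    calc 16 * (r₀ : ℝ) * 2 ^ r₀ * 2 ≤ 2 ^ n * 2 := by linarith
      _ = 2 ^ (n + 1) := by rw [pow_succ]
      _ ≤ 2 ^ (2 * n) := pow_le_pow_right₀ (by norm_num) (by omega)
      _ = 1 * 2 ^ (2 * n) := by ring
  set s0 : Idx X (w :: cs) → Option Bool := fun _ => none with hs0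
  rw [Ms_stage (t := 1 / 2) (t' := t) (ξ := ξ) (smin := w) (by norm_num) (by norm_num) ht0 hw1
    cs s0]
  have hℓ : ℓ + (k + 1) * (2 * m + 1) = ℓ + k * (2 * m + 1) + (2 * m + 1) := by ring
  have hsw := stage_switch1 (G := Idx X cs) (c := w) (smin := w) (r := r₀) (r' := r) (t := 1 / 2)
    (t' := t) (ξ := ξ) (lam := 1 / 2 ^ (4 * n)) (by norm_num) le_rfl ht0 ht1' hξ0 hξ1 hlam hlam4
    hw1 hr s0 m (ℓ + k * (2 * m + 1)) F (fun y' hy' => hF y' (by rw [hℓ]; exact hy'))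
  set bad : (Idx X cs → St w) → Prop := fun ρ => ¬ ∀ y : List Bool,
    y.length ≤ ℓ + k * (2 * m + 1) → ∀ b,
    DTr r (fun z : Idx X cs → Bool => QF m F 1 b y (XX s0 ρ z)) with hbad
  have hnn : ∀ ρ : Idx X cs → St w, 0 ≤ Pool.Agent.H591R3.PHG.wt (G := Idx X cs) (1 / 2) t ξ w s0 ρ :=
    fun ρ => wt_nonneg (by norm_num) (by norm_num) ht0 hξ0.le hξ1 hw1 hcond s0 ρ
  set E : ℝ := k * (2 ^ (ℓ + k * (2 * m + 1) + 2) * (1 / 2) ^ (r + 1)) +
      (1 - 1 / 256) ^ g * (1 + 2 * t) ^ D with hE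
  have hE0 : 0 ≤ E := by positivity
  set W := Wt (X := X) t ξ smin (1 / 256) D g cs with hW
  have hcond2 : (1 - ξ) * (1 - t) ^ smin / t + ξ * (1 - t) ^ smin ≤ 1 := by
    obtain ⟨hl1, _, _⟩ := lam_bound hn hu
    have h1 : (1 - t) ^ smin / t ≤ 1 / 4 := by
      refine hl1.trans ?_
      apply one_div_le_one_div_of_le (by norm_num)
      calc (4 : ℝ) = 2 ^ 2 := by norm_num
        _ ≤ 2 ^ (6 * n) := pow_le_pow_right₀ (by norm_num) (by omega)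
    have h2 : (1 - t) ^ smin ≤ 1 / 4 := by
      have h3 : (1 - t) ^ smin ≤ 1 / 4 * t := (div_le_iff₀ ht0).1 h1
      nlinarith
    have h0 : 0 ≤ (1 - t) ^ smin := pow_nonneg (by linarith) _
    have h5 : 0 ≤ (1 - t) ^ smin / t := by positivity
    have h3 : (1 - ξ) * (1 - t) ^ smin / t ≤ (1 - t) ^ smin / t := by
      rw [mul_div_assoc]
      nlinarith
    have h4 : ξ * (1 - t) ^ smin ≤ (1 - t) ^ smin := by nlinarith
    linarith
  have hterm : ∀ ρ : Idx X cs → St w,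
      Pool.Agent.H591R3.PHG.wt (G := Idx X cs) (1 / 2) t ξ w s0 ρ *
        Ms t cs (fun h => (ρ h).1) (fun j z => QF m F (k + 1) b (y j) (XX (G := Idx X cs) s0 ρ z)) ≤
      Pool.Agent.H591R3.PHG.wt (G := Idx X cs) (1 / 2) t ξ w s0 ρ * (if bad ρ then (1 : ℝ) else 0) +
      Pool.Agent.H591R3.PHG.wt (G := Idx X cs) (1 / 2) t ξ w s0 ρ * E +
        Pool.Agent.H591R3.PHG.wt (G := Idx X cs) (1 / 2) t ξ w s0 ρ * W (fun h => (ρ h).1) := by
    intro ρ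
    rw [← mul_add, ← mul_add]
    apply mul_le_mul_of_nonneg_left _ (hnn ρ)
    by_cases hb : bad ρ
    · rw [if_pos hb]
      have h3 := Ms_le_one (X := X) ht0.le ht1.le cs (fun h => (ρ h).1)
        (fun j z => QF m F (k + 1) b (y j) (XX (G := Idx X cs) s0 ρ z))
      have h4 : 0 ≤ W (fun h : Idx X cs => (ρ h).1) :=
        Wt_nonneg ht0 ht1 hξ0.le hξ1 hs1 hcond2 cs _
      linarith
    · rw [if_neg hb, zero_add]
      have hgood : ∀ y : List Bool, y.length ≤ ℓ + k * (2 * m + 1) → ∀ b,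
        DTr r (fun z : Idx X cs → Bool => QF m F 1 b y (XX s0 ρ z)) := not_not.1 hb
      have h5 := main_ind hn hu hD k cs hcs (fun h => (ρ h).1) m ℓ
        (fun y' z => QF m F 1 (bot b k) y' (XX (G := Idx X cs) s0 ρ z))
        (fun y' hy' => hgood y' hy' _) y hy b (g := g)
      refine le_trans (le_of_eq ?_) h5
      congr 1
      funext j z
      rw [QF_peel, QF_comp m (fun y' => QF m F 1 (bot b k) y') (XX (G := Idx X cs) s0 ρ)]
  refine (Finset.sum_le_sum fun ρ _ => hterm ρ).trans ?_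
  rw [Finset.sum_add_distrib, Finset.sum_add_distrib, ← Finset.sum_mul,
    wt_sum (by norm_num) (by norm_num) ht0 hw1 s0, one_mul]
  have h8 := law_stage (G := Idx X cs) (c := w) (smin := w) (t := 1 / 2) (t' := t) (ξ := ξ)
    law0 W
  rw [Ex_law0] at h8
  rw [← h8]
  have h9 : ∑ ρ : Idx X cs → St w, Pool.Agent.H591R3.PHG.wt (G := Idx X cs) (1 / 2) t ξ w s0 ρ *
      (if bad ρ then (1 : ℝ) else 0) ≤
      2 ^ (ℓ + k * (2 * m + 1) + 2) * (1 / 2) ^ (r + 1) := by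
    refine le_trans (le_of_eq (Finset.sum_congr rfl fun ρ _ => ?_)) (hsw.trans ?_)
    · exact congrArg (fun q => Pool.Agent.H591R3.PHG.wt (G := Idx X cs) (1 / 2) t ξ w s0 ρ * q)
        (if_congr Iff.rfl rfl rfl)
    · apply mul_le_mul_of_nonneg_left _ (by positivity)
      exact pow_le_pow_left₀ (by positivity) hx _
  have h10 : ∑ ρ : Idx X cs → St w, Pool.Agent.H591R3.PHG.wt (G := Idx X cs) (1 / 2) t ξ w s0 ρ *
      W (fun h => (ρ h).1) = ∑ ρ : Idx X cs → St w,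
      Pool.Agent.H591R3.PHG.wt (G := Idx X cs) (1 / 2) t ξ w (fun _ => none) ρ *
      W (fun g => (ρ g).1) := rfl
  rw [h10]
  exact add_le_add_left (add_le_add_left h9 E) _

end Pool.Agent.Y626.WR
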