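import Pool.Agent.Y626.WR.Tree

/-!
# The hard instances for random oracles
-/

set_option autoImplicit false

namespace Pool.Agent.Y626.WR

open Pool.Agent.NPC Pool.Agent.H620R2.Gauge Pool.Agent.TH678.GC Pool.Agent.H591R3.PHG
  Pool.Agent.Y626.WG

/-- all the vectors of bits of length `n` -/
def vecs (n : ℕ) : List (List Bool) := (List.range (2 ^ n)).map (bitsOf n)

theorem exists_bitsOf : ∀ (n : ℕ) (x : List Bool), x.length = n → ∃ i < 2 ^ n, bitsOf n i = x
  | 0, x, h => ⟨0, by simp, (List.eq_nil_of_length_eq_zero h).symm⟩
  | n + 1, [], h => by simp at h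
  | n + 1, b :: x, h => by
    obtain ⟨i, hi, hx⟩ := exists_bitsOf n x (by simpa using h)
    refine ⟨2 * i + (if b then 1 else 0), ?_, ?_⟩
    · rw [pow_succ]
      split_ifs <;> omega
    · show ((2 * i + (if b then 1 else 0)) % 2 == 1) ::
        bitsOf n ((2 * i + (if b then 1 else 0)) / 2) = b :: x
      have h1 : (2 * i + (if b then 1 else 0)) / 2 = i := by split_ifs <;> omega
      rw [h1, hx]
      congr 1
      cases b with
      | true => simp
      | false => simp

theorem mem_vecs {n : ℕ} {x : List Bool} : x ∈ vecs n ↔ x.length = n := by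
  unfold vecs
  rw [List.mem_map]
  constructor
  · rintro ⟨i, _, rfl⟩
    exact length_bitsOf _ _
  · intro h
    obtain ⟨i, hi, hx⟩ := exists_bitsOf n x h
    exact ⟨i, List.mem_range.2 hi, hx⟩

/-- the accepted vectors -/
def accd (e : Bool) (k : ℕ) : List Bool → Bool
  | [] => false
  | a :: rs => (rs.take k).all id && rel e false (rs.drop k) a

/-- the hard instance number `j`; the quantifiers are restricted by the numbers `Cs` -/
def hardR (k t c ν : ℕ) (Cs : List ℕ) (j : ℕ) : Inst where
  labels := (List.range (2 ^ ν)).map (lab c ν j)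
  rels := Cs.map fun C => (List.range C).map fun a => (a, a)
  blocks := k :: List.replicate t 1
  atoms := (0, List.range (k + t)) :: (List.range (k + t)).map fun i => (i + 1, [i, i])
  acc := (vecs (k + t + 1)).filter (accd (!(fl t false)) k)

theorem hardR_isW (k t c ν : ℕ) (Cs : List ℕ) (j : ℕ) : (hardR k t c ν Cs j).IsW (t + 1) := by
  refine ⟨⟨?_, ?_⟩, ?_⟩
  · show (List.range (2 ^ ν)).map (lab c ν j) ≠ []
    intro h
    have h1 := congrArg List.length h
    rw [List.length_map, List.length_range, List.length_nil] at h1
    have : 0 < 2 ^ ν := by positivity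
    omega
  · show (k :: List.replicate t 1).length ≤ t + 1
    rw [List.length_cons, List.length_replicate]
  · intro s hs
    exact (List.eq_of_mem_replicate hs).le

theorem hardR_param (k t c ν : ℕ) (Cs : List ℕ) (j : ℕ) :
    (hardR k t c ν Cs j).param = 5 * (k + t) + 1 := by
  show (k :: List.replicate t 1).sum +
    (((0, List.range (k + t)) :: (List.range (k + t)).map fun i => (i + 1, [i, i]) :
      List (ℕ × List ℕ)).map fun p => p.2.length + 1).sum = _
  rw [List.sum_cons, List.sum_replicate, List.map_cons, List.sum_cons, List.map_map]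
  have h1 : ((List.range (k + t)).map ((fun p : ℕ × List ℕ => p.2.length + 1) ∘
      fun i => (i + 1, [i, i]))) = (List.range (k + t)).map fun _ => 3 :=
    List.map_congr_left fun i _ => rfl
  rw [h1]
  simp
  ring

/-- the position of the bit for the tuple `v` -/
def ps (c ν j : ℕ) (v : List ℕ) : List Bool := (v.flatMap (lab c ν j)).tail

theorem flat_eq {c ν j : ℕ} {v : List ℕ} (hv : v ≠ []) :
    v.flatMap (lab c ν j) = false :: ps c ν j v := by
  rcases v with _ | ⟨a, v⟩
  · exact absurd rfl hv
  · unfold ps
    rw [List.flatMap_cons]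
    unfold lab
    rfl

theorem ps_inj {c ν r : ℕ} {v v' : List ℕ} {j j' : ℕ} (hr : 1 ≤ r) (hv : Tup (2 ^ ν) r v)
    (hv' : Tup (2 ^ ν) r v') (hj : j < 2 ^ c) (hj' : j' < 2 ^ c)
    (h : ps c ν j v = ps c ν j' v') : j = j' ∧ v = v' := by
  have h1 : v ≠ [] := by
    rintro rfl
    have := hv.1
    simp at this
    omega
  have h2 : v' ≠ [] := by
    rintro rfl
    have := hv'.1
    simp at this
    omega
  refine flat_inj hr hv hv' hj hj' ?_
  rw [flat_eq h1, flat_eq h2, h]

theorem length_ps (c ν j : ℕ) (v : List ℕ) :
    (ps c ν j v).length = v.length * (1 + c + ν) - 1 := by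
  unfold ps
  rw [List.length_tail, length_flat]

/-- the truth value of the matrix -/
theorem matrixR {A E : Oracle} {k t c ν j : ℕ} {tops inner : List ℕ} (ht : tops.length = k)
    (hi : inner.length = t) (hk : 1 ≤ k) (hN : ∀ C ∈ tops ++ inner, C ≤ 2 ^ ν) (x y : List ℕ)
    (hx : Tup (2 ^ ν) k x) (hy : Tup (2 ^ ν) t y) :
    (hardR k t c ν (tops ++ inner) j).atoms.map
      ((hardR k t c ν (tops ++ inner) j).atom (join A E) (x ++ y)) ∈
        (hardR k t c ν (tops ++ inner) j).acc ↔
      List.Forall₂ (· < ·) x tops ∧
        rel (!(fl t false)) false (lts inner y) (A (ps c ν j (x ++ y))) = true := by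
  set v := x ++ y with hv
  have hvT : Tup (2 ^ ν) (k + t) v := hx.append hy
  have hvne : v ≠ [] := by
    intro h
    have := hvT.1
    rw [h, List.length_nil] at this
    omega
  have e1 : (hardR k t c ν (tops ++ inner) j).atom (join A E) v (0, List.range (k + t)) =
      A (ps c ν j v) := by
    show join A E ((List.range (k + t)).flatMap
      (fun i => (hardR k t c ν (tops ++ inner) j).labels.getD (v.getD i 0) [])) = _
    have h1 := query (k := k) (t := t) (c := c) (ν := ν) (j := j) hvT
    have h2 : (List.range (k + t)).flatMap
      (fun i => (hardR k t c ν (tops ++ inner) j).labels.getD (v.getD i 0) []) =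
      v.flatMap (lab c ν j) := h1
    rw [h2, flat_eq hvne]
    rfl
  have hlen : (lts (tops ++ inner) v).length = k + t := by
    have : ∀ (cs a : List ℕ), a.length = cs.length → (lts cs a).length = cs.length := by
      intro cs
      induction cs with
      | nil => intro a _; cases a <;> rfl
      | cons c cs ih =>
        intro a ha
        rcases a with _ | ⟨b, a⟩
        · simp at ha
        · rw [lts, List.length_cons, List.length_cons, ih a (by simpa using ha)]
    rw [this _ _ (by rw [hvT.1, List.length_append, ht, hi]), List.length_append, ht, hi]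
  have e2 : (List.range (k + t)).map (fun i => (hardR k t c ν (tops ++ inner) j).atom (join A E) v
      (i + 1, [i, i])) = lts (tops ++ inner) v := by
    apply List.ext_getElem
    · rw [List.length_map, List.length_range, hlen]
    · intro i h1 h2
      rw [List.length_map, List.length_range] at h1
      rw [List.getElem_map, List.getElem_range]
      show decide ((v.getD i 0, v.getD i 0) ∈ (hardR k t c ν (tops ++ inner) j).rels.getD i []) = _
      have h3 : i < v.length := by rw [hvT.1]; exact h1
      have h4 : i < (tops ++ inner).length := by rw [List.length_append, ht, hi]; exact h1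
      have e3 : (hardR k t c ν (tops ++ inner) j).rels.getD i [] =
          (List.range ((tops ++ inner)[i])).map fun a => (a, a) := by
        show ((tops ++ inner).map fun C => (List.range C).map fun a => (a, a)).getD i [] = _
        rw [List.getD_eq_getElem _ _ (by rw [List.length_map]; exact h4), List.getElem_map]
      have e4 : ∀ (cs a : List ℕ) (i : ℕ) (h : i < (lts cs a).length) (h1 : i < cs.length)
          (h2 : i < a.length), (lts cs a)[i] = decide (a[i] < cs[i]) := by
        intro cs
        induction cs with
        | nil => intro a i _ h1 _; simp at h1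
        | cons c cs ih =>
          intro a i h h1 h2
          rcases a with _ | ⟨b, a⟩
          · simp at h2
          · rcases i with _ | i
            · rfl
            · show (lts cs a)[i]'_ = decide (a[i]'_ < cs[i]'_)
              exact ih a i _ _ _
      rw [e3, e4 _ _ i h2 h4 h3, List.getD_eq_getElem _ _ h3]
      refine decide_eq_decide.2 ?_
      rw [List.mem_map]
      constructor
      · rintro ⟨a, ha, hae⟩
        rw [List.mem_range] at ha
        have : a = v[i] := (Prod.mk.inj hae).1
        omega
      · intro h5
        exact ⟨v[i], List.mem_range.2 h5, rfl⟩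
  have e3 : (hardR k t c ν (tops ++ inner) j).atoms.map
      ((hardR k t c ν (tops ++ inner) j).atom (join A E) v) =
      A (ps c ν j v) :: lts (tops ++ inner) v := by
    show ((0, List.range (k + t)) :: (List.range (k + t)).map fun i => (i + 1, [i, i]) :
      List (ℕ × List ℕ)).map ((hardR k t c ν (tops ++ inner) j).atom (join A E) v) = _
    rw [List.map_cons, List.map_map, e1]
    congr 1
  have e5 : ∀ (cs ds a b : List ℕ), a.length = cs.length →
      lts (cs ++ ds) (a ++ b) = lts cs a ++ lts ds b := by
    intro cs
    induction cs with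
    | nil =>
      intro ds a b h
      have : a = [] := List.eq_nil_of_length_eq_zero h
      subst this
      rfl
    | cons c cs ih =>
      intro ds a b h
      rcases a with _ | ⟨a0, a⟩
      · simp at h
      · rw [List.cons_append, List.cons_append, lts, lts, ih ds a b (by simpa using h)]
        rfl
  have e6 : (lts tops x).length = k := by
    have h7 := hlen
    rw [hv, e5 tops inner x y (by rw [hx.1, ht]), List.length_append] at h7
    have h8 : (lts inner y).length = t := by
      have : ∀ (cs a : List ℕ), a.length = cs.length → (lts cs a).length = cs.length := by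
        intro cs
        induction cs with
        | nil => intro a _; cases a <;> rfl
        | cons c cs ih =>
          intro a ha
          rcases a with _ | ⟨b, a⟩
          · simp at ha
          · rw [lts, List.length_cons, List.length_cons, ih a (by simpa using ha)]
      rw [this _ _ (by rw [hy.1, hi]), hi]
    omega
  rw [e3]
  show _ ∈ (vecs (k + t + 1)).filter (accd (!(fl t false)) k) ↔ _
  rw [List.mem_filter, mem_vecs, List.length_cons, hlen]
  have e7 : accd (!(fl t false)) k (A (ps c ν j v) :: lts (tops ++ inner) v) =
      ((lts tops x).all id && rel (!(fl t false)) false (lts inner y) (A (ps c ν j v))) := by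
    show (((lts (tops ++ inner) v).take k).all id && rel (!(fl t false)) false
      ((lts (tops ++ inner) v).drop k) (A (ps c ν j v))) = _
    rw [hv, e5 tops inner x y (by rw [hx.1, ht])]
    have e8 : (lts tops x ++ lts inner y).take k = lts tops x := by
      rw [← e6]; exact List.take_left
    have e9 : (lts tops x ++ lts inner y).drop k = lts inner y := by
      rw [← e6]; exact List.drop_left
    rw [e8, e9]
  rw [e7, Bool.and_eq_true, lts_all tops x (by rw [hx.1, ht])]
  constructor
  · rintro ⟨_, h⟩
    exact h
  · intro h
    exact ⟨rfl, h⟩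

/-- the value of the block with the top tuple `x` in the instance number `j` -/
def vl (c ν : ℕ) (inner : List ℕ) (b : ℕ × List ℕ) (A : Oracle) : Bool :=
  treeL inner fun y => A (ps c ν b.1 (b.2 ++ y))

/-- the truth of the hard instances -/
theorem hardR_sat {A E : Oracle} {k t c ν j : ℕ} {tops inner : List ℕ} (ht : tops.length = k)
    (hi : inner.length = t) (hk : 1 ≤ k) (hN : ∀ C ∈ tops ++ inner, C ≤ 2 ^ ν) :
    (hardR k t c ν (tops ++ inner) j).Sat (join A E) ↔
      ∃ x ∈ tupSet tops, vl c ν inner (j, x) A = true := by
  have hNl : (hardR k t c ν (tops ++ inner) j).labels.length = 2 ^ ν := by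
    show ((List.range (2 ^ ν)).map (lab c ν j)).length = _
    rw [List.length_map, List.length_range]
  have hN1 : 1 ≤ 2 ^ ν := Nat.one_le_two_pow
  have hsum : (List.replicate t 1).sum = t := by
    rw [List.sum_replicate]; simp
  unfold Inst.Sat
  rw [hNl]
  set P : List ℕ → Prop := fun v => (hardR k t c ν (tops ++ inner) j).atoms.map
    ((hardR k t c ν (tops ++ inner) j).atom (join A E) v) ∈
      (hardR k t c ν (tops ++ inner) j).acc with hP
  show (∃ w : List ℕ, w.length = k ∧ (∀ a ∈ w, a < 2 ^ ν) ∧
      Holds (2 ^ ν) P false (List.replicate t 1) ([] ++ w)) ↔ _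
  simp only [List.nil_append]
  have key : ∀ x, Tup (2 ^ ν) k x → (Holds (2 ^ ν) P false (List.replicate t 1) x ↔
      List.Forall₂ (· < ·) x tops ∧ vl c ν inner (j, x) A = true) := by
    intro x hx
    by_cases hxt : List.Forall₂ (· < ·) x tops
    · have h1 := holds_rel (N := 2 ^ ν) (P := P) hN1 (e := !(fl t false)) inner false
        (fun y => A (ps c ν j (x ++ y))) x
        (fun C hC => hN C (List.mem_append_right _ hC)) (by rw [hi]) (by
          intro y hy1 hy2
          have h2 := matrixR (A := A) (E := E) (c := c) (j := j) ht hi hk hN x y hx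
            ⟨hy1.trans hi, hy2⟩
          exact h2.trans ⟨fun h => h.2, fun h => ⟨hxt, h⟩⟩)
      rw [hi] at h1
      rw [h1]
      exact ⟨fun h => ⟨hxt, h⟩, fun h => h.2⟩
    · constructor
      · intro h
        exfalso
        refine not_holds hN1 _ _ _ (fun y hy1 hy2 => ?_) h
        rw [hsum] at hy1
        intro h2
        exact hxt ((matrixR (A := A) (E := E) (c := c) (j := j) ht hi hk hN x y hx
          ⟨hy1, hy2⟩).1 h2).1
      · intro h
        exact absurd h.1 hxt
  constructor
  · rintro ⟨x, h1, h2, h3⟩
    obtain ⟨h4, h5⟩ := (key x ⟨h1, h2⟩).1 h3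
    exact ⟨x, (mem_tupSet _ _).2 h4, h5⟩
  · rintro ⟨x, h1, h2⟩
    have h3 := (mem_tupSet _ _).1 h1
    have h4 : Tup (2 ^ ν) k x := by
      have := Tup_of_forall₂ h3 (fun C hC => hN C (List.mem_append_left _ hC))
      rw [ht] at this
      exact this
    exact ⟨x, h4.1, h4.2, (key x h4).2 ⟨h3, h2⟩⟩

end Pool.Agent.Y626.WR
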