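import Pool.Agent.Y626.WR.Tree
import Pool.Agent.Y626.WR.SizesK
import Pool.Agent.H628R3.RO.M1

/-!
# Random oracles: resampling finitely many bits, and the value of a random tree
-/

set_option autoImplicit false

namespace Pool.Agent.Y626.WR

open MeasureTheory Pool.Agent.NPC Pool.Agent.H620R2.Gauge Pool.Agent.H591R3.PHG H568R2
open Pool.Agent.H628R3.RO (randomOracle prob Loc measurableSet_of_loc prob_inter_of_disjoint
  randomOracle_eq_upd measurable_upd)

theorem prob_split (x : List Bool) {S : Set Oracle} (hS : MeasurableSet S) :
    prob S = 1 / 2 * prob {A | Function.update A x true ∈ S} +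
      1 / 2 * prob {A | Function.update A x false ∈ S} := by
  have h1 : randomOracle S = 2⁻¹ * randomOracle {A | Function.update A x true ∈ S} +
      2⁻¹ * randomOracle {A | Function.update A x false ∈ S} := by
    conv_lhs => rw [← randomOracle_eq_upd x]
    rw [Measure.add_apply, Measure.smul_apply, Measure.smul_apply,
      Measure.map_apply (measurable_upd x true) hS,
      Measure.map_apply (measurable_upd x false) hS]
    rfl
  simp only [prob, measureReal_def, h1]
  rw [ENNReal.toReal_add (by finiteness) (by finiteness), ENNReal.toReal_mul, ENNReal.toReal_mul]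
  norm_num

/-- the oracle `A` overwritten on `J` -/
def ow (J T : Finset (List Bool)) (A : Oracle) : Oracle := fun x =>
  if x ∈ J then decide (x ∈ T) else A x

theorem measurable_ow (J T : Finset (List Bool)) : Measurable (ow J T) := by
  refine measurable_pi_lambda _ fun y => ?_
  unfold ow
  by_cases hy : y ∈ J
  · simp only [if_pos hy]
    exact measurable_const
  · simp only [if_neg hy]
    exact measurable_pi_apply _

theorem prob_resample {S : Set Oracle} (hS : MeasurableSet S) (J : Finset (List Bool)) :
    prob S = ∑ T ∈ J.powerset, (1 / 2) ^ J.card * prob {A | ow J T A ∈ S} := by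
  classical
  induction J using Finset.induction_on with
  | empty =>
    have h : {A | ow ∅ ∅ A ∈ S} = S := by
      ext A
      have : ow ∅ ∅ A = A := by funext y; simp [ow]
      show ow ∅ ∅ A ∈ S ↔ A ∈ S
      rw [this]
    simp [h]
  | insert x J hx ih =>
    rw [ih, Finset.sum_powerset_insert hx, ← Finset.sum_add_distrib,
      Finset.card_insert_of_notMem hx]
    refine Finset.sum_congr rfl fun T hT => ?_
    rw [Finset.mem_powerset] at hT
    have hxT : x ∉ T := fun h => hx (hT h)
    have hm : MeasurableSet {A | ow J T A ∈ S} := measurable_ow J T hS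
    rw [prob_split x hm]
    have e1 : {A | Function.update A x true ∈ {A | ow J T A ∈ S}} =
        {A | ow (insert x J) (insert x T) A ∈ S} := by
      ext A
      have : ow J T (Function.update A x true) = ow (insert x J) (insert x T) A := by
        funext y
        unfold ow
        by_cases hy : y = x
        · subst hy
          simp [hx]
        · simp [hy]
      show ow J T (Function.update A x true) ∈ S ↔ _
      rw [this]
      rfl
    have e2 : {A | Function.update A x false ∈ {A | ow J T A ∈ S}} =
        {A | ow (insert x J) T A ∈ S} := by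
      ext A
      have : ow J T (Function.update A x false) = ow (insert x J) T A := by
        funext y
        unfold ow
        by_cases hy : y = x
        · subst hy
          simp [hx, hxT]
        · simp [hy]
      show ow J T (Function.update A x false) ∈ S ↔ _
      rw [this]
      rfl
    rw [e1, e2, pow_succ]
    ring

open Classical in
/-- the oracle `A` overwritten at the positions `pos` -/
noncomputable def ovw {I : Type} (pos : I → List Bool) (ω : I → Bool) (A : Oracle) : Oracle :=
  fun x => if h : ∃ i, pos i = x then ω h.choose else A x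

theorem ovw_pos {I : Type} {pos : I → List Bool} (hpos : Function.Injective pos) (ω : I → Bool)
    (A : Oracle) (i : I) : ovw pos ω A (pos i) = ω i := by
  unfold ovw
  have h : ∃ i', pos i' = pos i := ⟨i, rfl⟩
  rw [dif_pos h]
  exact congrArg ω (hpos h.choose_spec)

theorem ovw_off {I : Type} {pos : I → List Bool} (ω : I → Bool) (A : Oracle) {x : List Bool}
    (hx : ∀ i, pos i ≠ x) : ovw pos ω A x = A x := by
  unfold ovw
  rw [dif_neg]
  push Not
  exact hx

theorem ovw_eq {I : Type} [Fintype I] [DecidableEq I] {pos : I → List Bool}
    (hpos : Function.Injective pos) (ω : I → Bool) (A : Oracle) :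
    ow (Finset.univ.image pos) ((Finset.univ.filter fun i => ω i = true).image pos) A =
      ovw pos ω A := by
  funext x
  by_cases hx : ∃ i, pos i = x
  · obtain ⟨i, rfl⟩ := hx
    rw [ovw_pos hpos]
    unfold ow
    rw [if_pos (Finset.mem_image_of_mem _ (Finset.mem_univ _))]
    have h1 : pos i ∈ (Finset.univ.filter fun i => ω i = true).image pos ↔ ω i = true := by
      rw [Finset.mem_image]
      constructor
      · rintro ⟨i', h1, h2⟩
        rw [← hpos h2]
        exact (Finset.mem_filter.1 h1).2
      · intro h
        exact ⟨i, Finset.mem_filter.2 ⟨Finset.mem_univ _, h⟩, rfl⟩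
    cases h : ω i
    · rw [decide_eq_false_iff_not, h1, h]
      simp
    · rw [decide_eq_true_eq, h1, h]
  · have hx' : ∀ i, pos i ≠ x := fun i hi => hx ⟨i, hi⟩
    rw [ovw_off ω A hx']
    unfold ow
    rw [if_neg]
    rw [Finset.mem_image]
    rintro ⟨i, _, hi⟩
    exact hx' i hi

theorem measurable_ovw {I : Type} [Fintype I] [DecidableEq I] {pos : I → List Bool}
    (hpos : Function.Injective pos) (ω : I → Bool) : Measurable (ovw pos ω) := by
  have : ovw pos ω = ow (Finset.univ.image pos)
      ((Finset.univ.filter fun i => ω i = true).image pos) :=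
    funext fun A => (ovw_eq hpos ω A).symm
  rw [this]
  exact measurable_ow _ _

theorem prob_ovw {I : Type} [Fintype I] [DecidableEq I] {pos : I → List Bool}
    (hpos : Function.Injective pos) {S : Set Oracle} (hS : MeasurableSet S) :
    prob S = Ex (ber (1 / 2)) (fun ω : I → Bool => prob {A | ovw pos ω A ∈ S}) := by
  classical
  rw [prob_resample hS (Finset.univ.image pos)]
  unfold Ex
  have hb : ∀ b, ber (1 / 2) b = 1 / 2 := by
    intro b
    unfold ber
    cases b <;> norm_num
  have hc : (Finset.univ.image pos).card = Fintype.card I := by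
    rw [Finset.card_image_of_injective _ hpos, Finset.card_univ]
  symm
  refine Finset.sum_bij' (fun ω _ => (Finset.univ.filter fun i => ω i = true).image pos)
    (fun T _ => fun i => decide (pos i ∈ T)) ?_ ?_ ?_ ?_ ?_
  · intro ω _
    rw [Finset.mem_powerset]
    exact Finset.image_subset_image (Finset.subset_univ _)
  · intro T _
    exact Finset.mem_univ _
  · intro ω _
    funext i
    have h1 : pos i ∈ (Finset.univ.filter fun i => ω i = true).image pos ↔ ω i = true := by
      rw [Finset.mem_image]
      constructor
      · rintro ⟨i', h1, h2⟩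
        rw [← hpos h2]
        exact (Finset.mem_filter.1 h1).2
      · intro h
        exact ⟨i, Finset.mem_filter.2 ⟨Finset.mem_univ _, h⟩, rfl⟩
    show decide _ = ω i
    cases h : ω i
    · rw [decide_eq_false_iff_not, h1, h]
      simp
    · rw [decide_eq_true_eq, h1, h]
  · intro T hT
    rw [Finset.mem_powerset] at hT
    ext x
    rw [Finset.mem_image]
    constructor
    · rintro ⟨i, h1, rfl⟩
      simpa using (Finset.mem_filter.1 h1).2
    · intro hx
      obtain ⟨i, _, hi⟩ := Finset.mem_image.1 (hT hx)
      exact ⟨i, Finset.mem_filter.2 ⟨Finset.mem_univ _, by simpa [hi] using hx⟩, hi⟩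
  · intro ω _
    simp only [hb, Finset.prod_const, Finset.card_univ, hc]
    congr 2
    ext A
    show _ ↔ ow _ _ A ∈ S
    rw [ovw_eq hpos]
    rfl

/-- conditional probabilities -/
theorem prob_le_of_ovw {I : Type} [Fintype I] [DecidableEq I] {pos : I → List Bool}
    (hpos : Function.Injective pos) {S D : Set Oracle} (hS : MeasurableSet S)
    (hD : MeasurableSet D) {β : ℝ} [∀ (A : Oracle) (ω : I → Bool), Decidable (ovw pos ω A ∈ S)]
    (h0 : ∀ A, A ∉ D → ∀ ω : I → Bool, ovw pos ω A ∉ S)
    (h1 : ∀ A, A ∈ D → Ex (ber (1 / 2))
      (fun ω : I → Bool => if ovw pos ω A ∈ S then (1 : ℝ) else 0) ≤ β) :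
    prob S ≤ β * prob D := by
  classical
  rw [prob_ovw hpos hS]
  unfold Ex
  have e1 : ∀ ω : I → Bool, prob {A | ovw pos ω A ∈ S} =
      ∫ A, (if ovw pos ω A ∈ S then (1 : ℝ) else 0) ∂randomOracle := by
    intro ω
    have hm : MeasurableSet {A | ovw pos ω A ∈ S} := measurable_ovw hpos ω hS
    have h2 := integral_indicator_one (μ := randomOracle) hm
    rw [prob, ← h2]
    refine integral_congr_ae (Filter.Eventually.of_forall fun A => ?_)
    show Set.indicator _ _ A = _
    rw [Set.indicator_apply]
    rfl
  have hint : ∀ ω : I → Bool, Integrable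
      (fun A => (if ovw pos ω A ∈ S then (1 : ℝ) else 0)) randomOracle := by
    intro ω
    have hm : MeasurableSet {A | ovw pos ω A ∈ S} := measurable_ovw hpos ω hS
    have h2 : Integrable (Set.indicator {A | ovw pos ω A ∈ S} (1 : Oracle → ℝ)) randomOracle :=
      (integrable_const (1 : ℝ)).indicator hm
    refine h2.congr (Filter.Eventually.of_forall fun A => ?_)
    show Set.indicator _ _ A = _
    rw [Set.indicator_apply]
    rfl
  have e2 : ∑ ω : I → Bool, (∏ i, ber (1 / 2) (ω i)) * prob {A | ovw pos ω A ∈ S} =
      ∫ A, ∑ ω : I → Bool, (∏ i, ber (1 / 2) (ω i)) *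
        (if ovw pos ω A ∈ S then (1 : ℝ) else 0) ∂randomOracle := by
    rw [integral_finsetSum _ fun ω _ => (hint ω).const_mul _]
    refine Finset.sum_congr rfl fun ω _ => ?_
    rw [integral_const_mul, e1]
  rw [e2]
  have h2 := integral_indicator_one (μ := randomOracle) hD
  rw [prob, ← h2, ← integral_const_mul]
  refine integral_mono (integrable_finsetSum _ fun ω _ => (hint ω).const_mul _)
    (((integrable_const (1 : ℝ)).indicator hD).const_mul _) fun A => ?_
  show _ ≤ β * Set.indicator D 1 A
  by_cases hA : A ∈ D
  · rw [Set.indicator_of_mem hA, Pi.one_apply, mul_one]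
    exact h1 A hA
  · rw [Set.indicator_of_notMem hA, mul_zero]
    refine le_of_eq (Finset.sum_eq_zero fun ω _ => ?_)
    rw [if_neg (h0 A hA ω), mul_zero]

/-- the probability that the value of a random tree is `true` -/
noncomputable def prL : List ℕ → ℝ
  | [] => 1 / 2
  | c :: cs => (1 - prL cs) ^ c

theorem prT_append (c : ℕ) : ∀ (cs : List ℕ) (t : ℝ), prT t (cs ++ [c]) = (1 - prT t cs) ^ c
  | [], t => rfl
  | d :: cs, t => prT_append c cs ((1 - t) ^ d)

theorem prL_reverse (cs : List ℕ) : prL cs.reverse = prT (1 / 2) cs := by
  induction cs using List.reverseRecOn with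
  | nil => rfl
  | append_singleton cs c ih =>
    rw [List.reverse_append, prT_append, ← ih]
    rfl

theorem prL_nonneg_le : ∀ cs : List ℕ, 0 ≤ prL cs ∧ prL cs ≤ 1
  | [] => by unfold prL; norm_num
  | c :: cs => by
    obtain ⟨h1, h2⟩ := prL_nonneg_le cs
    exact ⟨pow_nonneg (by linarith) _, pow_le_one₀ (by linarith) (by linarith)⟩

/-- the value of a tree depends on its leaves -/
theorem loc_treeL (cs : List ℕ) (P : List ℕ → List Bool) (b : Bool) :
    Loc (((tupSet cs).image P : Finset (List Bool)) : Set (List Bool))
      {A : Oracle | treeL cs (fun y => A (P y)) = b} := by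
  intro A A' h
  have : treeL cs (fun y => A (P y)) = treeL cs (fun y => A' (P y)) := by
    refine treeL_congr cs _ _ fun y hy => ?_
    exact h _ (Finset.mem_coe.2 (Finset.mem_image_of_mem _ ((mem_tupSet _ _).2 hy)))
  show _ = b ↔ _ = b
  rw [this]

theorem prob_compl' {S : Set Oracle} (hS : MeasurableSet S) : prob Sᶜ = 1 - prob S := by
  unfold prob
  rw [probReal_compl_eq_one_sub hS]

theorem prob_univ : prob (Set.univ : Set Oracle) = 1 := by
  unfold prob
  exact probReal_univ

theorem prob_treeL : ∀ (cs : List ℕ) (P : List ℕ → List Bool),
    (∀ y y', List.Forall₂ (· < ·) y cs → List.Forall₂ (· < ·) y' cs → P y = P y' → y = y') →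
    prob {A : Oracle | treeL cs (fun y => A (P y)) = true} = prL cs
  | [], P, _ => by
    have hS : MeasurableSet {A : Oracle | A (P []) = true} :=
      measurableSet_of_loc (K := {P []}) (Set.finite_singleton _) fun A A' h => by
        show _ = true ↔ _ = true
        rw [h _ rfl]
    have h := prob_split (P []) hS
    have e1 : {A : Oracle | Function.update A (P []) true ∈ {A : Oracle | A (P []) = true}} =
        Set.univ := by
      ext A; simp
    have e2 : {A : Oracle | Function.update A (P []) false ∈ {A : Oracle | A (P []) = true}} =
        ∅ := by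
      ext A; simp
    rw [e1, e2, prob_univ] at h
    have h3 : prob (∅ : Set Oracle) = 0 := by unfold prob; simp
    show prob {A : Oracle | A (P []) = true} = 1 / 2
    rw [h, h3]
    norm_num
  | c :: cs, P, hP => by
    have ih : ∀ i < c, prob {A : Oracle | treeL cs (fun y => A (P (i :: y))) = true} = prL cs := by
      intro i hi
      refine prob_treeL cs (fun y => P (i :: y)) fun y y' hy hy' h => ?_
      exact (List.cons.inj (hP (i :: y) (i :: y') (List.Forall₂.cons hi hy)
        (List.Forall₂.cons hi hy') h)).2
    have key : ∀ c' ≤ c, prob {A : Oracle | ∀ i < c', treeL cs (fun y => A (P (i :: y))) = false} =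
        (1 - prL cs) ^ c' := by
      intro c'
      induction c' with
      | zero =>
        intro _
        have : {A : Oracle | ∀ i < 0, treeL cs (fun y => A (P (i :: y))) = false} = Set.univ := by
          ext A; simp
        rw [this, prob_univ, pow_zero]
      | succ c' ihc =>
        intro hc
        have e1 : {A : Oracle | ∀ i < c' + 1, treeL cs (fun y => A (P (i :: y))) = false} =
            {A : Oracle | ∀ i < c', treeL cs (fun y => A (P (i :: y))) = false} ∩
              {A : Oracle | treeL cs (fun y => A (P (c' :: y))) = false} := by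
          ext A
          constructor
          · intro h
            exact ⟨fun i hi => h i (by omega), h c' (by omega)⟩
          · rintro ⟨h1, h2⟩ i hi
            rcases Nat.lt_succ_iff_lt_or_eq.1 hi with hi | rfl
            · exact h1 i hi
            · exact h2
        have e2 : prob {A : Oracle | treeL cs (fun y => A (P (c' :: y))) = false} = 1 - prL cs := by
          have hm : MeasurableSet {A : Oracle | treeL cs (fun y => A (P (c' :: y))) = true} :=
            measurableSet_of_loc (Finset.finite_toSet _)
              (loc_treeL cs (fun y => P (c' :: y)) true)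
          rw [← ih c' (by omega), ← prob_compl' hm]
          congr 1
          ext A
          show _ ↔ ¬ _
          simp
        rw [e1, prob_inter_of_disjoint
          (K := ((Finset.range c').biUnion fun i => (tupSet cs).image fun y => P (i :: y) :
            Finset (List Bool)))
          (K' := ((tupSet cs).image fun y => P (c' :: y) : Finset (List Bool)))
          (Finset.finite_toSet _) (Finset.finite_toSet _) ?_ ?_ ?_, ihc (by omega), e2, pow_succ]
        · rw [Finset.disjoint_coe, Finset.disjoint_left]
          intro x hx hx'
          obtain ⟨i, hi, hx⟩ := Finset.mem_biUnion.1 hx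
          obtain ⟨y, hy, rfl⟩ := Finset.mem_image.1 hx
          obtain ⟨y', hy', he⟩ := Finset.mem_image.1 hx'
          rw [Finset.mem_range] at hi
          have h3 := hP (c' :: y') (i :: y) (List.Forall₂.cons (by omega) ((mem_tupSet _ _).1 hy'))
            (List.Forall₂.cons (by omega) ((mem_tupSet _ _).1 hy)) he
          have := (List.cons.inj h3).1
          omega
        · intro A A' h
          show (∀ i < c', _) ↔ (∀ i < c', _)
          refine forall₂_congr fun i hi => ?_
          refine loc_treeL cs (fun y => P (i :: y)) false A A' fun x hx => h x ?_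
          exact Finset.mem_coe.2 (Finset.mem_biUnion.2 ⟨i, Finset.mem_range.2 hi, hx⟩)
        · exact loc_treeL cs (fun y => P (c' :: y)) false
    have e3 : {A : Oracle | treeL (c :: cs) (fun y => A (P y)) = true} =
        {A : Oracle | ∀ i < c, treeL cs (fun y => A (P (i :: y))) = false} := by
      ext A
      show decide (∀ i < c, treeL cs (fun y => A (P (i :: y))) = false) = true ↔ _
      rw [decide_eq_true_eq]
      rfl
    rw [e3, key c le_rfl]
    rfl

end Pool.Agent.Y626.WR
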