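import Pool.Agent.Y626.WR.CondR

/-! A reduction is correct on all the hard instances of one stage with small probability. -/

set_option autoImplicit false

namespace Pool.Agent.Y626.WR

open MeasureTheory Pool.Agent.NPC Pool.Agent.H622R2 Pool.Agent.H620R2.Gauge
  Pool.Agent.TH678.GC Pool.Agent.H591R3.PHG Pool.Agent.TH678.RS Pool.Agent.H622R2.Exp
  Pool.Agent.Y626.WG H568R2
open Pool.Agent.H628R3.RO (randomOracle prob Loc measurableSet_of_loc prob_inter_of_disjoint)

theorem meas_Bad (E : Oracle) (t : ℕ) (M : Alg) (σ : List Bool) (G : ℕ) (x : Inst) :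
    MeasurableSet {A | Bad E t M σ G x A} := (open_Bad E t M σ G x).measurableSet

/-- the number of the existential quantifiers -/
noncomputable def kR (M : Alg) : ℕ := 24 * pe M + 10

open Classical in
theorem oneR (E : Oracle) {t : ℕ} (ht : 1 ≤ t) (M : Alg) (σ : List Bool) (G : ℕ) {ε : ℝ}
    (hε : 0 < ε) : ∃ (c ν : ℕ) (Cs : List ℕ), 
      prob {A | ∀ j < 2 ^ c, ¬ Bad E t M σ G (hardR (kR M) t c ν Cs j) A} ≤ ε := by
  obtain ⟨b, hb⟩ := M.out_length
  obtain ⟨d₂, _, hd₂⟩ := YAux.poly_bound b
  obtain ⟨ql, hql⟩ := qs_length M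
  set κ : ℕ := 24 * pe M + 9 with hκ
  set k : ℕ := kR M with hk
  have hkκ : k = κ + 1 := rfl
  obtain ⟨u, hu1, hκu, hwu, hGu, hsz, hnum⟩ := numbersR t k κ σ.length G d₂ hε
  set ν := 512 * u with hν
  set c := u + 11 with hc
  set K := 2 ^ c with hK
  obtain ⟨w, as, a, has1, hw1, hw2, has2, ha1, ha2, hpa, hcore⟩ := coreR t κ (n := 8 * u)
    (u := u) (r₀ := G + 1) ht (by omega) le_rfl (by omega) hκu (by omega) hGu
  have eκ : κ * (8 * u) = 8 * (κ * u) := by ring
  have eκ2 : 64 * κ * u = 64 * (κ * u) := by ring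
  rw [eκ] at hw2 ha1 ha2
  have eκ3 : κ * u = 24 * (u * pe M) + 9 * u := by rw [hκ]; ring
  have eκν : κ * ν = 512 * (κ * u) := by rw [hν]; ring
  -- the sizes
  set bb : ℕ := a + 1 - ν with hbb
  have hbν : ν - 1 + bb = a := by omega
  obtain ⟨es, hes1, hes2, hes3⟩ := exists_exps ν κ bb (by omega)
  set tops : List ℕ := (2 ^ (ν - 1) + 1) :: es.map fun e => 2 ^ e with htops
  have htl : tops.length = k := by
    rw [htops, List.length_cons, List.length_map, hes1]
    exact hkκ.symm
  have htp : (tupSet tops).card = 2 ^ a + 2 ^ bb := by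
    rw [card_tupSet, htops, List.prod_cons, prod_pow, hes3, Nat.add_mul, ← pow_add, hbν, one_mul]
  set inner : List ℕ := (w :: pw as).reverse with hinner
  have hil : inner.length = t := by
    rw [hinner, List.length_reverse, List.length_cons]
    unfold pw
    rw [List.length_map, has1]
  have hν1 : 1 ≤ ν := by omega
  have hN : ∀ C ∈ tops ++ inner, C ≤ 2 ^ ν := by
    intro C hC
    rcases List.mem_append.1 hC with hC | hC
    · rw [htops] at hC
      rcases List.mem_cons.1 hC with rfl | hC
      · have e1 : 2 ^ ν = 2 ^ (ν - 1) + 2 ^ (ν - 1) := by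
          have : ν = ν - 1 + 1 := by omega
          conv_lhs => rw [this]
          rw [pow_succ]
          ring
        have : 1 ≤ 2 ^ (ν - 1) := Nat.one_le_two_pow
        omega
      · obtain ⟨e, he, rfl⟩ := List.mem_map.1 hC
        exact Nat.pow_le_pow_right (by norm_num) (hes2 e he)
    · rw [hinner, List.mem_reverse] at hC
      rcases List.mem_cons.1 hC with rfl | hC
      · omega
      · unfold pw at hC
        obtain ⟨e, he, rfl⟩ := List.mem_map.1 hC
        exact Nat.pow_le_pow_right (by norm_num) ((has2 e he).trans (by omega))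
  have hk1 : 1 ≤ tops.length := by omega
  set x : ℕ → Inst := hardR k t c ν (tops ++ inner) with hx
  set inp : ℕ → List Bool := fun j => pairBits σ (bits (x j)) with hinp
  have hlen : ∀ j, (inp j).length + 2 ≤ 2 ^ (1536 * u) := by
    intro j
    have h1 := sz_hardR (k := k) (t := t) (c := c) (ν := ν) (j := j) (Cs := tops ++ inner)
      (by rw [List.length_append, htl, hil]) hN
    rw [hinp]
    dsimp only
    rw [length_pairBits, bits_length]
    have h2 : sz (x j) = sz (hardR k t c ν (tops ++ inner) j) := rfl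
    omega
  -- the touched blocks
  set P : ℕ := 2 ^ (1536 * (u * pe M)) with hP
  have hPq : ∀ j < K, M.p.eval (inp j).length ≤ P := by
    intro j _
    refine (pe_spec M _).trans ?_
    have e : P = (2 ^ (1536 * u)) ^ pe M := by rw [hP, ← pow_mul]; congr 1; ring
    rw [e]
    exact Nat.pow_le_pow_left (hlen j) _
  set T : Oracle → Finset (ℕ × List ℕ) := TR M E inp c ν K tops inner with hT
  have hTc : ∀ A, (T A).card ≤ 2 ^ bb := by
    intro A
    refine (TR_card hk1 hN le_rfl A).trans ((QR_card hPq A).trans ?_)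
    rw [hK, hP, ← pow_add]
    exact Nat.pow_le_pow_right (by norm_num) (by omega)
  have hTs : ∀ A, T A ⊆ BsR K tops := fun A => TR_sub A
  obtain ⟨W, _, hW⟩ := exists_short (ql.eval (2 ^ (1536 * u)))
  have hTloc : ∀ T0, Loc (W : Set (List Bool)) {A | T A = T0} := by
    intro T0
    refine TR_loc (fun A j _ q hq v hv => hW v ?_) T0
    have h1 := hql (join A E) (inp j) q hq
    have h2 : ql.eval (inp j).length ≤ ql.eval (2 ^ (1536 * u)) :=
      eval_mono _ (by have := hlen j; omega)
    rw [hv, List.length_cons] at h1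
    omega
  have hTm : ∀ T0, MeasurableSet {A | T A = T0} := fun T0 =>
    measurableSet_of_loc (Finset.finite_toSet _) (hTloc T0)
  have hcg : ∀ A A' : Oracle, (∀ v, (∀ b ∈ BsR K tops, b ∉ T A → v ∉ BlkR c ν inner b) →
      A v = A' v) → T A' = T A := fun A A' h => (QR_congr h).2.2
  have hpad0 : ∀ T0 : Finset (ℕ × List ℕ), ∃ U : Finset (ℕ × List ℕ), T0 ⊆ BsR K tops →
      T0.card ≤ 2 ^ bb → T0 ⊆ U ∧ U ⊆ BsR K tops ∧
      (∀ j < K, ((tupSet tops).filter fun x => (j, x) ∉ U).card = 2 ^ a) ∧
      U.card ≤ K * 2 ^ bb := by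
    intro T0
    by_cases h : T0 ⊆ BsR K tops ∧ T0.card ≤ 2 ^ bb
    · obtain ⟨U, h1, h2, h3, h4⟩ := exists_pad (q := 2 ^ bb) (by
        rw [htp]; exact Nat.le_add_left _ _) T0 h.1 h.2
      refine ⟨U, fun _ _ => ⟨h1, h2, fun j hj => ?_, h4⟩⟩
      rw [h3 j hj, htp]
      exact Nat.add_sub_cancel _ _
    · exact ⟨∅, fun h1 h2 => absurd ⟨h1, h2⟩ h⟩
  choose pad hpad using hpad0
  have hpadT : ∀ A, T A ⊆ pad (T A) := fun A => (hpad _ (hTs A) (hTc A)).1
  have hpadB : ∀ A, pad (T A) ⊆ BsR K tops := fun A => (hpad _ (hTs A) (hTc A)).2.1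
  have hpadN : ∀ A, (pad (T A)).card ≤ K * 2 ^ bb := fun A => (hpad _ (hTs A) (hTc A)).2.2.2
  set p : ℝ := prT (1 / 2) (w :: pw as) with hp
  have hp0 : 0 ≤ p := by
    rw [hp, ← prL_reverse]
    exact (prL_nonneg_le _).1
  have hvp : ∀ b ∈ BsR K tops, prob {A | vl c ν inner b A = true} = p := fun b hb =>
    vl_prob hk1 hN le_rfl hinner hb
  have hfirst := prob_expo (Bs := BsR K tops) (Blk := BlkR c ν inner) (vlb := vl c ν inner)
    (T := T) (pad := pad) (K0 := W) hp0 hTloc hcg hpadT hpadB hpadN
    (fun b _ => vl_loc c ν inner b true) hvp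
  -- the error
  set m := 1536 * u * d₂ * G with hm
  set err : ℝ := (t : ℝ) * (2 ^ (2 ^ (u + 11) + t * (2 * m + 1) + 2) *
      (1 / 2) ^ (2 ^ (2 * u) + 1)) + 3 * (1 / 2) ^ (2 ^ u) with herr
  have herr0 : 0 ≤ err := by positivity
  set S : Set Oracle := {A | ∀ j < K, ¬ Bad E t M σ G (x j) A} with hS
  have hSm : MeasurableSet S := by
    have e : S = ⋂ j ∈ Set.Iio K, {A | Bad E t M σ G (x j) A}ᶜ := by
      ext A
      simp [hS]
    rw [e]
    exact MeasurableSet.biInter (Set.finite_Iio K).countable fun j _ =>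
      (meas_Bad E t M σ G (x j)).compl
  set S1 : Set Oracle := S ∩ {A | ∀ b ∈ pad (T A), vl c ν inner b A = false} with hS1
  have hsecond : prob S1 ≤ err := by
    refine prob_cond (T := T) (K0 := W) (𝒯 := (BsR K tops).powerset) hTloc
      (fun A => Finset.mem_powerset.2 (hTs A)) fun T0 hT0 => ?_
    rw [Finset.mem_powerset] at hT0
    by_cases hT0c : T0.card ≤ 2 ^ bb
    swap
    · have e1 : {A | T A = T0} = ∅ := by
        ext A
        constructor
        · intro h
          exact hT0c (h ▸ hTc A)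
        · intro h
          exact absurd h (Set.notMem_empty _)
      rw [e1, Set.inter_empty]
      have : prob (∅ : Set Oracle) = 0 := by unfold prob; simp
      rw [this, mul_zero]
    obtain ⟨hU1, hU2, hU3, _⟩ := hpad T0 hT0 hT0c
    set U := pad T0 with hU
    have he0 : ∀ j, ∃ e : ℕ → List ℕ, j < K → (∀ i < 2 ^ a,
        e i ∈ (tupSet tops).filter fun x => (j, x) ∉ U) ∧
        (∀ i < 2 ^ a, ∀ i' < 2 ^ a, e i = e i' → i = i') ∧
        ∀ x ∈ (tupSet tops).filter (fun x => (j, x) ∉ U), ∃ i < 2 ^ a, e i = x := by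
      intro j
      by_cases hj : j < K
      · obtain ⟨e, he⟩ := exists_enum (hU3 j hj)
        exact ⟨e, fun _ => he⟩
      · exact ⟨fun _ => [], fun h => absurd h hj⟩
    choose e he using he0
    have he1 : ∀ j < K, ∀ i < 2 ^ a, List.Forall₂ (· < ·) (e j i) tops := fun j hj i hi =>
      (mem_tupSet _ _).1 (Finset.mem_filter.1 ((he j hj).1 i hi)).1
    have he2 : ∀ j < K, ∀ i < 2 ^ a, (j, e j i) ∉ U := fun j hj i hi =>
      (Finset.mem_filter.1 ((he j hj).1 i hi)).2
    set cs : List ℕ := w :: pw (as ++ [a]) with hcs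
    set pos : Idx (Fin K) cs → List Bool := posI c ν e cs with hpos
    have hposi : Function.Injective pos := posI_inj le_rfl hk1 hinner hN he1
      fun j hj => (he j hj).2.1
    have hagree : ∀ (A : Oracle) (ω : Idx (Fin K) cs → Bool) (v : List Bool),
        (∀ b ∈ BsR K tops, b ∉ T0 → v ∉ BlkR c ν inner b) → A v = ovw pos ω A v := by
      intro A ω v hv
      refine (ovw_off ω A fun g hg => ?_).symm
      obtain ⟨j, hj, i, hi, h1⟩ := posI_mem (c := c) (ν := ν) (e := e) hinner g
      refine hv (j, e j i) (mem_BsR.2 ⟨hj, he1 j hj i hi⟩) (fun h => he2 j hj i hi (hU1 h)) ?_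
      rw [← hg]
      exact h1
    have hSm1 : MeasurableSet (S1 ∩ {A | T A = T0}) := by
      have e1 : S1 ∩ {A | T A = T0} =
          S ∩ (⋂ b ∈ (U : Set (ℕ × List ℕ)), {A | vl c ν inner b A = false}) ∩
            {A | T A = T0} := by
        ext A
        simp only [hS1, Set.mem_inter_iff, Set.mem_ofPred_eq, Set.mem_iInter, Finset.mem_coe]
        constructor
        · rintro ⟨⟨h1, h2⟩, h3⟩
          rw [h3] at h2
          exact ⟨⟨h1, h2⟩, h3⟩
        · rintro ⟨⟨h1, h2⟩, h3⟩
          refine ⟨⟨h1, ?_⟩, h3⟩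
          rw [h3]
          exact h2
      rw [e1]
      refine (hSm.inter ?_).inter (hTm T0)
      exact MeasurableSet.biInter U.finite_toSet.countable fun b _ =>
        measurableSet_of_loc (Finset.finite_toSet _) (vl_loc c ν inner b false)
    refine prob_le_of_ovw hposi hSm1 (hTm T0) ?_ ?_
    · intro A hA ω hω
      refine hA ?_
      have h1 : T (ovw pos ω A) = T0 := hω.2
      have h2 := hcg (ovw pos ω A) A fun v hv => (hagree A ω v (by rw [← h1]; exact hv)).symm
      exact h2.trans h1
    · intro A hA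
      have hA0 : T A = T0 := hA
      have hcong : ∀ ω : Idx (Fin K) cs → Bool, (∀ j < K,
          M.out (join (ovw pos ω A) E) (inp j) = M.out (join A E) (inp j)) ∧
          T (ovw pos ω A) = T0 := by
        intro ω
        have h1 := QR_congr (M := M) (E := E) (inp := inp) (c := c) (ν := ν) (K := K)
          (tops := tops) (inner := inner) (A := A) (A' := ovw pos ω A) fun v hv =>
            hagree A ω v (by rw [← hA0]; exact hv)
        exact ⟨fun j hj => (h1.1 j hj).2, h1.2.2.trans hA0⟩
      by_cases hI : ∀ j < K, ∃ I : Inst, M.out (join A E) (inp j) = some (bits I) ∧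
          I.IsA t ∧ I.param ≤ G
      swap
      · push Not at hI
        obtain ⟨j, hj, hI⟩ := hI
        refine le_trans (le_of_eq ?_) herr0
        unfold Ex
        refine Finset.sum_eq_zero fun ω _ => ?_
        dsimp only
        rw [if_neg, mul_zero]
        rintro ⟨⟨h1, _⟩, _⟩
        have h2 := h1 j hj
        unfold Bad at h2
        push Not at h2
        obtain ⟨I, h3, h4, h5, _⟩ := h2
        have h6 := (hcong ω).1 j hj
        have h7 : M.out (join A E) (inp j) = some (bits I) := h6.symm.trans h3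
        exact absurd h5 (not_le.2 (hI I h7 h4))
      have hI' : ∀ j, ∃ I : Inst, M.out (join A E) (inp (j % K)) = some (bits I) ∧
          I.IsA t ∧ I.param ≤ G := fun j => hI (j % K) (Nat.mod_lt _ (by positivity))
      choose I' hI1 hI2 hI3 using hI'
      have hIm : ∀ j s, s ≤ G → (I' j).labels.length ^ s ≤ 2 ^ m := by
        intro j s hs
        have h1 := hb _ _ _ (hI1 j)
        have h2 := (hd₂ (inp (j % K)).length).trans (Nat.pow_le_pow_left (hlen (j % K)) d₂)
        have h3 := labels_lt (I' j)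
        have h4 : (I' j).labels.length ≤ 2 ^ (1536 * u * d₂) := by rw [pow_mul]; omega
        refine (Nat.pow_le_pow_left h4 s).trans ?_
        rw [← pow_mul]
        refine Nat.pow_le_pow_right (by norm_num) ?_
        rw [hm]
        exact Nat.mul_le_mul_left _ hs
      have hib := inner_bound (K := K) (m := m) hposi A E I' hI2 hI3 hIm (β := err)
        (fun F hF y hy => by
          have h1 := hcore (Fin K) (by rw [Fintype.card_fin]) m K F hF y hy
          exact h1)
      refine le_trans (Ex_mono (fun b => ?_) fun ω => ?_) hib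
      · unfold ber
        cases b <;> norm_num
      by_cases hω : ovw pos ω A ∈ S1 ∩ {A | T A = T0}
      swap
      · rw [if_neg hω]
        split_ifs <;> norm_num
      rw [if_pos hω, if_pos]
      intro j
      obtain ⟨⟨hω1, hω2⟩, hω3⟩ := hω
      have h2 := hω1 j.val j.2
      unfold Bad at h2
      push Not at h2
      obtain ⟨I, h3, h4, h5, h6⟩ := h2
      have hjm : j.val % K = j.val := Nat.mod_eq_of_lt j.2
      have h7 : I = I' j.val := by
        have h8 := hI1 j.val
        rw [hjm, ← (hcong ω).1 j.val j.2] at h8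
        exact bits_injective (Option.some.inj (h3.symm.trans h8))
      subst h7
      have h8 : (x j.val).Sat (join (ovw pos ω A) E) ↔ Tr cs ω j = false := by
        have h9 : (fun g => ovw pos ω A (pos g)) = ω := funext fun g => ovw_pos hposi ω A g
        have h10 := Tr_posI (a := a) (e := e) (c := c) (ν := ν) hinner (ovw pos ω A) j
        have h11 : (Tr cs ω j = false) ↔ ∃ i < 2 ^ a,
            vl c ν inner (j.val, e j.val i) (ovw pos ω A) = true := by
          rw [← h10]
          show _ ↔ Tr cs (fun g => ovw pos ω A (pos g)) j = false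
          rw [h9]
        rw [h11, hx, hardR_sat (E := E) htl hil (by omega) hN]
        constructor
        · rintro ⟨y, hy, hv⟩
          have h12 : (j.val, y) ∉ U := by
            intro hyU
            have h13 := hω2 (j.val, y) (by
              show (j.val, y) ∈ pad (T (ovw pos ω A))
              rw [(hcong ω).2]
              exact hyU)
            rw [hv] at h13
            exact absurd h13 (by simp)
          obtain ⟨i, hi, rfl⟩ := (he j.val j.2).2.2 y (Finset.mem_filter.2 ⟨hy, h12⟩)
          exact ⟨i, hi, hv⟩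
        · rintro ⟨i, hi, hv⟩
          exact ⟨e j.val i, (mem_tupSet _ _).2 (he1 j.val j.2 i hi), hv⟩
      rw [← h8]
      exact h6.symm
  refine ⟨c, ν, tops ++ inner, ?_⟩
  have hsub : S ⊆ {A | ∃ b ∈ pad (T A), vl c ν inner b A = true} ∪ S1 := by
    intro A hA
    by_cases h : ∃ b ∈ pad (T A), vl c ν inner b A = true
    · exact Or.inl h
    · refine Or.inr ⟨hA, fun b hb => ?_⟩
      push Not at h
      simpa using h b hb
  have h1 : prob S ≤ prob {A | ∃ b ∈ pad (T A), vl c ν inner b A = true} + prob S1 :=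
    (measureReal_mono hsub (measure_ne_top _ _)).trans (measureReal_union_le _ _)
  have h2 : ((K * 2 ^ bb : ℕ) : ℝ) * p ≤ (1 / 2) ^ u := by
    have h3 : K * 2 ^ bb * 2 ^ u ≤ 2 ^ a := by
      rw [hK, ← pow_add, ← pow_add]
      exact Nat.pow_le_pow_right (by norm_num) (by omega)
    have h4 : ((K * 2 ^ bb : ℕ) : ℝ) * 2 ^ u ≤ 2 ^ a := by exact_mod_cast h3
    have hu0 : (0 : ℝ) < 2 ^ u := by positivity
    rw [one_div, inv_pow, ← one_div, le_div_iff₀ hu0]
    calc ((K * 2 ^ bb : ℕ) : ℝ) * p * 2 ^ u = ((K * 2 ^ bb : ℕ) : ℝ) * 2 ^ u * p := by ring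
      _ ≤ 2 ^ a * p := mul_le_mul_of_nonneg_right h4 hp0
      _ ≤ 1 := hpa.le
  show prob S ≤ ε
  have h5 : err + (1 / 2) ^ u ≤ ε := hnum
  linarith

end Pool.Agent.Y626.WR
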