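import Pool.Agent.H591R3.PHG.Switch
import Pool.Agent.H591R3.PHG.Peel

/-!
# The switching lemma for fair bits

A variant of the switching lemma of `H591R3.PHG` for blocks of fair random bits and for formulas
whose bottom fan-in is bounded by a constant.
-/

set_option autoImplicit false

namespace Pool.Agent.Y626.WR

open Finset H568R2 Pool.Agent.H676 Pool.Agent.H620R2.Gauge Pool.Agent.NPC Pool.Agent.H591R3.PHG
  Pool.Agent.H591R3.PHG.Sw

section one
variable {c : ℕ}

open Classical in
lemma ker_ratio1 {smin : ℕ} {t t' ξ lam : ℝ} (ht : 0 < t) (ht2 : t ≤ 1 / 2) (ht' : 0 < t')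
    (ht1' : t' ≤ 1) (hξ : 0 < ξ) (hξ1 : ξ ≤ 1) (hlam : (1 - t) ^ smin / t' ≤ lam)
    (hlam4 : lam ≤ 1 / 4) (σ : Fin c → Option Bool) (PT : Fin c → Bool) (Q : Finset (Fin c))
    (hQ : ∀ i ∈ Q, σ i = none ∧ PT i = false) :
    ker t t' ξ smin σ (none, fun i => if i ∈ Q then true else PT i) ≤
      2 * (lam / ξ) *
        ker t t' ξ smin σ (if Zer σ PT then some true else some false, PT) := by
  have hl : 0 ≤ lam := le_trans (by have : 0 ≤ 1 - t := by linarith
                                    positivity) hlam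
  by_cases hne : ker t t' ξ smin σ (none, fun i => if i ∈ Q then true else PT i) = 0
  · rw [hne]
    have := ker_nn ht ht2 ht' ht1' hξ hξ1 hlam hlam4 σ
      (if Zer σ PT then some true else some false, PT)
    positivity
  obtain ⟨hA, hnz⟩ := ker_none_ne hne
  obtain ⟨h0, h1, h2, h3, h4, h5⟩ := num ht ht2 ht' ht1' hξ hξ1 hlam hlam4 hA
  have hν : 0 < nu t PT := nu_pos ht (by linarith) PT
  have hle := nu_le ht ht2 PT Q (fun i hi => (hQ i hi).2)
  have hp : 0 < 1 - pz t σ := by linarith
  have hle1 : nu t (fun i => if i ∈ Q then true else PT i) ≤ nu t PT := by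
    refine hle.trans ?_
    have : (2 * t) ^ Q.card ≤ 1 := pow_le_one₀ (by linarith) (by linarith)
    nlinarith
  have key : ker t t' ξ smin σ (none, fun i => if i ∈ Q then true else PT i) ≤
      lam * nu t PT / (1 - pz t σ) := by
    unfold ker
    rw [if_pos hA]
    simp only
    rw [if_neg hnz]
    apply div_le_div_of_nonneg_right _ hp.le
    exact mul_le_mul h4 hle1 (nu_pos ht (by linarith) _).le hl
  refine key.trans ?_
  rw [div_le_iff₀ hp]
  by_cases hz : Zer σ PT
  · rw [if_pos hz]
    have hk : ker t t' ξ smin σ (some true, PT) = ξ * nu t PT := by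
      unfold ker
      rw [if_pos hA]
      simp only
      rw [if_pos hz]
    rw [hk]
    have e2 : 2 * (lam / ξ) * (ξ * nu t PT) * (1 - pz t σ) =
      lam * nu t PT * (2 * (1 - pz t σ)) := by field_simp
    rw [e2]
    have : 0 ≤ lam * nu t PT := by positivity
    nlinarith
  · rw [if_neg hz]
    have hk : ker t t' ξ smin σ (some false, PT) =
        (1 - (1 - ξ) * pz t σ / t' - ξ * pz t σ) * nu t PT / (1 - pz t σ) := by
      unfold ker
      rw [if_pos hA]
      simp only
      rw [if_neg hz]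
    rw [hk]
    have e2 : 2 * (lam / ξ) *
        ((1 - (1 - ξ) * pz t σ / t' - ξ * pz t σ) * nu t PT / (1 - pz t σ)) * (1 - pz t σ) =
      (lam / ξ) * nu t PT * (2 * (1 - (1 - ξ) * pz t σ / t' - ξ * pz t σ)) := by
      field_simp
    rw [e2]
    have h6 : lam ≤ lam / ξ := le_div_self hl hξ hξ1
    have h7 : lam * nu t PT ≤ lam / ξ * nu t PT := mul_le_mul_of_nonneg_right h6 hν.le
    have h8 : 0 ≤ lam / ξ * nu t PT := by positivity
    nlinarith

end one

section enc
variable {G : Type} [Fintype G] [DecidableEq G] {c : ℕ}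
variable {L : List (Term (G × Fin c))} {s : G × Fin c → Option Bool}

section sums
variable {smin : ℕ} {t t' ξ lam : ℝ} (ht : 0 < t) (ht2 : t ≤ 1 / 2) (ht' : 0 < t')
    (ht1' : t' ≤ 1) (hξ : 0 < ξ) (hξ1 : ξ ≤ 1) (hlam : (1 - t) ^ smin / t' ≤ lam)
    (hlam4 : lam ≤ 1 / 4)

include ht ht2 ht' ht1' hξ hξ1 hlam hlam4

open Classical in
lemma sum_dat1 {m : ℕ} {ρ' : G → St c} {B P : Finset G} {Q : Finset (G × Fin c)} {x : ℝ}
    (hx : 0 ≤ x) (ih : ∀ ρ₁ : G → St c, ∑ ρ ∈ univ.filter (fun ρ => EncB L s (m - B.card) ρ ρ₁),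
      wt t t' ξ smin s ρ ≤ x ^ (m - B.card) * wt t t' ξ smin s ρ₁) :
    ∑ ρ ∈ univ.filter (fun ρ => Dat L s m ρ' B P Q ρ), wt t t' ξ smin s ρ ≤
      x ^ (m - B.card) * ((2 * (lam / ξ)) ^ B.card * wt t t' ξ smin s ρ') := by
  have hl : 0 ≤ lam := le_trans (by have : 0 ≤ 1 - t := by linarith
                                    positivity) hlam
  have hW := wt_nn ht ht2 ht' ht1' hξ hξ1 hlam hlam4 s
  have hK := ker_nn (c := c) ht ht2 ht' ht1' hξ hξ1 hlam hlam4
  by_cases hex : ∃ ρ, Dat L s m ρ' B P Q ρ ∧ wt t t' ξ smin s ρ ≠ 0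
  · obtain ⟨ρ₀, h₀, hw₀⟩ := hex
    have hk : ∀ g ∈ B, ker t t' ξ smin (fun i => s (g, i)) (none, pat ρ' Q g) ≠ 0 := by
      intro g hg h
      apply hw₀
      unfold Pool.Agent.H591R3.PHG.wt
      apply Finset.prod_eq_zero (Finset.mem_univ g)
      rw [h₀.on g hg]
      exact h
    set K0 : ℝ := ∏ g ∈ B, ker t t' ξ smin (fun i => s (g, i)) (none, pat ρ' Q g) with hK0
    set K1 : ℝ := ∏ g ∈ B, ker t t' ξ smin (fun i => s (g, i)) (pst s ρ' Q P g) with hK1
    have hK1p : 0 < K1 := Finset.prod_pos fun g hg =>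
      ker_pth ht ht2 ht' ht1' hξ hξ1 hlam hlam4 (hk g hg) _
    have hK0n : 0 ≤ K0 := Finset.prod_nonneg fun g _ => hK _ _
    have hwt : ∀ ρ, Dat L s m ρ' B P Q ρ →
        wt t t' ξ smin s ρ = K0 / K1 * wt t t' ξ smin s (mix B (pst s ρ' Q P) ρ) := by
      intro ρ hρ
      unfold Pool.Agent.H591R3.PHG.wt
      rw [← Finset.prod_mul_prod_compl B, ← Finset.prod_mul_prod_compl B (fun g =>
        ker t t' ξ smin (fun i => s (g, i)) (mix B (pst s ρ' Q P) ρ g))]
      have e1 : ∏ g ∈ B, ker t t' ξ smin (fun i => s (g, i)) (ρ g) = K0 :=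
        Finset.prod_congr rfl fun g hg => by rw [hρ.on g hg]
      have e2 : ∏ g ∈ B, ker t t' ξ smin (fun i => s (g, i)) (mix B (pst s ρ' Q P) ρ g) = K1 :=
        Finset.prod_congr rfl fun g hg => by unfold mix; rw [if_pos hg]
      have e3 : ∏ g ∈ Bᶜ, ker t t' ξ smin (fun i => s (g, i)) (mix B (pst s ρ' Q P) ρ g) =
          ∏ g ∈ Bᶜ, ker t t' ξ smin (fun i => s (g, i)) (ρ g) :=
        Finset.prod_congr rfl fun g hg => by
          unfold mix; rw [if_neg (Finset.mem_compl.1 hg)]
      rw [e1, e2, e3]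
      field_simp
    have hwt' : wt t t' ξ smin s (mix B (pst s ρ' Q P) ρ') =
        K1 * ∏ g ∈ Bᶜ, ker t t' ξ smin (fun i => s (g, i)) (ρ' g) := by
      unfold Pool.Agent.H591R3.PHG.wt
      rw [← Finset.prod_mul_prod_compl B]
      congr 1
      · exact Finset.prod_congr rfl fun g hg => by unfold mix; rw [if_pos hg]
      · exact Finset.prod_congr rfl fun g hg => by
          unfold mix; rw [if_neg (Finset.mem_compl.1 hg)]
    have hinj : Set.InjOn (mix B (pst s ρ' Q P))
        (univ.filter (fun ρ => Dat L s m ρ' B P Q ρ) : Finset (G → St c)) := by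
      intro ρ hρ σ hσ he
      have hρ' := (Finset.mem_filter.1 (Finset.mem_coe.1 hρ)).2
      have hσ' := (Finset.mem_filter.1 (Finset.mem_coe.1 hσ)).2
      funext g
      by_cases hg : g ∈ B
      · rw [hρ'.on g hg, hσ'.on g hg]
      · have := congrFun he g
        unfold mix at this
        rw [if_neg hg, if_neg hg] at this
        exact this
    have hC : 0 ≤ ∏ g ∈ Bᶜ, ker t t' ξ smin (fun i => s (g, i)) (ρ' g) :=
      Finset.prod_nonneg fun g _ => hK _ _
    have hK0le : K0 ≤ (2 * (lam / ξ)) ^ B.card *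
        ∏ g ∈ B, ker t t' ξ smin (fun i => s (g, i)) (ρ' g) := by
      have e1 : (2 * (lam / ξ)) ^ B.card *
        ∏ g ∈ B, ker t t' ξ smin (fun i => s (g, i)) (ρ' g) =
        ∏ g ∈ B, (2 * (lam / ξ) *
          ker t t' ξ smin (fun i => s (g, i)) (ρ' g)) := by
        rw [Finset.prod_mul_distrib, Finset.prod_const]
      rw [e1]
      refine Finset.prod_le_prod (fun g _ => hK _ _) fun g hg => ?_
      have h1 := ker_ratio1 ht ht2 ht' ht1' hξ hξ1 hlam hlam4 (fun i => s (g, i)) (ρ' g).2
        (univ.filter (fun i : Fin c => (g, i) ∈ Q)) (fun i hi => by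
          have := h₀.qq (g, i) (Finset.mem_filter.1 hi).2
          exact ⟨this.2.1, this.2.2⟩)
      have e2 : (if Zer (fun i => s (g, i)) (ρ' g).2 then some true else some false, (ρ' g).2) =
          ρ' g := Prod.ext (h₀.st g hg).symm rfl
      have e3 : (fun i => if i ∈ univ.filter (fun i : Fin c => (g, i) ∈ Q) then true
          else (ρ' g).2 i) = pat ρ' Q g := by
        funext i
        unfold pat
        simp only [Finset.mem_filter, Finset.mem_univ, true_and]
      rw [e2, e3] at h1
      exact h1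
    calc ∑ ρ ∈ univ.filter (fun ρ => Dat L s m ρ' B P Q ρ), wt t t' ξ smin s ρ
        = K0 / K1 * ∑ ρ ∈ univ.filter (fun ρ => Dat L s m ρ' B P Q ρ),
            wt t t' ξ smin s (mix B (pst s ρ' Q P) ρ) := by
          rw [Finset.mul_sum]
          exact Finset.sum_congr rfl fun ρ hρ => hwt ρ (Finset.mem_filter.1 hρ).2
      _ = K0 / K1 * ∑ σ ∈ (univ.filter (fun ρ => Dat L s m ρ' B P Q ρ)).image
            (mix B (pst s ρ' Q P)), wt t t' ξ smin s σ := by
          rw [Finset.sum_image hinj]
      _ ≤ K0 / K1 * ∑ σ ∈ univ.filter (fun σ => EncB L s (m - B.card) σ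
            (mix B (pst s ρ' Q P) ρ')), wt t t' ξ smin s σ := by
          apply mul_le_mul_of_nonneg_left _ (by positivity)
          apply Finset.sum_le_sum_of_subset_of_nonneg
          · intro σ hσ
            obtain ⟨ρ, hρ, rfl⟩ := Finset.mem_image.1 hσ
            exact Finset.mem_filter.2 ⟨Finset.mem_univ _, (Finset.mem_filter.1 hρ).2.en⟩
          · intro σ _ _
            exact hW σ
      _ ≤ K0 / K1 * (x ^ (m - B.card) * (K1 *
            ∏ g ∈ Bᶜ, ker t t' ξ smin (fun i => s (g, i)) (ρ' g))) := by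
          apply mul_le_mul_of_nonneg_left _ (by positivity)
          rw [← hwt']
          exact ih _
      _ = x ^ (m - B.card) * (K0 * ∏ g ∈ Bᶜ, ker t t' ξ smin (fun i => s (g, i)) (ρ' g)) := by
          field_simp
      _ ≤ x ^ (m - B.card) * (((2 * (lam / ξ)) ^ B.card *
            ∏ g ∈ B, ker t t' ξ smin (fun i => s (g, i)) (ρ' g)) *
            ∏ g ∈ Bᶜ, ker t t' ξ smin (fun i => s (g, i)) (ρ' g)) := by
          apply mul_le_mul_of_nonneg_left _ (by positivity)
          exact mul_le_mul_of_nonneg_right hK0le hC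
      _ = x ^ (m - B.card) * ((2 * (lam / ξ)) ^ B.card *
            wt t t' ξ smin s ρ') := by
          unfold Pool.Agent.H591R3.PHG.wt
          rw [← Finset.prod_mul_prod_compl B (fun g =>
            ker t t' ξ smin (fun i => s (g, i)) (ρ' g))]
          ring
  · push Not at hex
    rw [Finset.sum_eq_zero (fun ρ hρ => hex ρ (Finset.mem_filter.1 hρ).2)]
    have := hW ρ'
    positivity

open Classical in
lemma sum_enc1 {r : ℕ} (hr : 1 ≤ r)
    (hL : ∀ T ∈ L, T.1.card ≤ r) : ∀ (m : ℕ) (ρ' : G → St c),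
      ∑ ρ ∈ univ.filter (fun ρ => EncB L s m ρ ρ'), wt t t' ξ smin s ρ ≤
        (16 * r * 2 ^ r * (lam / ξ)) ^ m * wt t t' ξ smin s ρ' := by
  have hl : 0 < lam := lt_of_lt_of_le (by have : 0 < 1 - t := by linarith
                                          positivity) hlam
  have hW := wt_nn ht ht2 ht' ht1' hξ hξ1 hlam hlam4 s
  have hr0 : (0 : ℝ) < r := by exact_mod_cast hr
  intro m
  induction m using Nat.strong_induction_on with
  | _ m ih =>
    intro ρ'
    rcases Nat.eq_zero_or_pos m with hm | hm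
    · subst hm
      have : (univ.filter (fun ρ : G → St c => EncB L s 0 ρ ρ')) ⊆ {ρ'} := by
        intro ρ hρ
        rw [Finset.mem_singleton]
        exact ((Finset.mem_filter.1 hρ).2.zero rfl).symm
      refine (Finset.sum_le_sum_of_subset_of_nonneg this fun ρ _ _ => hW ρ).trans ?_
      rw [Finset.sum_singleton, pow_zero, one_mul]
    · cases hT : L.find? (nonfals (hat s ρ')) with
      | none =>
        rw [Finset.sum_eq_zero]
        · have := hW ρ'
          positivity
        · intro ρ hρ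
          obtain ⟨T, hT', _⟩ := (Finset.mem_filter.1 hρ).2.dat hm
          rw [hT] at hT'
          cases hT'
      | some T =>
        have hTmem := List.mem_of_find?_eq_some hT
        set x : ℝ := 16 * r * 2 ^ r * (lam / ξ) with hx
        have hx0 : 0 < x := by positivity
        set Bs : Finset (Finset G) := (T.1.image Prod.fst).powerset.filter
          (fun B => B.Nonempty ∧ B.card ≤ m) with hBs
        have step1 : ∑ ρ ∈ univ.filter (fun ρ => EncB L s m ρ ρ'), wt t t' ξ smin s ρ ≤
            ∑ B ∈ Bs, ∑ P ∈ B.powerset, ∑ Q ∈ T.1.powerset,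
              ∑ ρ ∈ univ.filter (fun ρ => Dat L s m ρ' B P Q ρ), wt t t' ξ smin s ρ := by
          have e1 : ∀ (B P : Finset G) (Q : Finset (G × Fin c)), ∑ ρ ∈ univ.filter (fun ρ => Dat L s m ρ' B P Q ρ),
              wt t t' ξ smin s ρ =
              ∑ ρ : G → St c, if Dat L s m ρ' B P Q ρ then wt t t' ξ smin s ρ else 0 :=
            fun B P Q => Finset.sum_filter _ _
          have e2 : ∑ B ∈ Bs, ∑ P ∈ B.powerset, ∑ Q ∈ T.1.powerset,
              ∑ ρ ∈ univ.filter (fun ρ => Dat L s m ρ' B P Q ρ), wt t t' ξ smin s ρ =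
              ∑ ρ : G → St c, ∑ B ∈ Bs, ∑ P ∈ B.powerset, ∑ Q ∈ T.1.powerset,
                if Dat L s m ρ' B P Q ρ then wt t t' ξ smin s ρ else 0 := by
            exact (Finset.sum_congr rfl fun B _ => (Finset.sum_congr rfl fun P _ =>
              (Finset.sum_congr rfl fun Q _ => e1 B P Q).trans Finset.sum_comm).trans
              Finset.sum_comm).trans Finset.sum_comm
          rw [e2, Finset.sum_filter]
          refine Finset.sum_le_sum fun ρ _ => ?_
          have hnn : ∀ (B P : Finset G) (Q : Finset (G × Fin c)), 0 ≤ (if Dat L s m ρ' B P Q ρ then wt t t' ξ smin s ρ else 0) := by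
            intro B P Q
            split_ifs
            · exact hW ρ
            · exact le_refl _
          split_ifs with hE
          · obtain ⟨T', hT', B, hB, hBne, hBm, P, hP, Q, hQ, hD⟩ := hE.dat hm
            rw [hT] at hT'
            obtain rfl : T = T' := Option.some.inj hT'
            have i1 : (if Dat L s m ρ' B P Q ρ then wt t t' ξ smin s ρ else 0) ≤
                ∑ Q ∈ T.1.powerset, if Dat L s m ρ' B P Q ρ then wt t t' ξ smin s ρ else 0 :=
              Finset.single_le_sum (f := fun Q => if Dat L s m ρ' B P Q ρ then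
                wt t t' ξ smin s ρ else 0) (fun Q _ => hnn B P Q) hQ
            have i2 := Finset.single_le_sum (f := fun P => ∑ Q ∈ T.1.powerset,
              if Dat L s m ρ' B P Q ρ then wt t t' ξ smin s ρ else 0)
              (fun P _ => Finset.sum_nonneg fun Q _ => hnn B P Q) hP
            have i3 := Finset.single_le_sum (f := fun B => ∑ P ∈ B.powerset,
              ∑ Q ∈ T.1.powerset, if Dat L s m ρ' B P Q ρ then wt t t' ξ smin s ρ else 0)
              (fun B _ => Finset.sum_nonneg fun P _ => Finset.sum_nonneg fun Q _ => hnn B P Q)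
              (Finset.mem_filter.2 ⟨hB, hBne, hBm⟩ : B ∈ Bs)
            rw [if_pos hD] at i1
            exact i1.trans (i2.trans i3)
          · exact Finset.sum_nonneg fun B _ => Finset.sum_nonneg fun P _ =>
              Finset.sum_nonneg fun Q _ => hnn B P Q
        refine step1.trans ?_
        have step2 : ∀ B ∈ Bs, ∑ P ∈ B.powerset, ∑ Q ∈ T.1.powerset,
            ∑ ρ ∈ univ.filter (fun ρ => Dat L s m ρ' B P Q ρ), wt t t' ξ smin s ρ ≤
            (1 / (4 * (r : ℝ))) ^ B.card *
              (x ^ m * wt t t' ξ smin s ρ') := by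
          intro B hB
          obtain ⟨hB1, hB2, hB3⟩ := Finset.mem_filter.1 hB
          have hBc := Finset.card_pos.2 hB2
          have hw := hW ρ'
          have i1 : ∀ P ∈ B.powerset, ∑ Q ∈ T.1.powerset,
            ∑ ρ ∈ univ.filter (fun ρ => Dat L s m ρ' B P Q ρ), wt t t' ξ smin s ρ ≤
            (2 ^ r) ^ B.card * (x ^ (m - B.card) * ((2 * (lam / ξ)) ^ B.card *
              wt t t' ξ smin s ρ')) := by
            intro P _
            have i2 : ∑ Q ∈ T.1.powerset,
              ∑ ρ ∈ univ.filter (fun ρ => Dat L s m ρ' B P Q ρ), wt t t' ξ smin s ρ ≤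
              ∑ Q ∈ T.1.powerset, x ^ (m - B.card) * ((2 * (lam / ξ)) ^ B.card *
                wt t t' ξ smin s ρ') :=
              Finset.sum_le_sum fun Q _ => sum_dat1 ht ht2 ht' ht1' hξ hξ1 hlam hlam4 hx0.le
                (fun ρ₁ => ih (m - B.card) (by omega) ρ₁)
            refine i2.trans ?_
            rw [Finset.sum_const, Finset.card_powerset, nsmul_eq_mul]
            apply mul_le_mul_of_nonneg_right _ (by positivity)
            push_cast
            calc (2 : ℝ) ^ T.1.card ≤ 2 ^ r := pow_le_pow_right₀ (by norm_num) (hL T hTmem)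
              _ = (2 ^ r) ^ 1 := (pow_one _).symm
              _ ≤ (2 ^ r) ^ B.card := pow_le_pow_right₀ (one_le_pow₀ (by norm_num)) hBc
          refine (Finset.sum_le_sum i1).trans ?_
          rw [Finset.sum_const, Finset.card_powerset, nsmul_eq_mul]
          have e4 : x ^ m = x ^ (m - B.card) * x ^ B.card := by
            rw [← pow_add]; congr 1; omega
          have e5 : (1 / (4 * (r : ℝ))) ^ B.card * x ^ B.card =
              2 ^ B.card * (2 ^ r) ^ B.card * (2 * (lam / ξ)) ^ B.card := by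
            rw [← mul_pow, ← mul_pow, ← mul_pow]; congr 1; rw [hx]; field_simp; ring
          push_cast
          have e6 : (1 / (4 * (r : ℝ))) ^ B.card *
              (x ^ m * wt t t' ξ smin s ρ') =
              ((1 / (4 * (r : ℝ))) ^ B.card * x ^ B.card) *
              (x ^ (m - B.card) * wt t t' ξ smin s ρ') := by
            rw [e4]; ring
          rw [e6, e5]
          apply le_of_eq
          ring
        refine (Finset.sum_le_sum step2).trans ?_
        rw [← Finset.sum_mul]
        have h6 : ∑ B ∈ Bs, (1 / (4 * (r : ℝ))) ^ B.card ≤ Real.exp (1 / 4) - 1 := by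
          have h7 : ∑ B ∈ Bs, (1 / (4 * (r : ℝ))) ^ B.card ≤
              ∑ B ∈ (T.1.image Prod.fst).powerset.erase ∅, (1 / (4 * (r : ℝ))) ^ B.card := by
            apply Finset.sum_le_sum_of_subset_of_nonneg
            · intro B hB
              obtain ⟨hB1, hB2, hB3⟩ := Finset.mem_filter.1 hB
              rw [Finset.mem_erase]
              exact ⟨hB2.ne_empty, hB1⟩
            · intro B _ _
              positivity
          have h8 := Finset.add_sum_erase (T.1.image Prod.fst).powerset
            (fun B => (1 / (4 * (r : ℝ))) ^ B.card) (Finset.empty_mem_powerset _)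
          have h9 : ∑ B ∈ (T.1.image Prod.fst).powerset, (1 / (4 * (r : ℝ))) ^ B.card =
              (1 / (4 * (r : ℝ)) + 1) ^ (T.1.image Prod.fst).card := by
            have := Finset.sum_pow_mul_eq_add_pow (1 / (4 * (r : ℝ))) 1 (T.1.image Prod.fst)
            simpa using this
          have h10 : (1 / (4 * (r : ℝ)) + 1) ^ (T.1.image Prod.fst).card ≤ Real.exp (1 / 4) := by
            calc (1 / (4 * (r : ℝ)) + 1) ^ (T.1.image Prod.fst).card
                ≤ (1 / (4 * (r : ℝ)) + 1) ^ r := pow_le_pow_right₀ (by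
                    have : (0:ℝ) < 1 / (4 * r) := by positivity
                    linarith) (Finset.card_image_le.trans (hL T hTmem))
              _ ≤ (Real.exp (1 / (4 * r))) ^ r := by
                  apply pow_le_pow_left₀ (by positivity)
                  exact Real.add_one_le_exp _
              _ = Real.exp (1 / 4) := by
                  rw [← Real.exp_nat_mul]
                  congr 1
                  field_simp
          rw [h9] at h8
          simp only [Finset.card_empty, pow_zero] at h8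
          linarith
        have h11 : ∑ B ∈ Bs, (1 / (4 * (r : ℝ))) ^ B.card ≤ 1 := by
          have h13 := exp_bound
          have h14 : (1 : ℝ) ≤ Real.exp (1 / 2) := Real.one_le_exp (by norm_num)
          have h15 : (1 : ℝ) ≤ Real.exp (1 / 4) := Real.one_le_exp (by norm_num)
          nlinarith
        have h12 : 0 ≤ x ^ m * wt t t' ξ smin s ρ' := mul_nonneg (by positivity) (hW ρ')
        calc (∑ B ∈ Bs, (1 / (4 * (r : ℝ))) ^ B.card) *
              (x ^ m * wt t t' ξ smin s ρ')
            ≤ 1 * (x ^ m * wt t t' ξ smin s ρ') := mul_le_mul_of_nonneg_right h11 h12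
          _ = x ^ m * wt t t' ξ smin s ρ' := one_mul _

end sums

end enc

open Classical in
theorem switch_block1 {G : Type} [Fintype G] [DecidableEq G] {c smin r k : ℕ} {t t' ξ lam : ℝ}
    (ht : 0 < t) (ht2 : t ≤ 1 / 2) (ht' : 0 < t') (ht1' : t' ≤ 1) (hξ : 0 < ξ) (hξ1 : ξ ≤ 1)
    (hs : 1 ≤ smin) (hlam : (1 - t) ^ smin / t' ≤ lam) (hlam4 : lam ≤ 1 / 4) (hr : 1 ≤ r)
    (s : G × Fin c → Option Bool) {b : Bool}
    {f : (G × Fin c → Bool) → Bool} (hf : Cert r b f) :
    ∑ ρ : G → St c, wt t t' ξ smin s ρ *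
      (if ¬ DTr k (fun z : G → Bool => f (XX s ρ z)) then (1 : ℝ) else 0) ≤
      (16 * r * 2 ^ r * (lam / ξ)) ^ (k + 1) := by
  have hW := Sw.wt_nn (G := G) ht ht2 ht' ht1' hξ hξ1 hlam hlam4 s
  wlog hb : b = true generalizing b f
  · have hb' : b = false := by simpa using hb
    subst hb'
    have hf' : Cert r true (fun x => !f x) := by
      intro x hx
      obtain ⟨A, hA, hy⟩ := hf x (by simpa using hx)
      exact ⟨A, hA, fun y h => by simp [hy y h]⟩
    refine le_trans (Finset.sum_le_sum fun ρ _ => ?_) (this hf' rfl)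
    apply mul_le_mul_of_nonneg_left _ (hW ρ)
    by_cases hJ : DTr k (fun z : G → Bool => f (XX s ρ z))
    · simp only [hJ, not_true, if_false]
      split_ifs <;> norm_num
    · have hJ' : ¬ DTr k (fun z : G → Bool => !f (XX s ρ z)) := by
        intro h
        apply hJ
        have h2 := h.comp (fun b => !b)
        refine (congrArg (DTr k) (funext fun x => ?_)).mp h2
        simp
      simp only [hJ, hJ', not_false_iff, if_true, le_refl]
  subst hb
  obtain ⟨L, hL, rfl⟩ := cert_dnf hf
  have hstep : ∀ ρ : G → St c, wt t t' ξ smin s ρ *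
      (if ¬ DTr k (fun z : G → Bool => dnf L (XX s ρ z)) then (1 : ℝ) else 0) ≤
      ∑ ρ' : G → St c, if Sw.EncB L s (k + 1) ρ ρ' then wt t t' ξ smin s ρ else 0 := by
    intro ρ
    have hnn : ∀ ρ' : G → St c,
        0 ≤ (if Sw.EncB L s (k + 1) ρ ρ' then wt t t' ξ smin s ρ else 0) := by
      intro ρ'
      split_ifs
      · exact hW ρ
      · exact le_refl _
    by_cases hJ : DTr k (fun z : G → Bool => dnf L (XX s ρ z))
    · simp only [hJ, not_true, if_false, mul_zero]
      exact Finset.sum_nonneg fun ρ' _ => hnn ρ'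
    · obtain ⟨ρ', hE⟩ := Sw.EncB.exists k ρ hJ
      simp only [hJ, not_false_iff, if_true, mul_one]
      have := Finset.single_le_sum (fun ρ' _ => hnn ρ') (Finset.mem_univ ρ')
      rw [if_pos hE] at this
      exact this
  refine (Finset.sum_le_sum fun ρ _ => hstep ρ).trans ?_
  rw [Finset.sum_comm]
  have hin : ∀ ρ' : G → St c, ∑ ρ : G → St c,
      (if Sw.EncB L s (k + 1) ρ ρ' then wt t t' ξ smin s ρ else 0) ≤
      (16 * r * 2 ^ r * (lam / ξ)) ^ (k + 1) * wt t t' ξ smin s ρ' := by
    intro ρ'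
    rw [← Finset.sum_filter]
    exact sum_enc1 ht ht2 ht' ht1' hξ hξ1 hlam hlam4 hr hL (k + 1) ρ'
  refine (Finset.sum_le_sum fun ρ' _ => hin ρ').trans ?_
  rw [← Finset.mul_sum, wt_sum ht (by linarith) ht' hs s, mul_one]

open Classical in
theorem stage_switch1 {G : Type} [Fintype G] [DecidableEq G] {c smin r r' : ℕ} {t t' ξ lam : ℝ}
    (ht : 0 < t) (ht2 : t ≤ 1 / 2) (ht' : 0 < t') (ht1' : t' ≤ 1) (hξ : 0 < ξ) (hξ1 : ξ ≤ 1)
    (hlam : (1 - t) ^ smin / t' ≤ lam) (hlam4 : lam ≤ 1 / 4)
    (hs : 1 ≤ smin) (hr : 1 ≤ r)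
    (s : G × Fin c → Option Bool) (m ℓ : ℕ)
    (F : List Bool → (G × Fin c → Bool) → Bool)
    (hF : ∀ y : List Bool, y.length ≤ ℓ + (2 * m + 1) → DTr r (F y)) :
    ∑ ρ : G → St c, wt t t' ξ smin s ρ *
      (if ¬ ∀ y : List Bool, y.length ≤ ℓ → ∀ b,
        DTr r' (fun z : G → Bool => QF m F 1 b y (XX s ρ z)) then (1 : ℝ) else 0) ≤
      2 ^ (ℓ + 2) * (16 * r * 2 ^ r * (lam / ξ)) ^ (r' + 1) := by
  have hp0 : 0 ≤ (1 - t) ^ smin := by
    apply pow_nonneg
    linarith
  have hlam0 : 0 ≤ lam := le_trans (div_nonneg hp0 ht'.le) hlam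
  have hp1 : (1 - t) ^ smin ≤ lam := by
    have h1 : (1 - t) ^ smin ≤ lam * t' := (div_le_iff₀ ht').1 hlam
    have h2 : lam * t' ≤ lam * 1 := mul_le_mul_of_nonneg_left ht1' hlam0
    linarith
  have hcond : (1 - ξ) * (1 - t) ^ smin / t' + ξ * (1 - t) ^ smin ≤ 1 := by
    have h1 : (1 - ξ) * (1 - t) ^ smin / t' = (1 - ξ) * ((1 - t) ^ smin / t') := by
      rw [mul_div_assoc]
    have h2 : (1 - ξ) * ((1 - t) ^ smin / t') ≤ (1 - ξ) * lam :=
      mul_le_mul_of_nonneg_left hlam (by linarith)
    have h3 : ξ * (1 - t) ^ smin ≤ ξ * lam := mul_le_mul_of_nonneg_left hp1 hξ.le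
    rw [h1]
    linarith
  have hw : ∀ ρ : G → St c, 0 ≤ wt t t' ξ smin s ρ := fun ρ =>
    wt_nonneg ht (by linarith) ht' hξ.le hξ1 hs hcond s ρ
  set ε : ℝ := (16 * r * 2 ^ r * (lam / ξ)) ^ (r' + 1) with hε
  have hε0 : 0 ≤ ε := by positivity
  set S := W_strs ℓ ×ˢ (Finset.univ : Finset Bool) with hS
  have hnn : ∀ ρ : G → St c, ∀ p ∈ S, (0 : ℝ) ≤
      (if ¬ DTr r' (fun z : G → Bool => QF m F 1 p.2 p.1 (XX s ρ z)) then (1 : ℝ) else 0) := by
    intro ρ p _
    split_ifs <;> norm_num
  have hpt : ∀ ρ : G → St c, (if ¬ ∀ y : List Bool, y.length ≤ ℓ → ∀ b,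
      DTr r' (fun z : G → Bool => QF m F 1 b y (XX s ρ z)) then (1 : ℝ) else 0) ≤
      ∑ p ∈ S, (if ¬ DTr r' (fun z : G → Bool => QF m F 1 p.2 p.1 (XX s ρ z))
        then (1 : ℝ) else 0) := by
    intro ρ
    by_cases hGG : ∀ y : List Bool, y.length ≤ ℓ → ∀ b,
      DTr r' (fun z : G → Bool => QF m F 1 b y (XX s ρ z))
    · rw [if_neg (not_not.2 hGG)]
      exact Finset.sum_nonneg (hnn ρ)
    · rw [if_pos hGG]
      have hex : ∃ y : List Bool, y.length ≤ ℓ ∧ ∃ b,
          ¬ DTr r' (fun z : G → Bool => QF m F 1 b y (XX s ρ z)) := by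
        by_contra hcon
        apply hGG
        intro y hy b
        by_contra hJ
        exact hcon ⟨y, hy, b, hJ⟩
      obtain ⟨y, hy, b, hJ⟩ := hex
      have hmem : ((y, b) : List Bool × Bool) ∈ S := by
        rw [hS, Finset.mem_product]
        exact ⟨W_mem_strs hy, Finset.mem_univ _⟩
      refine le_trans ?_ (Finset.single_le_sum (hnn ρ) hmem)
      rw [if_pos hJ]
  calc ∑ ρ : G → St c, wt t t' ξ smin s ρ *
      (if ¬ ∀ y : List Bool, y.length ≤ ℓ → ∀ b,
        DTr r' (fun z : G → Bool => QF m F 1 b y (XX s ρ z)) then (1 : ℝ) else 0)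
      ≤ ∑ ρ : G → St c, wt t t' ξ smin s ρ *
        ∑ p ∈ S, (if ¬ DTr r' (fun z : G → Bool => QF m F 1 p.2 p.1 (XX s ρ z))
          then (1 : ℝ) else 0) :=
        Finset.sum_le_sum fun ρ _ => mul_le_mul_of_nonneg_left (hpt ρ) (hw ρ)
    _ = ∑ p ∈ S, ∑ ρ : G → St c, wt t t' ξ smin s ρ *
        (if ¬ DTr r' (fun z : G → Bool => QF m F 1 p.2 p.1 (XX s ρ z))
          then (1 : ℝ) else 0) := by
        simp only [Finset.mul_sum]
        exact Finset.sum_comm
    _ ≤ ∑ _p ∈ S, ε := by
        refine Finset.sum_le_sum ?_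
        rintro ⟨y, b⟩ hp
        rw [hS, Finset.mem_product] at hp
        have hy : y.length ≤ ℓ := W_length_of_mem hp.1
        refine switch_block1 ht ht2 ht' ht1' hξ hξ1 hs hlam hlam4 hr s (b := b) ?_
        apply cert_QF1
        intro w hw
        apply hF
        rw [W_length_pairBits]
        have hy' : (y, b).1.length = y.length := rfl
        omega
    _ ≤ 2 ^ (ℓ + 2) * ε := by
        rw [Finset.sum_const, nsmul_eq_mul]
        apply mul_le_mul_of_nonneg_right _ hε0
        have hcard : S.card ≤ 2 ^ (ℓ + 2) := by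
          rw [hS, Finset.card_product, Finset.card_univ, Fintype.card_bool]
          have := W_card_strs ℓ
          calc _ ≤ 2 ^ (ℓ + 1) * 2 := Nat.mul_le_mul_right _ this
            _ = _ := by ring
        exact_mod_cast hcard


end Pool.Agent.Y626.WR
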