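import Pool.Agent.Y626.WG.Hard

/-!
# Trees of NOR gates, quantifiers over ranges, and tuples
-/

set_option autoImplicit false

namespace Pool.Agent.Y626.WR

open Pool.Agent.NPC Pool.Agent.H620R2.Gauge Pool.Agent.TH678.GC Pool.Agent.H591R3.PHG
  Pool.Agent.Y626.WG

/-- the tree of NOR gates, the number of the children of the root first -/
def treeL : List ℕ → (List ℕ → Bool) → Bool
  | [], f => f []
  | c :: cs, f => decide (∀ i < c, treeL cs (fun y => f (i :: y)) = false)

theorem treeL_congr : ∀ (cs : List ℕ) (f f' : List ℕ → Bool),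
    (∀ y, List.Forall₂ (· < ·) y cs → f y = f' y) → treeL cs f = treeL cs f'
  | [], f, f', h => h [] List.Forall₂.nil
  | c :: cs, f, f', h => by
    show decide (∀ i < c, treeL cs (fun y => f (i :: y)) = false) =
      decide (∀ i < c, treeL cs (fun y => f' (i :: y)) = false)
    have h1 : ∀ i < c, treeL cs (fun y => f (i :: y)) = treeL cs (fun y => f' (i :: y)) :=
      fun i hi => treeL_congr cs _ _ fun y hy => h (i :: y) (List.Forall₂.cons hi hy)
    refine decide_eq_decide.2 (forall₂_congr fun i hi => ?_)
    rw [h1 i hi]

theorem treeL_append (c : ℕ) : ∀ (ds : List ℕ) (f : List ℕ → Bool),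
    treeL (ds ++ [c]) f = treeL ds (fun y => decide (∀ i < c, f (y ++ [i]) = false))
  | [], f => rfl
  | d :: ds, f => by
    show decide (∀ i < d, treeL (ds ++ [c]) (fun y => f (i :: y)) = false) =
      decide (∀ i < d, treeL ds (fun y => decide (∀ l < c, f (i :: y ++ [l]) = false)) = false)
    refine decide_eq_decide.2 (forall₂_congr fun i _ => ?_)
    rw [treeL_append c ds]
    rfl

/-- the root and the indices of the children, from the root to the leaf -/
def coords {X : Type} : (cs : List ℕ) → Idx X cs → X × List ℕ
  | [], g => (g, [])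
  | _ :: cs, g => ((coords cs g.1).1, (coords cs g.1).2 ++ [g.2.val])

theorem coords_lt {X : Type} : ∀ (cs : List ℕ) (g : Idx X cs),
    List.Forall₂ (· < ·) (coords cs g).2 cs.reverse
  | [], _ => List.Forall₂.nil
  | c :: cs, g => by
    rw [List.reverse_cons]
    exact List.rel_append (coords_lt cs g.1) (List.Forall₂.cons g.2.2 List.Forall₂.nil)

theorem coords_inj {X : Type} : ∀ (cs : List ℕ) (g g' : Idx X cs), coords cs g = coords cs g' →
    g = g'
  | [], g, g', h => (Prod.mk.inj h).1
  | c :: cs, g, g', h => by
    obtain ⟨h1, h2⟩ := Prod.mk.inj h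
    have h3 := (coords_lt cs g.1).length_eq
    have h4 := (coords_lt cs g'.1).length_eq
    obtain ⟨h5, h6⟩ := List.append_inj h2 (h3.trans h4.symm)
    have h7 := coords_inj cs g.1 g'.1 (Prod.ext h1 h5)
    have h8 : g.2.val = g'.2.val := by simpa using h6
    exact Prod.ext h7 (Fin.ext h8)

theorem Tr_coords {X : Type} : ∀ (cs : List ℕ) (F : X → List ℕ → Bool) (j : X),
    Tr cs (fun g => F (coords cs g).1 (coords cs g).2) j = treeL cs.reverse (F j)
  | [], F, j => rfl
  | c :: cs, F, j => by
    rw [List.reverse_cons, treeL_append]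
    have h := Tr_coords cs (fun x l => decide (∀ i < c, F x (l ++ [i]) = false)) j
    rw [← h]
    show Tr cs (fun g => decide (∀ i : Fin c, F (coords cs g).1 ((coords cs g).2 ++ [i.val]) =
      false)) j = _
    congr 1
    funext g
    refine decide_eq_decide.2 ⟨fun h i hi => h ⟨i, hi⟩, fun h i => h i.val i.2⟩

/-- the tuples below the tuple `cs` -/
def tupSet : List ℕ → Finset (List ℕ)
  | [] => {[]}
  | c :: cs => ((Finset.range c) ×ˢ tupSet cs).image fun p => p.1 :: p.2

theorem mem_tupSet : ∀ (cs x : List ℕ), x ∈ tupSet cs ↔ List.Forall₂ (· < ·) x cs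
  | [], x => by simp [tupSet]
  | c :: cs, x => by
    rw [tupSet, Finset.mem_image]
    constructor
    · rintro ⟨p, hp, rfl⟩
      rw [Finset.mem_product, Finset.mem_range, mem_tupSet] at hp
      exact List.Forall₂.cons hp.1 hp.2
    · intro h
      cases h with
      | cons h1 h2 =>
        exact ⟨(_, _), Finset.mem_product.2 ⟨Finset.mem_range.2 h1, (mem_tupSet _ _).2 h2⟩, rfl⟩

theorem card_tupSet : ∀ cs : List ℕ, (tupSet cs).card = cs.prod
  | [] => rfl
  | c :: cs => by
    rw [tupSet, Finset.card_image_of_injective, Finset.card_product, Finset.card_range,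
      card_tupSet cs, List.prod_cons]
    intro p q h
    obtain ⟨h1, h2⟩ := List.cons.inj h
    exact Prod.ext h1 h2

theorem Tup_of_forall₂ {N : ℕ} {x cs : List ℕ} (h : List.Forall₂ (· < ·) x cs)
    (hN : ∀ c ∈ cs, c ≤ N) : Tup N cs.length x := by
  induction h with
  | nil => exact ⟨rfl, by simp⟩
  | @cons a c x cs h1 h2 ih =>
    obtain ⟨h3, h4⟩ := ih fun c hc => hN c (List.mem_cons_of_mem _ hc)
    refine ⟨by rw [List.length_cons, List.length_cons, h3], fun b hb => ?_⟩
    rcases List.mem_cons.1 hb with rfl | hb
    · exact lt_of_lt_of_le h1 (hN c (List.mem_cons_self ..))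
    · exact h4 b hb

/-- the comparisons -/
def lts : List ℕ → List ℕ → List Bool
  | c :: cs, a :: x => decide (a < c) :: lts cs x
  | _, _ => []

theorem lts_all : ∀ (cs x : List ℕ), x.length = cs.length →
    ((lts cs x).all id = true ↔ List.Forall₂ (· < ·) x cs)
  | [], [], _ => by simp [lts]
  | [], a :: x, h => by simp at h
  | c :: cs, [], h => by simp at h
  | c :: cs, a :: x, h => by
    rw [lts, List.all_cons, Bool.and_eq_true, lts_all cs x (by simpa using h),
      List.forall₂_cons]
    simp

/-- the matrix: the quantifiers are restricted to the elements with the bit `true` -/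
def rel (e : Bool) : Bool → List Bool → Bool → Bool
  | _, [], a => a == e
  | true, r :: rs, a => r && rel e false rs a
  | false, r :: rs, a => !r || rel e true rs a

theorem holds_all {N : ℕ} {P : List ℕ → Prop} (hN : 1 ≤ N) :
    ∀ (bs : List ℕ) (b : Bool) (v : List ℕ),
      (∀ y : List ℕ, y.length = bs.sum → (∀ a ∈ y, a < N) → P (v ++ y)) → Holds N P b bs v
  | [], b, v, h => by
    have := h [] rfl (by simp)
    rw [List.append_nil] at this
    cases b <;> exact this
  | s :: bs, false, v, h => by
    unfold Holds
    intro w hw1 hw2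
    refine holds_all hN bs true (v ++ w) (fun y hy1 hy2 => ?_)
    rw [List.append_assoc]
    refine h _ (by rw [List.length_append, List.sum_cons, hw1, hy1]) fun a ha => ?_
    rcases List.mem_append.1 ha with ha | ha
    · exact hw2 a ha
    · exact hy2 a ha
  | s :: bs, true, v, h => by
    unfold Holds
    refine ⟨List.replicate s 0, List.length_replicate, fun a ha => by
      rw [List.eq_of_mem_replicate ha]; omega, ?_⟩
    refine holds_all hN bs false (v ++ List.replicate s 0) (fun y hy1 hy2 => ?_)
    rw [List.append_assoc]
    refine h _ (by rw [List.length_append, List.sum_cons, List.length_replicate, hy1])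
      fun a ha => ?_
    rcases List.mem_append.1 ha with ha | ha
    · rw [List.eq_of_mem_replicate ha]; omega
    · exact hy2 a ha

/-- restricted quantifiers over single numbers and the tree of NOR gates -/
theorem holds_rel {N : ℕ} {P : List ℕ → Prop} (hN : 1 ≤ N) {e : Bool} :
    ∀ (cs : List ℕ) (b : Bool) (f : List ℕ → Bool) (v : List ℕ), (∀ c ∈ cs, c ≤ N) →
      e = !(fl cs.length b) →
      (∀ y : List ℕ, y.length = cs.length → (∀ a ∈ y, a < N) →
        (P (v ++ y) ↔ rel e b (lts cs y) (f y) = true)) →
      (Holds N P b (List.replicate cs.length 1) v ↔ treeL cs f = !b)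
  | [], b, f, v, _, he, hP => by
    have h1 := hP [] rfl (by simp)
    rw [List.append_nil] at h1
    show Holds N P b [] v ↔ f [] = !b
    have h2 : Holds N P b [] v ↔ P v := by cases b <;> exact Iff.rfl
    rw [h2, h1, he]
    show rel (!b) b [] (f []) = true ↔ _
    cases b <;> simp [rel]
  | c :: cs, b, f, v, hN', he, hP => by
    have hc : c ≤ N := hN' c (List.mem_cons_self ..)
    have ih : ∀ x < c, (Holds N P (!b) (List.replicate cs.length 1) (v ++ [x]) ↔
        treeL cs (fun y => f (x :: y)) = !(!b)) := by
      intro x hx
      refine holds_rel hN cs (!b) (fun y => f (x :: y)) (v ++ [x])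
        (fun c' hc' => hN' c' (List.mem_cons_of_mem _ hc')) he ?_
      intro y hy hy2
      have h1 := hP (x :: y) (by rw [List.length_cons, List.length_cons, hy]) (by
        intro a ha
        rcases List.mem_cons.1 ha with rfl | ha
        · omega
        · exact hy2 a ha)
      rw [List.append_assoc, List.singleton_append, h1]
      have h2 : lts (c :: cs) (x :: y) = true :: lts cs y := by
        rw [lts, decide_eq_true hx]
      rw [h2]
      cases b <;> simp [rel]
    have hout : ∀ x < N, c ≤ x → ∀ y : List ℕ, y.length = cs.length → (∀ a ∈ y, a < N) →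
        (P ((v ++ [x]) ++ y) ↔ b = false) := by
      intro x hx hcx y hy hy2
      have h1 := hP (x :: y) (by rw [List.length_cons, List.length_cons, hy]) (by
        intro a ha
        rcases List.mem_cons.1 ha with rfl | ha
        · exact hx
        · exact hy2 a ha)
      rw [List.append_assoc, List.singleton_append, h1]
      have h2 : lts (c :: cs) (x :: y) = false :: lts cs y := by
        rw [lts, decide_eq_false (by omega)]
      rw [h2]
      cases b <;> simp [rel]
    have e1 : ∀ Q : List ℕ → Prop, (∃ w : List ℕ, w.length = 1 ∧ (∀ c ∈ w, c < N) ∧ Q w) ↔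
        ∃ x < N, Q [x] := by
      intro Q
      constructor
      · rintro ⟨w, h1, h2, h3⟩
        obtain ⟨x, rfl⟩ := List.length_eq_one_iff.1 h1
        exact ⟨x, h2 x (List.mem_singleton_self x), h3⟩
      · rintro ⟨x, h1, h2⟩
        exact ⟨[x], rfl, by simpa using h1, h2⟩
    have e2 : ∀ Q : List ℕ → Prop, (∀ w : List ℕ, w.length = 1 → (∀ c ∈ w, c < N) → Q w) ↔
        ∀ x < N, Q [x] := by
      intro Q
      constructor
      · intro h x hx
        exact h [x] rfl (by simpa using hx)
      · intro h w h1 h2
        obtain ⟨x, rfl⟩ := List.length_eq_one_iff.1 h1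
        exact h x (h2 x (List.mem_singleton_self x))
    have hsum : (List.replicate cs.length 1).sum = cs.length := by
      rw [List.sum_replicate]; simp
    rw [List.length_cons, List.replicate_succ]
    cases b with
    | true =>
      show (∃ w : List ℕ, w.length = 1 ∧ (∀ c ∈ w, c < N) ∧
        Holds N P false (List.replicate cs.length 1) (v ++ w)) ↔
          decide (∀ i < c, treeL cs (fun y => f (i :: y)) = false) = false
      rw [e1, decide_eq_false_iff_not]
      push Not
      constructor
      · rintro ⟨x, hx, h1⟩
        by_cases hcx : x < c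
        · refine ⟨x, hcx, ?_⟩
          rw [(ih x hcx).1 h1]
          simp
        · exfalso
          refine not_holds hN _ _ _ (fun y hy hy2 => ?_) h1
          rw [hsum] at hy
          rw [hout x hx (by omega) y hy hy2]
          simp
      · rintro ⟨x, hx, h1⟩
        refine ⟨x, by omega, (ih x hx).2 ?_⟩
        simpa using h1
    | false =>
      show (∀ w : List ℕ, w.length = 1 → (∀ c ∈ w, c < N) →
        Holds N P true (List.replicate cs.length 1) (v ++ w)) ↔
          decide (∀ i < c, treeL cs (fun y => f (i :: y)) = false) = true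
      rw [e2, decide_eq_true_iff]
      constructor
      · intro h x hx
        exact (ih x hx).1 (h x (by omega))
      · intro h x hx
        by_cases hcx : x < c
        · exact (ih x hcx).2 (h x hcx)
        · refine holds_all hN _ _ _ fun y hy hy2 => ?_
          rw [hsum] at hy
          rw [hout x hx (by omega) y hy hy2]

end Pool.Agent.Y626.WR
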